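import Mathlib
import Pool.Agent.H851.KS.Piece

/-!
# The intertwining operator of an isomorphism of orthogonal Lie algebras which respects a grading
-/

set_option autoImplicit false
set_option linter.unusedSectionVars false
set_option linter.unusedVariables false

namespace Pool.Agent.H851.MK

open Module Pool.Agent.H851.KT Pool.Agent.H851.KS

section raise

variable {C : Type} [Field C] [CharZero C] {A : Type} [AddCommGroup A] [Module C A]
  {B : A →ₗ[C] A →ₗ[C] C}

/-- skew operators of degree one -/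
theorem raise (hs : ∀ x y, B x y = B y x) {w w' : A} (h0 : B w w = 0) (h0' : B w' w' = 0)
    (h1 : B w w' = 1) {X : End C A} (hX : Skew B X)
    (h : wdg B w' w * X = X * wdg B w' w + X) :
    X = wdg B w (X w') ∧ B w (X w') = 0 ∧ B w' (X w') = 0 := by
  have hself : ∀ z, B z (X z) = 0 := by
    intro z
    have h2 := hX z z
    rw [hs (X z) z] at h2
    have h3 : (2 : C) * B z (X z) = 0 := by linear_combination h2
    exact (mul_eq_zero.1 h3).resolve_left two_ne_zero
  have key : ∀ z, X z = B w' (X z) • w - B w (X z) • w' - B w' z • X w + B w z • X w' := by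
    intro z
    have h2 := LinearMap.congr_fun h z
    rw [LinearMap.add_apply, Module.End.mul_apply, Module.End.mul_apply, wdg_apply, wdg_apply,
      map_sub, map_smul, map_smul] at h2
    have h3 : X z = B w' (X z) • w - B w (X z) • w' - (B w' z • X w - B w z • X w') := by
      rw [h2, add_sub_cancel_left]
    rw [← sub_add] at h3
    exact h3
  have hw : X w = 0 := by
    have h2 := key w
    rw [hself w, zero_smul, sub_zero, hs w' w, h1, one_smul, h0, zero_smul, add_zero] at h2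
    have h3 : (2 : C) • X w = B w' (X w) • w := by
      rw [two_smul]
      nth_rewrite 1 [h2]
      rw [sub_add_cancel]
    have h4 : (2 : C) * B w' (X w) = B w' (X w) := by
      have h5 := congrArg (B w') h3
      rw [map_smul, map_smul, smul_eq_mul, smul_eq_mul, hs w' w, h1, mul_one] at h5
      exact h5
    have h5 : B w' (X w) = 0 := by linear_combination h4
    rw [h5, zero_smul] at h3
    exact (smul_eq_zero.1 h3).resolve_left two_ne_zero
  refine ⟨LinearMap.ext fun z => ?_, ?_, hself w'⟩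
  · have h2 := key z
    have h3 : B w (X z) = 0 := by
      have h4 := hX w z
      rw [hw, map_zero, LinearMap.zero_apply] at h4
      linear_combination h4
    have h4 : B w' (X z) = -B (X w') z := by
      have h5 := hX w' z
      linear_combination h5
    rw [hw, smul_zero, sub_zero, h3, zero_smul, sub_zero, h4] at h2
    rw [wdg_apply, h2, neg_smul]
    abel
  · have h4 := hX w w'
    rw [hw, map_zero, LinearMap.zero_apply] at h4
    linear_combination h4

/-- skew operators of degree minus one -/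
theorem lower (hs : ∀ x y, B x y = B y x) {w w' : A} (h0 : B w w = 0) (h0' : B w' w' = 0)
    (h1 : B w w' = 1) {X : End C A} (hX : Skew B X)
    (h : wdg B w' w * X = X * wdg B w' w + (-1 : C) • X) :
    X = wdg B w' (X w) ∧ B w' (X w) = 0 ∧ B w (X w) = 0 := by
  refine raise hs h0' h0 (by rw [hs, h1]) hX ?_
  have h2 : wdg B w w' = (-1 : C) • wdg B w' w := by
    rw [wdg_swap, neg_smul, one_smul]
  rw [h2, smul_mul_assoc, h, smul_add, smul_smul, mul_smul_comm]
  norm_num

end raise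

section inter

variable {C : Type} [Field C] [CharZero C] {A A' : Type} [AddCommGroup A] [Module C A]
  [AddCommGroup A'] [Module C A'] {B : A →ₗ[C] A →ₗ[C] C} {B' : A' →ₗ[C] A' →ₗ[C] C}
  {R : Submodule C (End C A × End C A')}

/-- **The intertwining operator.** -/
theorem inter (hbr : ∀ P ∈ R, ∀ Q ∈ R, ∃ W ∈ R, P.1 * Q.1 = Q.1 * P.1 + W.1 ∧
      P.2 * Q.2 = Q.2 * P.2 + W.2)
    (hg : ∀ P ∈ R, P.1 = 0 → P.2 = 0) (hg' : ∀ P ∈ R, P.2 = 0 → P.1 = 0)
    (hsk : ∀ P ∈ R, Skew B' P.2) (hs : ∀ x y, B x y = B y x) {v v' : A} (h0 : B v v = 0)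
    (h0' : B v' v' = 0) (h1 : B v v' = 1) {m : ℕ} (hm : 0 < m) (u : Fin m → A)
    (hu : ∀ i, B v (u i) = 0) (hu' : ∀ i, B v' (u i) = 0)
    (huu : ∀ i j, i ≠ j → B (u i) (u j) = 0) (hui : ∀ i, B (u i) (u i) ≠ 0)
    (hs' : ∀ x y, B' x y = B' y x) {w w' : A'} (k0 : B' w w = 0) (k0' : B' w' w' = 0)
    (k1 : B' w w' = 1) (hN : (wdg B v' v, wdg B' w' w) ∈ R)
    (he : ∀ i, ∃ X, (wdg B v (u i), X) ∈ R) (hf : ∀ i, ∃ X, (wdg B v' (u i), X) ∈ R)
    {E : Submodule C A} (hE : ∀ x ∈ E, x = B v' x • v + B v x • v' +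
      ∑ i, ((B (u i) (u i))⁻¹ * B (u i) x) • u i)
    (hspan : ∀ P ∈ R, P.1 ∈ Submodule.span C {X | ∃ x ∈ E, ∃ y ∈ E, X = wdg B x y}) :
    ∃ Ψ : A →ₗ[C] A', Ψ v ≠ 0 ∧ ∀ P ∈ R, ∀ x, Ψ (P.1 x) = P.2 (Ψ x) := by
  classical
  have huniq : ∀ P ∈ R, ∀ Q ∈ R, P.1 = Q.1 → P.2 = Q.2 := by
    intro P hP Q hQ h
    have h2 := hg _ (R.sub_mem hP hQ) (by rw [Prod.fst_sub, h, sub_self])
    rw [Prod.snd_sub, sub_eq_zero] at h2
    exact h2
  choose e he using he
  choose f hf using hf
  have hw0 : w ≠ 0 := by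
    rintro rfl
    rw [map_zero, LinearMap.zero_apply] at k1
    exact zero_ne_one k1
  -- the degrees
  have hy : ∀ i, e i = wdg B' w (e i w') ∧ B' w (e i w') = 0 ∧ B' w' (e i w') = 0 := by
    intro i
    refine raise hs' k0 k0' k1 (hsk _ (he i)) ?_
    obtain ⟨W, hW, e1, e2⟩ := hbr _ hN _ (he i)
    have e3 : W.1 = wdg B v (u i) := by
      have h2 := br_ne h0 h1 hs (hu i) (hu' i)
      exact (end_cancel (e1.symm.trans h2))
    rw [huniq _ hW _ (he i) e3] at e2
    exact e2
  have hz : ∀ i, f i = wdg B' w' (f i w) ∧ B' w' (f i w) = 0 ∧ B' w (f i w) = 0 := by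
    intro i
    refine lower hs' k0 k0' k1 (hsk _ (hf i)) ?_
    obtain ⟨W, hW, e1, e2⟩ := hbr _ hN _ (hf i)
    have e3 : W.1 = (-1 : C) • wdg B v' (u i) := by
      have h2 := br_nf h0' h1 hs (hu i) (hu' i)
      exact (end_cancel (e1.symm.trans h2))
    have e4 := huniq _ hW _ (R.smul_mem (-1 : C) (hf i)) e3
    rw [e4] at e2
    exact e2
  set y : Fin m → A' := fun i => e i w' with hydef
  set z : Fin m → A' := fun i => f i w with hzdef
  have hy1 : ∀ i, e i = wdg B' w (y i) := fun i => (hy i).1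
  have hy2 : ∀ i, B' w (y i) = 0 := fun i => (hy i).2.1
  have hy3 : ∀ i, B' w' (y i) = 0 := fun i => (hy i).2.2
  have hz1 : ∀ i, f i = wdg B' w' (z i) := fun i => (hz i).1
  have hz2 : ∀ i, B' w' (z i) = 0 := fun i => (hz i).2.1
  have hz3 : ∀ i, B' w (z i) = 0 := fun i => (hz i).2.2
  -- brackets
  have hW : ∀ i j, (wdg B (u i) (u j) + (-(B (u i) (u j))) • wdg B v' v,
      wdg B' (y i) (z j) + (-(B' (y i) (z j))) • wdg B' w' w) ∈ R := by
    intro i j
    obtain ⟨W, hW, e1, e2⟩ := hbr _ (he i) _ (hf j)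
    have e3 : W.1 = wdg B (u i) (u j) + (-(B (u i) (u j))) • wdg B v' v :=
      end_cancel (e1.symm.trans (br_ef h0 h0' h1 hs (hu i) (hu' i) (hu j) (hu' j)))
    have e4 : W.2 = wdg B' (y i) (z j) + (-(B' (y i) (z j))) • wdg B' w' w := by
      change e i * f j = f j * e i + W.2 at e2
      rw [hy1 i, hz1 j] at e2
      exact end_cancel (e2.symm.trans (br_ef k0 k0' k1 hs' (hy2 i) (hy3 i) (hz3 j) (hz2 j)))
    rw [← e3, ← e4]
    exact hW
  have hrel : ∀ i j, B' (y i) (z j) + B' (y j) (z i) = 2 * B (u i) (u j) ∧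
      wdg B' (y i) (z j) + wdg B' (y j) (z i) = 0 := by
    intro i j
    have h2 := R.add_mem (hW i j) (hW j i)
    have h3 : ((-2 * B (u i) (u j)) • wdg B v' v, (-2 * B (u i) (u j)) • wdg B' w' w) ∈ R :=
      R.smul_mem (-2 * B (u i) (u j)) hN
    have h4 := huniq _ h2 _ h3 (by
      change (wdg B (u i) (u j) + (-(B (u i) (u j))) • wdg B v' v) +
        (wdg B (u j) (u i) + (-(B (u j) (u i))) • wdg B v' v) = _
      rw [add_add_add_comm, wdg_add_swap, zero_add, hs (u j) (u i), ← add_smul]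
      congr 1
      ring)
    change (wdg B' (y i) (z j) + (-(B' (y i) (z j))) • wdg B' w' w) +
        (wdg B' (y j) (z i) + (-(B' (y j) (z i))) • wdg B' w' w) =
        (-2 * B (u i) (u j)) • wdg B' w' w at h4
    rw [add_add_add_comm, ← add_smul] at h4
    have h5 : ∀ a b : A', B' w a = 0 → B' w b = 0 → wdg B' a b w = 0 := by
      intro a b ha hb
      rw [wdg_apply, hs' a w, hs' b w, ha, hb, zero_smul, zero_smul, sub_zero]
    have h6 : wdg B' w' w w = w := by
      rw [wdg_apply, hs' w' w, k1, k0, one_smul, zero_smul, sub_zero]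
    have h7 := LinearMap.congr_fun h4 w
    rw [LinearMap.add_apply, LinearMap.add_apply, h5 _ _ (hy2 i) (hz3 j), h5 _ _ (hy2 j) (hz3 i),
      LinearMap.smul_apply, LinearMap.smul_apply, h6, add_zero, zero_add] at h7
    have h8 := smul_left_injective C hw0 h7
    have h9 : B' (y i) (z j) + B' (y j) (z i) = 2 * B (u i) (u j) := by linear_combination -h8
    refine ⟨h9, ?_⟩
    have h10 : -(B' (y i) (z j)) + -(B' (y j) (z i)) = -2 * B (u i) (u j) := h8
    rw [h10] at h4
    have h11 : wdg B' (y i) (z j) + wdg B' (y j) (z i) + (-2 * B (u i) (u j)) • wdg B' w' w =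
        0 + (-2 * B (u i) (u j)) • wdg B' w' w := by rw [h4, zero_add]
    exact add_right_cancel h11
  -- proportionality
  have hc : ∀ i, ∃ c : C, c ≠ 0 ∧ z i = c • y i ∧ B (u i) (u i) = c * B' (y i) (y i) := by
    intro i
    obtain ⟨h2, h3⟩ := hrel i i
    have h4 : B' (y i) (z i) = B (u i) (u i) := by
      have h5 : (2 : C) * B' (y i) (z i) = 2 * B (u i) (u i) := by linear_combination h2
      exact mul_left_cancel₀ two_ne_zero h5
    have h5 : wdg B' (y i) (z i) = 0 := by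
      have h6 : (2 : C) • wdg B' (y i) (z i) = 0 := by rw [two_smul, h3]
      exact (smul_eq_zero.1 h6).resolve_left two_ne_zero
    have h6 := LinearMap.congr_fun h5 (z i)
    rw [wdg_apply, LinearMap.zero_apply, h4, sub_eq_zero] at h6
    have h7 : z i = ((B (u i) (u i))⁻¹ * B' (z i) (z i)) • y i := by
      rw [mul_smul, ← h6, smul_smul, inv_mul_cancel₀ (hui i), one_smul]
    refine ⟨_, ?_, h7, ?_⟩
    · intro h8
      rw [h8, zero_smul] at h7
      rw [h7, map_zero] at h4
      exact hui i h4.symm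
    · rw [← h4]
      nth_rewrite 1 [h7]
      rw [map_smul, smul_eq_mul, h4]
  choose cc hc0 hc1 hc2 using hc
  have hyy : ∀ i, B' (y i) (y i) ≠ 0 := by
    intro i h2
    apply hui i
    rw [hc2, h2, mul_zero]
  have hcc : ∀ i j, cc i = cc j := by
    intro i j
    by_contra hne
    have hij : i ≠ j := by
      rintro rfl
      exact hne rfl
    obtain ⟨-, h3⟩ := hrel i j
    rw [hc1 j, hc1 i, wdg_smul, wdg_smul, wdg_swap B' (y j) (y i), smul_neg, ← sub_eq_add_neg,
      ← sub_smul] at h3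
    have h4 : wdg B' (y i) (y j) = 0 :=
      (smul_eq_zero.1 h3).resolve_left (sub_ne_zero.2 (Ne.symm hne))
    have h5 := LinearMap.congr_fun h4 (y i)
    rw [wdg_apply, LinearMap.zero_apply, sub_eq_zero] at h5
    have h6 : y j = ((B' (y i) (y i))⁻¹ * B' (y j) (y i)) • y i := by
      rw [mul_smul, ← h5, smul_smul, inv_mul_cancel₀ (hyy i), one_smul]
    set lam := (B' (y i) (y i))⁻¹ * B' (y j) (y i) with hlam
    have h7 : e j = lam • e i := by
      rw [hy1 j, hy1 i, ← wdg_smul, ← h6]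
    have h8 := R.sub_mem (he j) (R.smul_mem lam (he i))
    have h9 := hg' _ h8 (by
      change e j - lam • e i = 0
      rw [h7, sub_self])
    change wdg B v (u j) - lam • wdg B v (u i) = 0 at h9
    have h10 := LinearMap.congr_fun h9 v'
    have hwv : ∀ k, wdg B v (u k) v' = u k := by
      intro k
      rw [wdg_apply, h1, hs (u k) v', hu', one_smul, zero_smul, sub_zero]
    rw [LinearMap.sub_apply, LinearMap.smul_apply, hwv, hwv, LinearMap.zero_apply,
      sub_eq_zero] at h10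
    have h11 := huu i j hij
    rw [h10, map_smul, smul_eq_mul] at h11
    have h12 := (mul_eq_zero.1 h11).resolve_right (hui i)
    rw [h12, zero_smul] at h10
    exact hui j (by rw [h10, map_zero])
  set c := cc ⟨0, hm⟩ with hcdef
  have hcne : c ≠ 0 := hc0 _
  have hzc : ∀ i, z i = c • y i := fun i => by rw [hc1 i, hcc i ⟨0, hm⟩]
  have hbc : ∀ i, B (u i) (u i) = c * B' (y i) (y i) := fun i => by
    rw [hc2 i, hcc i ⟨0, hm⟩]
  have hyo : ∀ i j, i ≠ j → B' (y i) (y j) = 0 := by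
    intro i j hij
    obtain ⟨h2, -⟩ := hrel i j
    rw [huu i j hij, mul_zero, hzc, hzc, map_smul, map_smul, hs' (y j) (y i), ← two_smul C,
      smul_eq_mul, smul_eq_mul] at h2
    exact ((mul_eq_zero.1 ((mul_eq_zero.1 h2).resolve_left two_ne_zero)).resolve_left hcne)
  -- the operator
  obtain ⟨Ψ, hΨ⟩ : ∃ Ψ : A →ₗ[C] A', ∀ x, Ψ x = (c⁻¹ * B v' x) • w +
      ∑ i, ((B (u i) (u i))⁻¹ * B (u i) x) • y i + B v x • w' := by
    refine ⟨(c⁻¹ • B v').smulRight w +
      ∑ i, ((B (u i) (u i))⁻¹ • B (u i)).smulRight (y i) + (B v).smulRight w', fun x => ?_⟩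
    rw [LinearMap.add_apply, LinearMap.add_apply, LinearMap.sum_apply]
    rfl
  have hΨv : Ψ v = c⁻¹ • w := by
    rw [hΨ, hs v' v, h1, mul_one, h0, zero_smul, add_zero, Finset.sum_eq_zero, add_zero]
    intro i _
    rw [hs (u i) v, hu, mul_zero, zero_smul]
  have hΨv' : Ψ v' = w' := by
    rw [hΨ, h0', mul_zero, zero_smul, h1, one_smul, Finset.sum_eq_zero, zero_add, zero_add]
    intro i _
    rw [hs (u i) v', hu', mul_zero, zero_smul]
  have hΨu : ∀ i, Ψ (u i) = y i := by
    intro i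
    rw [hΨ, hu', hu, mul_zero, zero_smul, zero_smul, add_zero, zero_add, Finset.sum_eq_single i,
      inv_mul_cancel₀ (hui i), one_smul]
    · intro j _ hj
      rw [huu j i hj, mul_zero, zero_smul]
    · intro h'
      exact absurd (Finset.mem_univ _) h'
  have hBw : ∀ x, B' w (Ψ x) = B v x := by
    intro x
    rw [hΨ, map_add, map_add, map_smul, map_smul, k0, smul_zero, zero_add, k1, map_sum,
      Finset.sum_eq_zero, zero_add, smul_eq_mul, mul_one]
    intro i _
    rw [map_smul, hy2, smul_zero]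
  have hBw' : ∀ x, B' w' (Ψ x) = c⁻¹ * B v' x := by
    intro x
    rw [hΨ, map_add, map_add, map_smul, map_smul, k0', smul_zero, add_zero, hs' w' w, k1, map_sum,
      Finset.sum_eq_zero, add_zero, smul_eq_mul, mul_one]
    intro i _
    rw [map_smul, hy3, smul_zero]
  have hBy : ∀ i x, B' (y i) (Ψ x) = c⁻¹ * B (u i) x := by
    intro i x
    rw [hΨ, map_add, map_add, map_smul, map_smul, hs' (y i) w, hs' (y i) w', hy2, hy3, smul_zero,
      smul_zero, add_zero, zero_add, map_sum, Finset.sum_eq_single i]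
    · rw [map_smul, smul_eq_mul, hbc i]
      have := hyy i
      field_simp
    · intro j _ hj
      rw [map_smul, hyo i j (Ne.symm hj), smul_zero]
    · intro h'
      exact absurd (Finset.mem_univ _) h'
  -- the subalgebra
  let H : Submodule C (End C A) :=
    { carrier := {X | ∃ P ∈ R, P.1 = X ∧ ∀ x, Ψ (P.1 x) = P.2 (Ψ x)}
      zero_mem' := ⟨0, R.zero_mem, rfl, fun x => by
        change Ψ ((0 : End C A) x) = (0 : End C A') (Ψ x)
        rw [LinearMap.zero_apply, LinearMap.zero_apply, map_zero]⟩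
      add_mem' := by
        rintro _ _ ⟨P, hP, rfl, h2⟩ ⟨Q, hQ, rfl, h3⟩
        refine ⟨P + Q, R.add_mem hP hQ, rfl, fun x => ?_⟩
        rw [Prod.fst_add, Prod.snd_add, LinearMap.add_apply, LinearMap.add_apply, map_add, h2, h3]
      smul_mem' := by
        rintro a _ ⟨P, hP, rfl, h2⟩
        refine ⟨a • P, R.smul_mem a hP, rfl, fun x => ?_⟩
        rw [Prod.smul_fst, Prod.smul_snd, LinearMap.smul_apply, LinearMap.smul_apply, map_smul,
          h2] }
  have hHm : ∀ X, X ∈ H ↔ ∃ P ∈ R, P.1 = X ∧ ∀ x, Ψ (P.1 x) = P.2 (Ψ x) := fun X => Iff.rfl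
  have hHe : ∀ i, wdg B v (u i) ∈ H := by
    intro i
    refine (hHm _).2 ⟨_, he i, rfl, fun x => ?_⟩
    change Ψ (wdg B v (u i) x) = e i (Ψ x)
    rw [hy1, wdg_apply, wdg_apply, map_sub, map_smul, map_smul, hΨu, hΨv, hBw, hBy, smul_smul,
      mul_comm (B (u i) x)]
  have hHf : ∀ i, wdg B v' (u i) ∈ H := by
    intro i
    refine (hHm _).2 ⟨_, hf i, rfl, fun x => ?_⟩
    change Ψ (wdg B v' (u i) x) = f i (Ψ x)
    rw [hz1, hzc, wdg_smul, LinearMap.smul_apply, wdg_apply, wdg_apply, map_sub, map_smul,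
      map_smul, hΨu, hΨv', hBw', hBy, smul_sub, smul_smul, smul_smul, ← mul_assoc, ← mul_assoc,
      mul_inv_cancel₀ hcne, one_mul, one_mul]
  have hHbr : ∀ X ∈ H, ∀ Y ∈ H, ∀ Z, X * Y = Y * X + Z → Z ∈ H := by
    rintro _ ⟨P, hP, rfl, h2⟩ _ ⟨Q, hQ, rfl, h3⟩ Z hZ
    obtain ⟨W, hW, e1, e2⟩ := hbr P hP Q hQ
    have e3 : W.1 = Z := end_cancel (e1.symm.trans hZ)
    refine (hHm _).2 ⟨W, hW, e3, fun x => ?_⟩
    have e4 : W.1 x = P.1 (Q.1 x) - Q.1 (P.1 x) := by
      have := LinearMap.congr_fun e1 x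
      rw [LinearMap.add_apply, Module.End.mul_apply, Module.End.mul_apply] at this
      rw [this, add_sub_cancel_left]
    have e5 : W.2 (Ψ x) = P.2 (Q.2 (Ψ x)) - Q.2 (P.2 (Ψ x)) := by
      have := LinearMap.congr_fun e2 (Ψ x)
      rw [LinearMap.add_apply, Module.End.mul_apply, Module.End.mul_apply] at this
      rw [this, add_sub_cancel_left]
    rw [e4, e5, map_sub, h2, h3, h3, h2]
  have hHW : ∀ i j, wdg B (u i) (u j) + (-(B (u i) (u j))) • wdg B v' v ∈ H := fun i j =>
    hHbr _ (hHe i) _ (hHf j) _ (br_ef h0 h0' h1 hs (hu i) (hu' i) (hu j) (hu' j))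
  have hHN : wdg B v' v ∈ H := by
    have h2 := hHW ⟨0, hm⟩ ⟨0, hm⟩
    rw [wdg_self, zero_add] at h2
    have h3 := H.smul_mem (-(B (u ⟨0, hm⟩) (u ⟨0, hm⟩)))⁻¹ h2
    rwa [smul_smul, inv_mul_cancel₀ (neg_ne_zero.2 (hui _)), one_smul] at h3
  have hHu : ∀ i j, wdg B (u i) (u j) ∈ H := by
    intro i j
    have h2 := H.sub_mem (hHW i j) (H.smul_mem (-(B (u i) (u j))) hHN)
    rwa [add_sub_cancel_right] at h2
  have hneg : ∀ a b, wdg B a b ∈ H → wdg B b a ∈ H := by
    intro a b h2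
    rw [wdg_swap]
    exact H.neg_mem h2
  -- bilinearity
  have hsumr : ∀ (a : A) (g : Fin m → C), (∀ i, wdg B a (u i) ∈ H) →
      wdg B a (∑ i, g i • u i) ∈ H := by
    intro a g h2
    have h3 : wdg B a (∑ i, g i • u i) = ∑ i, g i • wdg B a (u i) := by
      induction (Finset.univ : Finset (Fin m)) using Finset.induction_on with
      | empty => rw [Finset.sum_empty, Finset.sum_empty, wdg_zero_right]
      | insert i s hi ih => rw [Finset.sum_insert hi, Finset.sum_insert hi, wdg_add, wdg_smul, ih]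
    rw [h3]
    exact H.sum_mem fun i _ => H.smul_mem _ (h2 i)
  have hright : ∀ a, wdg B a v ∈ H → wdg B a v' ∈ H → (∀ i, wdg B a (u i) ∈ H) → ∀ x ∈ E,
      wdg B a x ∈ H := by
    intro a h2 h3 h4 x hx
    rw [hE x hx, wdg_add, wdg_add, wdg_smul, wdg_smul]
    exact H.add_mem (H.add_mem (H.smul_mem _ h2) (H.smul_mem _ h3)) (hsumr a _ h4)
  have hv : ∀ x ∈ E, wdg B v x ∈ H := hright v (by rw [wdg_self]; exact H.zero_mem)
    (hneg _ _ hHN) hHe
  have hv' : ∀ x ∈ E, wdg B v' x ∈ H := hright v' hHN (by rw [wdg_self]; exact H.zero_mem) hHf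
  have huE : ∀ i, ∀ x ∈ E, wdg B (u i) x ∈ H := fun i =>
    hright (u i) (hneg _ _ (hHe i)) (hneg _ _ (hHf i)) (hHu i)
  have hall : ∀ x ∈ E, ∀ y ∈ E, wdg B x y ∈ H := by
    intro x hx y hy
    exact hright x (hneg _ _ (hv x hx)) (hneg _ _ (hv' x hx)) (fun i => hneg _ _ (huE i x hx)) y hy
  refine ⟨Ψ, ?_, fun P hP x => ?_⟩
  · rw [hΨv]
    exact smul_ne_zero (inv_ne_zero hcne) hw0
  · have h2 : P.1 ∈ H := by
      refine (Submodule.span_le.2 ?_) (hspan P hP)
      rintro _ ⟨x, hx, y, hy, rfl⟩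
      exact hall x hx y hy
    obtain ⟨Q, hQ, h3, h4⟩ := (hHm _).1 h2
    have h5 := huniq _ hQ _ hP h3
    rw [← h3, ← h5]
    exact h4 x

end inter

end Pool.Agent.H851.MK
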