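import Pool.Agent.H851.KS.Fro2

/-!
# The additive function of a Frobenius element which is ordinary for two representations
-/

set_option autoImplicit false

namespace Pool.Agent.H851.MK

open Matrix Polynomial Filter Topology NumberField IsDedekindDomain
open Pool.Agent.NH56.HY Pool.Agent.H851.K3 Pool.Agent.H851.KS

section

variable {K : Type} [Field K] [NumberField K] {ℓ : ℕ} [Fact ℓ.Prime] {n n' : Type}
    [Fintype n] [DecidableEq n] [Fintype n'] [DecidableEq n'] {q : Matrix n n ℚ_[ℓ]}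
    {q' : Matrix n' n' ℚ_[ℓ]} {S S' : Finset ℕ} {χ : GK K →* ℚ_[ℓ]}
    {Pol Pol' : HeightOneSpectrum (𝓞 K) → ℤ[X]} {ρ : GK K →* Matrix n n ℚ_[ℓ]}
    {ρ' : GK K →* Matrix n' n' ℚ_[ℓ]}

open Classical in
/-- **Ordinary Frobenius elements** of two representations. -/
theorem fro3 (h : IsK3Type q S χ Pol ρ) (h' : IsK3Type q' S' χ Pol' ρ') {p : ℕ}
    [hpf : Fact p.Prime] (hpS : p ∉ S) (hpS' : p ∉ S')
    {v : HeightOneSpectrum (𝓞 K)} (hv : Ideal.absNorm v.asIdeal = p) {σ : GK K}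
    (hσ : IsFrobenius v σ) (hord : ¬ (p : ℤ) ∣ (Pol v).coeff (Fintype.card n - 1))
    (hord' : ¬ (p : ℤ) ∣ (Pol' v).coeff (Fintype.card n' - 1))
    (hnear : σ⁻¹ ∈ Near χ ρ) (hnear' : σ⁻¹ ∈ Near χ ρ')
    (β : PadicAlgCl ℓ) (hβ : (R χ ρ σ⁻¹).charpoly.IsRoot β) (hβ1 : β ≠ 1) :
    ∃ (A : PadicAlgCl ℓ → Prop) (φ : PadicAlgCl ℓ → ℝ), AddOn A φ ∧
      (∀ γ, (R χ ρ σ⁻¹).charpoly.IsRoot γ → A γ) ∧ φ β = 1 ∧
      (∀ γ, (R χ ρ σ⁻¹).charpoly.IsRoot γ → γ ≠ β → γ ≠ β⁻¹ → φ γ = 0) ∧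
      (∀ γ, (R χ ρ' σ⁻¹).charpoly.IsRoot γ → A γ) ∧ ∃ β', (R χ ρ' σ⁻¹).charpoly.IsRoot β' ∧
        β' ≠ 1 ∧ φ β' = 1 ∧
        ∀ γ, (R χ ρ' σ⁻¹).charpoly.IsRoot γ → γ ≠ β' → γ ≠ β'⁻¹ → φ γ = 0 := by
  have hc := h.card
  have hp1 : (1 : ℝ) < p := by exact_mod_cast hpf.out.one_lt
  obtain ⟨s⟩ := Pool.Agent.NH66.HY.Nwt.exists_hom ℚ (PadicAlgCl ℓ)
  obtain ⟨c⟩ := Pool.Agent.NH66.HY.Nwt.exists_hom ℚ ℂ
  obtain ⟨hmon, hweil⟩ := h.weil p hpS v hv
  have hcp := (h.frobenius p hpS v hv σ hσ).2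
  have hdeg : (Pol v).natDegree = Fintype.card n := by
    rw [← hmon.natDegree_map (Int.castRingHom ℚ_[ℓ]), ← hcp, Matrix.charpoly_natDegree_eq_dim]
  have hnw := newton_eq (by omega) hmon hdeg hweil (h.mazur p hpS v hv) hord
  have hroots := roots_eq h hpS hv hσ s
  have hne0 : ∀ z : ℂ, aeval z (Pol v) = 0 → z ≠ 0 := by
    intro z hz h
    have := hweil z hz
    rw [h, norm_zero] at this
    have h5 : (0 : ℝ) < (p : ℝ) ^ 2 := by positivity
    rw [← this] at h5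
    norm_num at h5
  have hinv := Pool.Agent.NH66.HY.Nwt.roots_inv t_ARI hweil c hne0
  set R0 := ((Pol v).map (Int.castRingHom (AlgebraicClosure ℚ))).roots with hR0
  have hmM : (R χ ρ σ⁻¹).charpoly ≠ 0 := (Matrix.charpoly_monic _).ne_zero
  have hroot : ∀ γ, (R χ ρ σ⁻¹).charpoly.IsRoot γ ↔ ∃ a ∈ R0, s (a / p) = γ := by
    intro γ
    rw [← mem_roots hmM, hroots, Multiset.mem_map]
  have hp0 : (p : AlgebraicClosure ℚ) ≠ 0 := Nat.cast_ne_zero.2 hpf.out.ne_zero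
  have hR0a : ∀ a ∈ R0, aeval a (Pol v) = 0 := by
    intro a ha
    have h2 := isRoot_of_mem_roots ha
    rw [IsRoot.def, eval_map] at h2
    rw [aeval_def, Subsingleton.elim (algebraMap ℤ (AlgebraicClosure ℚ)) (Int.castRingHom _)]
    exact h2
  have hari := fun a ha => t_ARI.2 (Pol v) p 2 hmon hweil a (hR0a a ha)
  obtain ⟨a₀, ha₀, hβ'⟩ := (hroot β).1 hβ
  -- a place where the slope is not one
  obtain ⟨π, hπ⟩ : ∃ π : AlgebraicClosure ℚ →+* PadicAlgCl p, -Real.logb p ‖π a₀‖ ≠ 1 := by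
    by_contra hcon
    push Not at hcon
    obtain ⟨b1, b2, b3⟩ := hari a₀ ha₀
    have hk : ∃ k : ℕ, 0 < k ∧ (a₀ / p) ^ k = 1 := by
      refine t_KRO (a₀ / p) (fun τ => ?_) (fun p' hp' π => ?_)
      · have h1 : ‖τ (a₀ / p)‖ ^ 2 = 1 := by
          rw [map_div₀, norm_div, div_pow, b2 τ, map_natCast, Complex.norm_natCast]
          exact div_self (by positivity)
        exact (pow_eq_one_iff_of_nonneg (norm_nonneg _) two_ne_zero).1 h1
      · by_cases hpe : p' = p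
        · subst hpe
          have h1 := hcon π
          have h2 : ‖π a₀‖ ≠ 0 := norm_ne_zero_iff.2 ((map_ne_zero π).2 b1)
          have h3 : (0 : ℝ) < ‖π a₀‖ := lt_of_le_of_ne (norm_nonneg _) (Ne.symm h2)
          have h4 : ‖π a₀‖ = (p' : ℝ)⁻¹ := by
            have h5 : Real.logb p' ‖π a₀‖ = -1 := by linarith
            have h6 := Real.rpow_logb (by linarith) hp1.ne' h3
            rw [h5, Real.rpow_neg_one] at h6
            exact h6.symm
          rw [map_div₀, norm_div, h4, map_natCast, Pool.Agent.NH66.HY.Nwt.norm_nat]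
          exact div_self (inv_ne_zero (by positivity))
        · have h1 : (p.Coprime p') := (Nat.coprime_primes hpf.out hp'.out).2 (Ne.symm hpe)
          rw [map_div₀, norm_div, b3 p' π hpe, map_natCast, Ari.nat_eq p' p h1, div_one]
    obtain ⟨k, hk0, hk⟩ := hk
    apply hβ1
    refine (t_NR1 ℓ).1 β (R_near χ ρ t_NR1 hnear β hβ) k hk0 ?_
    rw [← hβ', ← map_pow, hk, map_one]
  -- the slopes
  set f : AlgebraicClosure ℚ → ℝ := fun a => -Real.logb p ‖π a‖ with hf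
  have hslopes : R0.map f = 0 ::ₘ 2 ::ₘ Multiset.replicate (Fintype.card n - 2) 1 := by
    rw [← hnw]
    unfold newton
    rw [t_ARI.1 (Pol v) (PadicAlgCl p) π, Multiset.map_map]
    rfl
  obtain ⟨s1, s2, s3⟩ := inj_of_slopes hslopes
  have hnp : ‖(p : PadicAlgCl p)‖ = (p : ℝ)⁻¹ := Pool.Agent.NH66.HY.Nwt.norm_nat p
  -- the inverse
  have hinv0 : (p : AlgebraicClosure ℚ) ^ 2 / a₀ ∈ R0 := by
    rw [← hinv]
    exact Multiset.mem_map_of_mem (fun a => (p : AlgebraicClosure ℚ) ^ 2 / a) ha₀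
  have ha₀0 : a₀ ≠ 0 := (hari a₀ ha₀).1
  have hfinv : f ((p : AlgebraicClosure ℚ) ^ 2 / a₀) = 2 - f a₀ := by
    simp only [hf]
    have h2 : ‖π a₀‖ ≠ 0 := norm_ne_zero_iff.2 ((map_ne_zero π).2 ha₀0)
    rw [map_div₀, norm_div, map_pow, map_natCast, norm_pow, hnp,
      Real.logb_div (by positivity) h2, Real.logb_pow,
      Real.logb_inv, Real.logb_self_eq_one hp1]
    push_cast
    ring
  have hβinv : s ((p : AlgebraicClosure ℚ) ^ 2 / a₀ / p) = β⁻¹ := by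
    rw [← hβ', ← map_inv₀]
    congr 1
    field_simp
  let A : PadicAlgCl ℓ → Prop := fun x => ∃ t, t ≠ 0 ∧ s t = x
  let ψ : PadicAlgCl ℓ → ℝ := fun x => if hx : ∃ t, s t = x then Real.logb p ‖π hx.choose‖ else 0
  have hψ : ∀ t, ψ (s t) = Real.logb p ‖π t‖ := by
    intro t
    have hx : ∃ t', s t' = s t := ⟨t, rfl⟩
    have e : ψ (s t) = Real.logb p ‖π hx.choose‖ := dif_pos hx
    rw [e, s.injective hx.choose_spec]
  have hAψ : ∀ c : ℝ, AddOn A fun x => c * ψ x := by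
    intro c
    refine ⟨⟨1, one_ne_zero, map_one s⟩, ?_, ?_, ?_, ?_⟩
    · rintro _ _ ⟨t, ht, rfl⟩ ⟨u, hu, rfl⟩
      exact ⟨t * u, mul_ne_zero ht hu, map_mul s t u⟩
    · rintro _ ⟨t, ht, rfl⟩
      exact ⟨t⁻¹, inv_ne_zero ht, map_inv₀ s t⟩
    · rintro _ ⟨t, ht, rfl⟩
      exact (map_ne_zero s).2 ht
    · rintro _ _ ⟨t, ht, rfl⟩ ⟨u, hu, rfl⟩
      rw [← map_mul, hψ, hψ, hψ, map_mul, norm_mul,
        Real.logb_mul (norm_ne_zero_iff.2 ((map_ne_zero π).2 ht))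
          (norm_ne_zero_iff.2 ((map_ne_zero π).2 hu))]
      ring
  have hψr : ∀ a ∈ R0, ψ (s (a / p)) = 1 - f a := by
    intro a ha
    have h2 : ‖π a‖ ≠ 0 := norm_ne_zero_iff.2 ((map_ne_zero π).2 (hari a ha).1)
    simp only [hf]
    rw [hψ, map_div₀, norm_div, map_natCast, hnp, Real.logb_div h2 (by positivity), Real.logb_inv,
      Real.logb_self_eq_one hp1]
    ring
  -- the second representation
  have hc' := h'.card
  obtain ⟨hmon', hweil'⟩ := h'.weil p hpS' v hv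
  have hcp' := (h'.frobenius p hpS' v hv σ hσ).2
  have hdeg' : (Pol' v).natDegree = Fintype.card n' := by
    rw [← hmon'.natDegree_map (Int.castRingHom ℚ_[ℓ]), ← hcp', Matrix.charpoly_natDegree_eq_dim]
  have hnw' := newton_eq (by omega) hmon' hdeg' hweil' (h'.mazur p hpS' v hv) hord'
  have hroots' := roots_eq h' hpS' hv hσ s
  set R0' := ((Pol' v).map (Int.castRingHom (AlgebraicClosure ℚ))).roots with hR0'
  have hmM' : (R χ ρ' σ⁻¹).charpoly ≠ 0 := (Matrix.charpoly_monic _).ne_zero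
  have hroot' : ∀ γ, (R χ ρ' σ⁻¹).charpoly.IsRoot γ ↔ ∃ a ∈ R0', s (a / p) = γ := by
    intro γ
    rw [← mem_roots hmM', hroots', Multiset.mem_map]
  have hR0a' : ∀ a ∈ R0', aeval a (Pol' v) = 0 := by
    intro a ha
    have h2 := isRoot_of_mem_roots ha
    rw [IsRoot.def, eval_map] at h2
    rw [aeval_def, Subsingleton.elim (algebraMap ℤ (AlgebraicClosure ℚ)) (Int.castRingHom _)]
    exact h2
  have hari' := fun a ha => t_ARI.2 (Pol' v) p 2 hmon' hweil' a (hR0a' a ha)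
  have hslopes' : R0'.map f = 0 ::ₘ 2 ::ₘ Multiset.replicate (Fintype.card n' - 2) 1 := by
    rw [← hnw']
    unfold newton
    rw [t_ARI.1 (Pol' v) (PadicAlgCl p) π, Multiset.map_map]
    rfl
  obtain ⟨s1', s2', s3'⟩ := inj_of_slopes hslopes'
  have hψr' : ∀ a ∈ R0', ψ (s (a / p)) = 1 - f a := by
    intro a ha
    have h2 : ‖π a‖ ≠ 0 := norm_ne_zero_iff.2 ((map_ne_zero π).2 (hari' a ha).1)
    simp only [hf]
    rw [hψ, map_div₀, norm_div, map_natCast, hnp, Real.logb_div h2 (by positivity), Real.logb_inv,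
      Real.logb_self_eq_one hp1]
    ring
  have hne0' : ∀ z : ℂ, aeval z (Pol' v) = 0 → z ≠ 0 := by
    intro z hz h
    have := hweil' z hz
    rw [h, norm_zero] at this
    have h5 : (0 : ℝ) < (p : ℝ) ^ 2 := by positivity
    rw [← this] at h5
    norm_num at h5
  have hinv' := Pool.Agent.NH66.HY.Nwt.roots_inv t_ARI hweil' c hne0'
  obtain ⟨a₁, ha₁, hfa₁⟩ : ∃ a ∈ R0', f a = f a₀ := by
    have h3 : f a₀ ∈ R0'.map f := by
      rw [hslopes']
      rcases s1 a₀ ha₀ with e2 | e2 | e2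
      · rw [e2]; simp
      · rw [e2]; simp
      · exact absurd e2 hπ
    exact Multiset.mem_map.1 h3
  have hinv0' : (p : AlgebraicClosure ℚ) ^ 2 / a₁ ∈ R0' := by
    rw [hR0', ← hinv']
    exact Multiset.mem_map_of_mem (fun a => (p : AlgebraicClosure ℚ) ^ 2 / a) ha₁
  have ha₁0 : a₁ ≠ 0 := (hari' a₁ ha₁).1
  have hfinv' : f ((p : AlgebraicClosure ℚ) ^ 2 / a₁) = 2 - f a₁ := by
    simp only [hf]
    have h2 : ‖π a₁‖ ≠ 0 := norm_ne_zero_iff.2 ((map_ne_zero π).2 ha₁0)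
    rw [map_div₀, norm_div, map_pow, map_natCast, norm_pow, hnp,
      Real.logb_div (by positivity) h2, Real.logb_pow,
      Real.logb_inv, Real.logb_self_eq_one hp1]
    push_cast
    ring
  have hβinv' : s ((p : AlgebraicClosure ℚ) ^ 2 / a₁ / p) = (s (a₁ / p))⁻¹ := by
    rw [← map_inv₀]
    congr 1
    field_simp
  have hφ1' : (1 - f a₀)⁻¹ * ψ (s (a₁ / p)) = 1 := by
    rw [hψr' a₁ ha₁, hfa₁]
    exact inv_mul_cancel₀ (sub_ne_zero.2 (Ne.symm hπ))
  refine ⟨A, fun x => (1 - f a₀)⁻¹ * ψ x, hAψ _, ?_, ?_, ?_, ?_, s (a₁ / p), ?_, ?_, hφ1', ?_⟩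
  · intro γ hγ
    obtain ⟨a, ha, rfl⟩ := (hroot γ).1 hγ
    exact ⟨a / p, div_ne_zero (hari a ha).1 hp0, rfl⟩
  · simp only
    rw [← hβ', hψr a₀ ha₀]
    exact inv_mul_cancel₀ (sub_ne_zero.2 (Ne.symm hπ))
  · intro γ hγ h1 h2
    obtain ⟨a, ha, rfl⟩ := (hroot γ).1 hγ
    simp only
    rw [hψr a ha]
    by_cases hfa : f a = 1
    · rw [hfa, sub_self, mul_zero]
    · exfalso
      have h3 : f a = f a₀ ∨ f a = 2 - f a₀ := by
        rcases s1 a ha with e1 | e1 | e1 <;> rcases s1 a₀ ha₀ with e2 | e2 | e2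
        · left; rw [e1, e2]
        · right; rw [e1, e2]; norm_num
        · exact absurd e2 hπ
        · right; rw [e1, e2]; norm_num
        · left; rw [e1, e2]
        · exact absurd e2 hπ
        · exact absurd e1 hfa
        · exact absurd e1 hfa
        · exact absurd e1 hfa
      rcases h3 with h3 | h3
      · have h4 := s3 a ha a₀ ha₀ hfa h3
        exact h1 (by rw [h4, hβ'])
      · have h4 := s3 a ha _ hinv0 hfa (by rw [h3, hfinv])
        exact h2 (by rw [h4, hβinv])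
  · intro γ hγ
    obtain ⟨a, ha, rfl⟩ := (hroot' γ).1 hγ
    exact ⟨a / p, div_ne_zero (hari' a ha).1 hp0, rfl⟩
  · exact (hroot' _).2 ⟨a₁, ha₁, rfl⟩
  · intro h1
    rw [h1] at hφ1'
    have h2 : (1 - f a₀)⁻¹ * ψ 1 = 0 := (hAψ (1 - f a₀)⁻¹).map_one
    rw [h2] at hφ1'
    exact zero_ne_one hφ1'
  · intro γ hγ h1 h2
    obtain ⟨a, ha, rfl⟩ := (hroot' γ).1 hγ
    simp only
    rw [hψr' a ha]
    by_cases hfa : f a = 1
    · rw [hfa, sub_self, mul_zero]
    · exfalso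
      have h3 : f a = f a₁ ∨ f a = 2 - f a₁ := by
        rw [hfa₁]
        rcases s1' a ha with e1 | e1 | e1 <;> rcases s1 a₀ ha₀ with e2 | e2 | e2
        · left; rw [e1, e2]
        · right; rw [e1, e2]; norm_num
        · exact absurd e2 hπ
        · right; rw [e1, e2]; norm_num
        · left; rw [e1, e2]
        · exact absurd e2 hπ
        · exact absurd e1 hfa
        · exact absurd e1 hfa
        · exact absurd e1 hfa
      rcases h3 with h3 | h3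
      · have h4 := s3' a ha a₁ ha₁ hfa h3
        exact h1 (by rw [h4])
      · have h4 := s3' a ha _ hinv0' hfa (by rw [h3, hfinv'])
        exact h2 (by rw [h4, hβinv'])

end

end Pool.Agent.H851.MK
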