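import Mathlib
import Pool.Agent.H851.KS.Place

/-!
# Places which are ordinary for two representations
-/

set_option autoImplicit false
set_option linter.unusedSectionVars false
set_option linter.unusedVariables false

namespace Pool.Agent.H851.MK

open Module TensorProduct Pool.Agent.Y114.RM Pool.Agent.TH118.SG Polynomial Matrix Topology
open NumberField IsDedekindDomain
open Pool.Agent.H851.K3 Pool.Agent.H851.KT Pool.Agent.H851.KS
open Pool.Agent.NH56.HY (GK IsFrobenius tw tw_apply R chi_ne Near NonUnip t_ORD t_NR1 t_DG1 small_pos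
  ord_key)
open Pool.Agent.H204R3.GP (FiniteIndexSemisimple)

variable {K : Type} [Field K] [NumberField K] {ℓ : ℕ} [hℓ : Fact ℓ.Prime] {n n' : Type}
    [Fintype n] [DecidableEq n] [Fintype n'] [DecidableEq n'] {q : Matrix n n ℚ_[ℓ]}
    {q' : Matrix n' n' ℚ_[ℓ]} {S S' : Finset ℕ} {χ : GK K →* ℚ_[ℓ]}
    {Pol Pol' : HeightOneSpectrum (𝓞 K) → ℤ[X]} {ρ : GK K →* Matrix n n ℚ_[ℓ]}
    {ρ' : GK K →* Matrix n' n' ℚ_[ℓ]}

/-- **Places which are ordinary for both representations.** -/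
theorem exists_place2 (h : IsK3Type q S χ Pol ρ) (hss : Semisimple ρ) (hT : tate χ ρ ≠ ⊤)
    (h' : IsK3Type q' S' χ Pol' ρ') (hss' : Semisimple ρ') (hT' : tate χ ρ' ≠ ⊤) :
    ∃ (p : ℕ) (_ : Fact p.Prime), p ∉ S ∧ p ∉ S' ∧ ∃ v : HeightOneSpectrum (𝓞 K),
      Ideal.absNorm v.asIdeal = p ∧ ∃ σ : GK K, IsFrobenius v σ ∧ σ⁻¹ ∈ Near χ ρ ∧
        σ⁻¹ ∈ Near χ ρ' ∧ ¬ (p : ℤ) ∣ (Pol v).coeff (Fintype.card n - 1) ∧
        ¬ (p : ℤ) ∣ (Pol' v).coeff (Fintype.card n' - 1) ∧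
        ∃ β, (R χ ρ σ⁻¹).charpoly.IsRoot β ∧ β ≠ 1 := by
  classical
  have hc := h.card
  have hc' := h'.card
  have hne : Nonempty n := Fintype.card_pos_iff.1 (by omega)
  have hNU := nonUnip hss hT
  have hNU' := nonUnip hss' hT'
  obtain ⟨U₁, hU₁, hUN⟩ := near_open h.continuous.1 h.continuous.2
  obtain ⟨U₂, hU₂, hUN'⟩ := near_open h'.continuous.1 h'.continuous.2
  obtain ⟨g₀, hg₀, hnil⟩ := hNU (U₁ ⊓ U₂) (hU₁.inter hU₂)
  have hg : (tw χ ρ g₀ - 1) ^ Fintype.card n ≠ 0 := by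
    intro h0
    refine hnil ⟨Fintype.card n, ?_⟩
    have e1 : ρ g₀ - χ g₀ • (1 : Matrix n n ℚ_[ℓ]) = χ g₀ • (tw χ ρ g₀ - 1) := by
      rw [tw_apply, smul_sub, smul_smul, mul_inv_cancel₀ (chi_ne χ g₀), one_smul]
    rw [e1, _root_.smul_pow, h0, smul_zero]
  have hVo : IsOpen (((U₁ ⊓ U₂ : Subgroup (GK K)) : Set (GK K)) ∩
      {g | (tw χ ρ g - 1) ^ Fintype.card n ≠ 0}) := by
    refine (hU₁.inter hU₂).inter ?_
    have h2 : Continuous fun g => (tw χ ρ g - 1) ^ Fintype.card n :=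
      ((tw_continuous h.continuous.1 h.continuous.2).sub continuous_const).pow _
    exact (isClosed_singleton (x := (0 : Matrix n n ℚ_[ℓ]))).isOpen_compl.preimage h2
  obtain ⟨p₁, hp₁, hpS₁, v₁, hv₁, ⟨σ₁, hσ₁, hσV₁⟩, hord₁⟩ := t_ORD t_NR1 t_DG1 K ℓ n S χ ρ Pol
    h.continuous.2 h.continuous.1 (by omega)
    (fun p hp hpS v hv => by
      have : Fact p.Prime := ⟨hp⟩
      exact ⟨(h.weil p hpS v hv).1, (h.weil p hpS v hv).2, h.frobenius p hpS v hv⟩)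
    hNU _ hVo ⟨g₀, hg₀, hg⟩ (fun g hg => hUN hg.1.1)
  -- the closed sets
  let A : ℤ → Set (GK K) := fun k => {g | (ρ g).trace = k * χ g}
  have hA : ∀ k, IsClosed (A k) := fun k =>
    isClosed_eq (Continuous.matrix_trace h.continuous.1) (continuous_const.mul h.continuous.2)
  have hop : IsOpen ((((U₁ ⊓ U₂ : Subgroup (GK K)) : Set (GK K)) ∩
      {g | (tw χ ρ g - 1) ^ Fintype.card n ≠ 0}) \
      ⋃ k ∈ Finset.Icc (-(Fintype.card n : ℤ)) (Fintype.card n), A k) :=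
    hVo.sdiff (isClosed_biUnion_finset fun k _ => hA k)
  have hmem : σ₁⁻¹ ∉ ⋃ k ∈ Finset.Icc (-(Fintype.card n : ℤ)) (Fintype.card n), A k := by
    intro hmem
    rw [Set.mem_iUnion₂] at hmem
    obtain ⟨k, hk, hxk⟩ := hmem
    have : Fact p₁.Prime := ⟨hp₁⟩
    obtain ⟨hχσ, hcp⟩ := h.frobenius p₁ hpS₁ v₁ hv₁ σ₁ hσ₁
    have h1 : (ρ σ₁⁻¹).trace = k * χ σ₁⁻¹ := hxk
    rw [Matrix.trace_eq_neg_charpoly_coeff, hcp, coeff_map, hχσ] at h1
    apply hord₁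
    refine ⟨-k, ?_⟩
    have h2 : (((Pol v₁).coeff (Fintype.card n - 1) : ℤ) : ℚ_[ℓ]) =
        (((p₁ : ℤ) * -k : ℤ) : ℚ_[ℓ]) := by
      push_cast
      rw [eq_intCast] at h1
      linear_combination -h1
    exact_mod_cast h2
  obtain ⟨p, hp, hpS, v, hv, ⟨σ, hσ, hσV⟩, hord'⟩ := t_ORD t_NR1 t_DG1 K ℓ n' (S ∪ S') χ ρ' Pol'
    h'.continuous.2 h'.continuous.1 (by omega)
    (fun p hp hpS v hv => by
      have : Fact p.Prime := ⟨hp⟩
      have hpS' : p ∉ S' := fun h' => hpS (Finset.mem_union_right _ h')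
      exact ⟨(h'.weil p hpS' v hv).1, (h'.weil p hpS' v hv).2, h'.frobenius p hpS' v hv⟩)
    hNU' _ hop ⟨_, hσV₁, hmem⟩ (fun g hg => hUN' hg.1.1.2)
  have hpf : Fact p.Prime := ⟨hp⟩
  have hpS1 : p ∉ S := fun h' => hpS (Finset.mem_union_left _ h')
  have hpS2 : p ∉ S' := fun h' => hpS (Finset.mem_union_right _ h')
  refine ⟨p, hpf, hpS1, hpS2, v, hv, σ, hσ, hUN hσV.1.1.1, hUN' hσV.1.1.2, ?_, hord', ?_⟩
  · intro hdiv
    obtain ⟨hm, hw⟩ := h.weil p hpS1 v hv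
    obtain ⟨hχσ, hcp⟩ := h.frobenius p hpS1 v hv σ hσ
    have hd : (Pol v).natDegree = Fintype.card n := by
      rw [← hm.natDegree_map (Int.castRingHom ℚ_[ℓ]), ← hcp, Matrix.charpoly_natDegree_eq_dim]
    obtain ⟨k, hk, hk'⟩ := ord_key hp (by omega) hm hd hw hdiv
    apply hσV.2
    rw [Set.mem_iUnion₂]
    refine ⟨k, hk, ?_⟩
    change (ρ σ⁻¹).trace = k * χ σ⁻¹
    rw [Matrix.trace_eq_neg_charpoly_coeff, hcp, coeff_map, hk', hχσ]
    simp
  · by_contra hcon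
    push Not at hcon
    apply hσV.1.2
    have h1 : (R χ ρ σ⁻¹).charpoly = (X - C 1) ^ Fintype.card n := by
      rw [(IsAlgClosed.splits (R χ ρ σ⁻¹).charpoly).eq_prod_roots_of_monic
        (Matrix.charpoly_monic _)]
      have h2 : (R χ ρ σ⁻¹).charpoly.roots = Multiset.replicate (Fintype.card n) 1 := by
        rw [Multiset.eq_replicate]
        refine ⟨?_, fun b hb => hcon b (isRoot_of_mem_roots hb)⟩
        rw [← (IsAlgClosed.splits _).natDegree_eq_card_roots, Matrix.charpoly_natDegree_eq_dim]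
      rw [h2, Multiset.map_replicate, Multiset.prod_replicate]
    have h2 := Matrix.aeval_self_charpoly (R χ ρ σ⁻¹)
    rw [h1, map_pow, map_sub, aeval_X, aeval_C, map_one, K3.R_eq] at h2
    have h3 : ((tw χ ρ σ⁻¹ - 1) ^ Fintype.card n).map (algebraMap ℚ_[ℓ] (PadicAlgCl ℓ)) = 0 := by
      have h4 : ((tw χ ρ σ⁻¹ - 1) ^ Fintype.card n).map (algebraMap ℚ_[ℓ] (PadicAlgCl ℓ)) =
          ((algebraMap ℚ_[ℓ] (PadicAlgCl ℓ)).mapMatrix (tw χ ρ σ⁻¹ - 1)) ^ Fintype.card n := by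
        rw [← map_pow]
        rfl
      rw [h4, map_sub, map_one]
      exact h2
    refine Matrix.map_injective (algebraMap ℚ_[ℓ] (PadicAlgCl ℓ)).injective ?_
    refine h3.trans ?_
    ext i j
    simp

end Pool.Agent.H851.MK
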