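import Mathlib
import Pool.Agent.H851.MK.Fro3
import Pool.Agent.H851.MK.Place2
import Pool.Agent.H851.KS.Fin

/-!
# The operators of a Frobenius element which is ordinary for two representations
-/

set_option autoImplicit false
set_option linter.unusedSectionVars false
set_option linter.unusedVariables false

namespace Pool.Agent.H851.MK

open Module TensorProduct Pool.Agent.Y114.RM Pool.Agent.TH118.SG Polynomial Matrix Topology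
open NumberField IsDedekindDomain
open Pool.Agent.H851.K3 Pool.Agent.H851.KT Pool.Agent.H851.KS
open Pool.Agent.NH56.HY (GK IsFrobenius tw tw_apply R chi_ne Near NonUnip)
open Pool.Agent.H204R3.GP (FiniteIndexSemisimple)

variable {K : Type} [Field K] [NumberField K] {ℓ : ℕ} [hℓ : Fact ℓ.Prime] {n n' : Type}
    [Fintype n] [DecidableEq n] [Fintype n'] [DecidableEq n'] {q : Matrix n n ℚ_[ℓ]}
    {q' : Matrix n' n' ℚ_[ℓ]} {S S' : Finset ℕ} {χ : GK K →* ℚ_[ℓ]}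
    {Pol Pol' : HeightOneSpectrum (𝓞 K) → ℤ[X]} {ρ : GK K →* Matrix n n ℚ_[ℓ]}
    {ρ' : GK K →* Matrix n' n' ℚ_[ℓ]}

/-- the operator of an additive function -/
theorem torus_of (h : IsK3Type q S χ Pol ρ) {g : GK K} {γ : PadicAlgCl ℓ}
    (hroot : (R χ ρ g).charpoly.IsRoot γ) (hγ : γ ≠ 1)
    (hsep : ∀ β, (R χ ρ g).charpoly.IsRoot β → β ≠ 1 → Separated (R χ ρ g) β)
    {A : PadicAlgCl ℓ → Prop} {φ : PadicAlgCl ℓ → ℝ} (hA : AddOn A φ)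
    (hAr : ∀ β, (R χ ρ g).charpoly.IsRoot β → A β) (hφ1 : φ γ = 1)
    (hφ0 : ∀ β, (R χ ρ g).charpoly.IsRoot β → β ≠ γ → β ≠ γ⁻¹ → φ β = 0)
    {θ : Additive (PadicAlgCl ℓ)ˣ →+ PadicAlgCl ℓ}
    (hθ : ∀ x, A x → ∀ c : ℚ, φ x = c → ext0 θ x = c) :
    ∃ v v' : PadicAlgCl ℓ ⊗[ℚ_[ℓ]] (n → ℚ_[ℓ]),
        bcB (PadicAlgCl ℓ) (form q) v v = 0 ∧ bcB (PadicAlgCl ℓ) (form q) v' v' = 0 ∧
        bcB (PadicAlgCl ℓ) (form q) v v' = 1 ∧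
        ∀ Y : End (PadicAlgCl ℓ) (PadicAlgCl ℓ ⊗[ℚ_[ℓ]] (n → ℚ_[ℓ])),
          IsOp θ ((rep χ ρ g).baseChange (PadicAlgCl ℓ)) Y →
            Y = wdg (bcB (PadicAlgCl ℓ) (form q)) v' v := by
  have hs := form_symm h.symm
  have hb := form_nondeg h.symm h.nondeg
  set T : End (PadicAlgCl ℓ) (PadicAlgCl ℓ ⊗[ℚ_[ℓ]] (n → ℚ_[ℓ])) :=
    (rep χ ρ g).baseChange (PadicAlgCl ℓ) with hTdef
  have hch : T.charpoly = (R χ ρ g).charpoly := charpoly_rep χ ρ g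
  have hbot : ∀ δ, ¬ (R χ ρ g).charpoly.IsRoot δ → ∀ y ∈ T.maxGenEigenspace δ, y = 0 := by
    intro δ hδ y hy
    have h1 := LinearMap.finrank_maxGenEigenspace_eq T δ
    rw [hch, rootMultiplicity_eq_zero hδ] at h1
    rw [Submodule.finrank_eq_zero.1 h1] at hy
    exact (Submodule.mem_bot _).1 hy
  have hline : ∀ δ, (R χ ρ g).charpoly.rootMultiplicity δ = 1 →
      ∃ v ∈ T.maxGenEigenspace δ, v ≠ 0 ∧
        ∀ y ∈ T.maxGenEigenspace δ, ∃ c : PadicAlgCl ℓ, y = c • v := by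
    intro δ hδ
    have h1 := LinearMap.finrank_maxGenEigenspace_eq T δ
    rw [hch, hδ] at h1
    obtain ⟨v, hv, hv'⟩ := finrank_eq_one_iff'.1 h1
    refine ⟨v.1, v.2, fun h0 => hv (Subtype.ext h0), fun y hy => ?_⟩
    obtain ⟨c, hc⟩ := hv' ⟨y, hy⟩
    exact ⟨c, (congrArg Subtype.val hc).symm⟩
  have hS := hsep γ hroot hγ
  have hγi : γ⁻¹ ≠ 1 := by
    intro h'
    apply hγ
    rw [← inv_inv γ, h', inv_one]
  have hS' := hsep γ⁻¹ hS.inv hγi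
  obtain ⟨w, hvm, hv0, hv1⟩ := hline γ hS.simple
  obtain ⟨w', hvm', -, hv1'⟩ := hline γ⁻¹ hS'.simple
  have t1 : ext0 θ γ = 1 := by
    have := hθ γ (hAr γ hroot) 1 (by rw [hφ1, Rat.cast_one])
    rwa [Rat.cast_one] at this
  have t2 : ext0 θ γ⁻¹ = -1 := by
    have := hθ γ⁻¹ (hAr _ hS.inv) (-1) (by
      rw [hA.map_inv γ (hAr γ hroot), hφ1]
      norm_num)
    rw [this]
    norm_num
  -- the operator
  obtain ⟨L, hLT, hLie, -, -⟩ := Pool.Agent.Y41.RM.lieL' ℚ_[ℓ] (n → ℚ_[ℓ]) (GK K) (rep χ ρ)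
  have hskew : ∀ X ∈ L, Skew (form q) X := fun X hX => skew_of_tate h ((hLT X).1 hX).2
  obtain ⟨Y, hY⟩ := exists_op T (fun z => ext0 θ z)
  have hYL : Y ∈ bcS (PadicAlgCl ℓ) L :=
    Pool.Agent.R913.Adj.op_mem (ρ := rep χ ρ) (PadicAlgCl ℓ) hLT g θ Y hY
  have hYs : Skew (bcB (PadicAlgCl ℓ) (form q)) Y := bcS_skew hskew Y hYL
  obtain ⟨a, a1, a2, a3, a4⟩ := op_wdg (B := bcB (PadicAlgCl ℓ) (form q)) (T := T) (Y := Y)
    (β := γ) (β' := γ⁻¹) (v := w) (v' := w') (bcB_symm hs) (bcB_nondeg hb)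
    (Module.End.iSup_maxGenEigenspace_eq_top T) hYs hv0 hv1 hv1'
    (by rw [hY γ w hvm, t1, one_smul]) (by rw [hY γ⁻¹ w' hvm', t2, neg_one_smul]) (by
      intro δ h1 h2 y hy
      by_cases hδ : (R χ ρ g).charpoly.IsRoot δ
      · have := hθ δ (hAr δ hδ) 0 (by rw [hφ0 δ hδ h1 h2, Rat.cast_zero])
        rw [hY δ y hy, this, Rat.cast_zero, zero_smul]
      · rw [hbot δ hδ y hy, map_zero])
  refine ⟨w, a • w', a1, a2, a3, fun Y' hY' => ?_⟩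
  rw [← a4]
  have htop : (⊤ : Submodule (PadicAlgCl ℓ) (PadicAlgCl ℓ ⊗[ℚ_[ℓ]] (n → ℚ_[ℓ]))) ≤
      LinearMap.eqLocus Y' Y := by
    rw [← Module.End.iSup_maxGenEigenspace_eq_top T]
    refine iSup_le fun β => fun x hx => ?_
    rw [LinearMap.mem_eqLocus, hY' β x hx, hY β x hx]
  exact LinearMap.ext fun x => htop trivial

/-- **The operators of a Frobenius element which is ordinary for both representations.** -/
theorem exists_torus2 (h : IsK3Type q S χ Pol ρ) (hss : Semisimple ρ) (hT : tate χ ρ ≠ ⊤)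
    (h' : IsK3Type q' S' χ Pol' ρ') (hss' : Semisimple ρ') (hT' : tate χ ρ' ≠ ⊤) :
    ∃ (g : GK K) (θ : Additive (PadicAlgCl ℓ)ˣ →+ PadicAlgCl ℓ)
      (v v' : PadicAlgCl ℓ ⊗[ℚ_[ℓ]] (n → ℚ_[ℓ])) (w w' : PadicAlgCl ℓ ⊗[ℚ_[ℓ]] (n' → ℚ_[ℓ])),
        bcB (PadicAlgCl ℓ) (form q) v v = 0 ∧ bcB (PadicAlgCl ℓ) (form q) v' v' = 0 ∧
        bcB (PadicAlgCl ℓ) (form q) v v' = 1 ∧ bcB (PadicAlgCl ℓ) (form q') w w = 0 ∧
        bcB (PadicAlgCl ℓ) (form q') w' w' = 0 ∧ bcB (PadicAlgCl ℓ) (form q') w w' = 1 ∧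
        (∀ Y : End (PadicAlgCl ℓ) (PadicAlgCl ℓ ⊗[ℚ_[ℓ]] (n → ℚ_[ℓ])),
          IsOp θ ((rep χ ρ g).baseChange (PadicAlgCl ℓ)) Y →
            Y = wdg (bcB (PadicAlgCl ℓ) (form q)) v' v) ∧
        ∀ Y : End (PadicAlgCl ℓ) (PadicAlgCl ℓ ⊗[ℚ_[ℓ]] (n' → ℚ_[ℓ])),
          IsOp θ ((rep χ ρ' g).baseChange (PadicAlgCl ℓ)) Y →
            Y = wdg (bcB (PadicAlgCl ℓ) (form q')) w' w := by
  obtain ⟨p, hp, hpS, hpS', v, hv, g, hg, hnear, hnear', hord, hord', γ, hroot, hγ⟩ :=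
    exists_place2 h hss hT h' hss' hT'
  obtain ⟨A, φ, hA, hAr, hφ1, hφ0, hAr', γ', hroot', hγ', hφ1', hφ0'⟩ :=
    fro3 h h' hpS hpS' hv hg hord hord' hnear hnear' γ hroot hγ
  obtain ⟨θ, hθ⟩ := exists_theta hA
  obtain ⟨v, v', a1, a2, a3, a4⟩ := torus_of h hroot hγ
    (fun β hβ hβ1 => fro h hpS hv hg hord hnear β hβ hβ1) hA hAr hφ1 hφ0 hθ
  obtain ⟨w, w', b1, b2, b3, b4⟩ := torus_of h' hroot' hγ'
    (fun β hβ hβ1 => fro h' hpS' hv hg hord' hnear' β hβ hβ1) hA hAr' hφ1' hφ0' hθ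
  exact ⟨g⁻¹, θ, v, v', w, w', a1, a2, a3, b1, b2, b3, a4, b4⟩

end Pool.Agent.H851.MK
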