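import Mathlib
import Pool.Agent.H851.MK.Torus
import Pool.Agent.H851.MK.Inter

/-!
# Auxiliary results
-/

set_option autoImplicit false
set_option linter.unusedSectionVars false
set_option linter.unusedVariables false

namespace Pool.Agent.H851.MK

open Matrix Module TensorProduct Pool.Agent.Y114.RM
open Pool.Agent.H851.ZD Pool.Agent.H851.IN Pool.Agent.H851.KT Pool.Agent.H851.K3
open Pool.Agent.H851.KS

section ortho

variable {C : Type} [Field C] [CharZero C] {A : Type} [AddCommGroup A] [Module C A]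
  [FiniteDimensional C A] {B : A →ₗ[C] A →ₗ[C] C}

/-- a complete orthogonal system orthogonal to a hyperbolic plane -/
theorem exists_ortho2 (hs : ∀ x y, B x y = B y x) (E : Submodule C A)
    (hE : ∀ x ∈ E, (∀ y ∈ E, B x y = 0) → x = 0) {v v' : A} (hv : v ∈ E) (hv' : v' ∈ E)
    (h0 : B v v = 0) (h0' : B v' v' = 0) (h1 : B v v' = 1) :
    ∃ (m : ℕ) (u : Fin m → A), finrank C E ≤ m + 2 ∧ (∀ i, u i ∈ E) ∧ (∀ i, B v (u i) = 0) ∧
      (∀ i, B v' (u i) = 0) ∧ (∀ i j, i ≠ j → B (u i) (u j) = 0) ∧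
      (∀ i, B (u i) (u i) ≠ 0) ∧ ∀ x ∈ E, x = B v' x • v + B v x • v' +
      ∑ i, ((B (u i) (u i))⁻¹ * B (u i) x) • u i := by
  classical
  let f : E →ₗ[C] C × C := (B v ∘ₗ E.subtype).prod (B v' ∘ₗ E.subtype)
  let E₀ : Submodule C E := LinearMap.ker f
  have hE₀ : ∀ x : E, x ∈ E₀ ↔ B v x = 0 ∧ B v' x = 0 := by
    intro x
    rw [LinearMap.mem_ker]
    exact Prod.ext_iff
  let i₀ : E₀ →ₗ[C] A := E.subtype ∘ₗ E₀.subtype
  let B₀ : LinearMap.BilinForm C E₀ := B.compl₁₂ i₀ i₀
  have hB₀ : ∀ x y, B₀ x y = B (i₀ x) (i₀ y) := fun x y => rfl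
  have hi₀E : ∀ x, i₀ x ∈ E := fun x => (x : E).2
  have hi₀v : ∀ x, B v (i₀ x) = 0 := fun x => ((hE₀ _).1 x.2).1
  have hi₀v' : ∀ x, B v' (i₀ x) = 0 := fun x => ((hE₀ _).1 x.2).2
  have hi₀inj : ∀ x, i₀ x = 0 → x = 0 := fun x hx => Subtype.ext (Subtype.ext hx)
  have hdim : finrank C E ≤ finrank C E₀ + 2 := by
    have h2 := LinearMap.finrank_range_add_finrank_ker f
    have h3 : finrank C (LinearMap.range f) ≤ finrank C (C × C) := Submodule.finrank_le _
    rw [Module.finrank_prod, Module.finrank_self] at h3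
    have h4 : finrank C E₀ = finrank C (LinearMap.ker f) := rfl
    omega
  have : Invertible (2 : C) := invertibleOfNonzero two_ne_zero
  obtain ⟨e, he⟩ := LinearMap.BilinForm.exists_orthogonal_basis (B := B₀) ⟨fun x y => hs _ _⟩
  have hred : ∀ y ∈ E, ∃ z : E₀, y = B v' y • v + B v y • v' + i₀ z := by
    intro y hy
    let z : A := y - (B v' y) • v - (B v y) • v'
    have hzE : z ∈ E := E.sub_mem (E.sub_mem hy (E.smul_mem _ hv)) (E.smul_mem _ hv')
    have hz : (⟨z, hzE⟩ : E) ∈ E₀ := by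
      rw [hE₀]
      constructor
      · change B v (y - (B v' y) • v - (B v y) • v') = 0
        rw [map_sub, map_sub, map_smul, map_smul, h0, h1, smul_zero, smul_eq_mul, mul_one,
          sub_zero, sub_self]
      · change B v' (y - (B v' y) • v - (B v y) • v') = 0
        rw [map_sub, map_sub, map_smul, map_smul, h0', hs v' v, h1, smul_zero, smul_eq_mul,
          mul_one, sub_zero, sub_self]
    refine ⟨⟨_, hz⟩, ?_⟩
    change y = B v' y • v + B v y • v' + (y - (B v' y) • v - (B v y) • v')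
    abel
  have hort : ∀ x, B v x = 0 → B v' x = 0 → (∀ i, B x (i₀ (e i)) = 0) → ∀ y ∈ E, B x y = 0 := by
    intro x hx hx' hxe y hy
    obtain ⟨z, hz⟩ := hred y hy
    have h2 : B x (i₀ z) = 0 := by
      rw [← e.sum_repr z, map_sum, map_sum]
      refine Finset.sum_eq_zero fun j _ => ?_
      rw [map_smul, map_smul, hxe, smul_zero]
    rw [hz, map_add, map_add, map_smul, map_smul, hs x v, hs x v', hx, hx', h2, smul_zero,
      smul_zero, add_zero, add_zero]
  have hnz : ∀ i, B (i₀ (e i)) (i₀ (e i)) ≠ 0 := by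
    intro i hi
    have h3 : i₀ (e i) = 0 := by
      refine hE _ (hi₀E _) (hort _ (hi₀v _) (hi₀v' _) fun j => ?_)
      by_cases hij : i = j
      · rw [← hij]
        exact hi
      · exact he hij
    exact e.ne_zero i (hi₀inj _ h3)
  refine ⟨finrank C E₀, fun i => i₀ (e i), hdim, fun i => hi₀E _, fun i => hi₀v _,
    fun i => hi₀v' _, fun i j hij => he hij, hnz, fun x hx => ?_⟩
  set y : A := B v' x • v + B v x • v' +
    ∑ i, ((B (i₀ (e i)) (i₀ (e i)))⁻¹ * B (i₀ (e i)) x) • i₀ (e i) with hy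
  have hyE : y ∈ E := E.add_mem (E.add_mem (E.smul_mem _ hv) (E.smul_mem _ hv'))
    (E.sum_mem fun i _ => E.smul_mem _ (hi₀E _))
  have hvs : ∀ a, B a v = B v a := fun a => hs a v
  have e1 : B v y = B v x := by
    rw [hy, map_add, map_add, map_smul, map_smul, h0, h1, smul_zero, zero_add, map_sum,
      Finset.sum_eq_zero, add_zero, smul_eq_mul, mul_one]
    intro i _
    rw [map_smul, hi₀v, smul_zero]
  have e2 : B v' y = B v' x := by
    rw [hy, map_add, map_add, map_smul, map_smul, h0', hs v' v, h1, smul_zero, add_zero, map_sum,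
      Finset.sum_eq_zero, add_zero, smul_eq_mul, mul_one]
    intro i _
    rw [map_smul, hi₀v', smul_zero]
  have e3 : ∀ i, B (i₀ (e i)) y = B (i₀ (e i)) x := by
    intro i
    rw [hy, map_add, map_add, map_smul, map_smul, hs _ v, hs _ v', hi₀v, hi₀v', smul_zero,
      smul_zero, add_zero, zero_add, map_sum, Finset.sum_eq_single i]
    · rw [map_smul, smul_eq_mul, mul_comm, ← mul_assoc, mul_inv_cancel₀ (hnz i), one_mul]
    · intro j _ hj
      have h6 : B (i₀ (e i)) (i₀ (e j)) = 0 := he (Ne.symm hj)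
      rw [map_smul, h6, smul_zero]
    · intro h'
      exact absurd (Finset.mem_univ _) h'
  have h4 : x - y = 0 := by
    refine hE _ (E.sub_mem hx hyE) (hort _ ?_ ?_ fun i => ?_)
    · rw [map_sub, e1, sub_self]
    · rw [map_sub, e2, sub_self]
    · rw [hs, map_sub, e3, sub_self]
  exact sub_eq_zero.1 h4

end ortho

section TC

variable {k : Type} [Field k] [CharZero k] {C : Type} [Field C] [CharZero C] [Algebra k C]
  {n ι : Type} [Fintype n] [DecidableEq n] [Fintype ι]
    [DecidableEq ι] {q : Matrix n n k} {L : Submodule k (Matrix n n k)} {T : Submodule k (n → k)}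
    {a : ι → k} {U : Matrix n ι k} {W : Matrix ι n k}

theorem mulVec_sum_single (U : Matrix n ι k) (ξ : ι → k) :
    U *ᵥ ξ = ∑ i, ξ i • (U *ᵥ Pi.single i 1) := by
  conv_lhs => rw [pi_eq_sum_univ' ξ]
  rw [Matrix.mulVec_sum]
  refine Finset.sum_congr rfl fun i _ => ?_
  rw [Matrix.mulVec_smul]

theorem Frame_span (F : Frame q L T a U W) {X : Matrix n n k} (hX : X ∈ L) :
    Matrix.toLin' X ∈ Submodule.span k {Y | ∃ x ∈ T, ∃ y ∈ T, Y = wdg (form q) x y} := by
  obtain ⟨M, hM, rfl⟩ := (F.mem X).1 hX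
  have hMv : ∀ z : n → k, (U * M * W) *ᵥ z = U *ᵥ (M *ᵥ (W *ᵥ z)) := by
    intro z
    simp only [Matrix.mulVec_mulVec, Matrix.mul_assoc]
  have key : (2 : k) • Matrix.toLin' (U * M * W) = ∑ i, (a i)⁻¹ •
      wdg (form q) (U *ᵥ Pi.single i 1) ((U * M * W) *ᵥ (U *ᵥ Pi.single i 1)) := by
    refine LinearMap.ext fun z => ?_
    rw [LinearMap.smul_apply, LinearMap.sum_apply, toLin'_apply]
    have e1 : ∀ i, ((a i)⁻¹ • wdg (form q) (U *ᵥ Pi.single i 1)
        ((U * M * W) *ᵥ (U *ᵥ Pi.single i 1))) z = (W *ᵥ z) i •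
        ((U * M * W) *ᵥ (U *ᵥ Pi.single i 1)) + (M *ᵥ (W *ᵥ z)) i • (U *ᵥ Pi.single i 1) := by
      intro i
      rw [LinearMap.smul_apply, wdg_apply, smul_sub, smul_smul, smul_smul, sub_eq_add_neg,
        ← neg_smul]
      congr 2
      · rw [F.pair]
      · have h2 : (U * M * W) *ᵥ (U *ᵥ Pi.single i 1) = U *ᵥ (M *ᵥ Pi.single i 1) := by
          rw [hMv]
          congr 2
          rw [Matrix.mulVec_mulVec _ W U, F.one, Matrix.one_mulVec]
        rw [h2, Frame_form F, ← mul_neg, ← Finset.sum_neg_distrib, Finset.mul_sum]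
        change _ = ∑ j, M i j * (W *ᵥ z) j
        refine Finset.sum_congr rfl fun j _ => ?_
        rw [Matrix.mulVec_single_one]
        have h3 := hM i j
        have h4 : -(M j i * (a j * (W *ᵥ z) j)) = a i * (M i j * (W *ᵥ z) j) := by
          linear_combination (W *ᵥ z) j * h3 * (-1)
        change (a i)⁻¹ * -(M j i * (a j * (W *ᵥ z) j)) = _
        rw [h4, ← mul_assoc, inv_mul_cancel₀ (F.ne i), one_mul]
    rw [Finset.sum_congr rfl fun i _ => e1 i, Finset.sum_add_distrib, ← mulVec_sum_single]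
    have e2 : ∑ i, (W *ᵥ z) i • ((U * M * W) *ᵥ (U *ᵥ Pi.single i 1)) =
        (U * M * W) *ᵥ (U *ᵥ (W *ᵥ z)) := by
      conv_rhs => rw [mulVec_sum_single U (W *ᵥ z), Matrix.mulVec_sum]
      refine Finset.sum_congr rfl fun i _ => ?_
      rw [Matrix.mulVec_smul]
    have e3 : (U * M * W) *ᵥ (U *ᵥ (W *ᵥ z)) = (U * M * W) *ᵥ z := by
      rw [hMv, hMv, Matrix.mulVec_mulVec _ W U, F.one, Matrix.one_mulVec]
    rw [e2, e3, ← hMv, two_smul]
  have h2 : Matrix.toLin' (U * M * W) = (2 : k)⁻¹ • ((2 : k) • Matrix.toLin' (U * M * W)) := by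
    rw [smul_smul, inv_mul_cancel₀ two_ne_zero, one_smul]
  rw [h2, key]
  refine Submodule.smul_mem _ _ (Submodule.sum_mem _ fun i _ => Submodule.smul_mem _ _
    (Submodule.subset_span ⟨_, F.left _, _, ?_, rfl⟩))
  rw [hMv]
  exact F.left _

theorem TC_span (F : Frame q L T a U W) {z : End C (C ⊗[k] (n → k))} (hz : z ∈ bcS C (lin L)) :
    z ∈ Submodule.span C {X | ∃ x ∈ TC C T, ∃ y ∈ TC C T, X = wdg (bcB C (form q)) x y} := by
  induction hz using Submodule.span_induction with
  | mem z hz =>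
    obtain ⟨_, ⟨X, hX, rfl⟩, rfl⟩ := hz
    have h1 : Matrix.toLin' X ∈ Submodule.span k {Y | ∃ x ∈ T, ∃ y ∈ T, Y = wdg (form q) x y} :=
      Frame_span F hX
    change (Matrix.toLin' X).baseChange C ∈ _
    generalize Matrix.toLin' X = Y at h1
    induction h1 using Submodule.span_induction with
    | mem Y hY =>
      obtain ⟨x, hx, y, hy, rfl⟩ := hY
      rw [bc_wdg]
      exact Submodule.subset_span ⟨_, tmul_mem_TC hx 1, _, tmul_mem_TC hy 1, rfl⟩
    | zero => rw [LinearMap.baseChange_zero]; exact Submodule.zero_mem _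
    | add x y _ _ hx hy => rw [LinearMap.baseChange_add]; exact Submodule.add_mem _ hx hy
    | smul c x _ hx =>
      rw [LinearMap.baseChange_smul, ← algebraMap_smul C c]
      exact Submodule.smul_mem _ _ hx
  | zero => exact Submodule.zero_mem _
  | add a b _ _ ha hb => exact Submodule.add_mem _ ha hb
  | smul c a _ ha => exact Submodule.smul_mem _ c ha

end TC

section bc

variable {k : Type} [Field k] [CharZero k] {C : Type} [Field C] [CharZero C] [IsAlgClosed C]
  [Algebra k C] {V W : Type} [AddCommGroup V] [Module k V] [AddCommGroup W] [Module k W]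
  [FiniteDimensional k V] [FiniteDimensional k W] {L : Submodule k (End k (V × W))} {Γ : Type}
  [Group Γ] {r : Representation k Γ V} {σ : Representation k Γ W}

theorem bC2_mem {z : End C (C ⊗[k] (V × W))} (hz : z ∈ bcS C L) : bC2 z ∈ bcS C (L.map blk2) := by
  rw [mem_bc]
  intro π
  rw [pM_bC2]
  exact ⟨_, mem_bc.1 hz π, rfl⟩

theorem bC_onto {x : End C (C ⊗[k] V)} (hx : x ∈ bcS C (L.map blk)) :
    ∃ z ∈ bcS C L, bC z = x := by
  induction hx using Submodule.span_induction with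
  | mem x hx =>
    obtain ⟨_, ⟨X, hX, rfl⟩, rfl⟩ := hx
    exact ⟨X.baseChange C, mem_bcS hX, bC_bc X⟩
  | zero => exact ⟨0, Submodule.zero_mem _, map_zero _⟩
  | add x y _ _ hx hy =>
    obtain ⟨z, hz, rfl⟩ := hx
    obtain ⟨w, hw, rfl⟩ := hy
    exact ⟨z + w, Submodule.add_mem _ hz hw, map_add _ _ _⟩
  | smul c x _ hx =>
    obtain ⟨z, hz, rfl⟩ := hx
    exact ⟨c • z, Submodule.smul_mem _ c hz, map_smul _ _ _⟩

/-- the second block of an operator of a Frobenius element -/
theorem bC2_op {θ : Additive Cˣ →+ C} {g : Γ} {N : End C (C ⊗[k] (V × W))}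
    (hN : IsOp θ (((r.prod σ) g).baseChange C) N) : IsOp θ ((σ g).baseChange C) (bC2 N) := by
  intro β x hx
  have h1 : irC k C V W x ∈ Module.End.maxGenEigenspace (((r.prod σ) g).baseChange C) β := by
    refine gen_map (T := (σ g).baseChange C) (T' := ((r.prod σ) g).baseChange C)
      (i := irC k C V W) (fun x => ?_) hx
    have h2 : ((r.prod σ) g).baseChange C ∘ₗ irC k C V W = irC k C V W ∘ₗ (σ g).baseChange C := by
      rw [irC, ← LinearMap.baseChange_comp, ← LinearMap.baseChange_comp]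
      congr 1
      refine LinearMap.ext fun x => ?_
      rw [LinearMap.comp_apply, LinearMap.comp_apply, LinearMap.inr_apply, LinearMap.inr_apply,
        prod_apply, map_zero]
    exact LinearMap.congr_fun h2 x
  rw [bC2_apply, hN β _ h1, map_smul, sn_ir]

end bc

end Pool.Agent.H851.MK
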