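import Mathlib
import Pool.Agent.H851.MK.Prep

/-!
# Two representations of K3 type without homomorphisms
-/

set_option autoImplicit false
set_option linter.unusedSectionVars false
set_option linter.unusedVariables false

namespace Pool.Agent.H851.MK

open Matrix Module TensorProduct Pool.Agent.Y114.RM Pool.Agent.TH118.SG Polynomial Topology
open NumberField IsDedekindDomain
open Pool.Agent.H851.K3 Pool.Agent.H851.KT Pool.Agent.H851.TT Pool.Agent.H851.ZD
open Pool.Agent.H851.IN Pool.Agent.H851.KS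
open Pool.Agent.NH56.HY (GK IsFrobenius tw tw_apply R chi_ne Near NonUnip)
open Pool.Agent.H204R3.GP (FiniteIndexSemisimple)

section swap

variable {k : Type} [Field k] {V V' W : Type} [AddCommGroup V] [Module k V] [AddCommGroup V']
  [Module k V'] [AddCommGroup W] [Module k W] {Γ : Type} [Group Γ] {r : Representation k Γ V}
  {r' : Representation k Γ V'} {σ : Representation k Γ W}

/-- the block of the second summand -/
def blk3 : End k (V × (V' × W)) →ₗ[k] End k V' := blk ∘ₗ blk2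

theorem blk3_apply (Z : End k (V × (V' × W))) (x : V') : blk3 Z x = (Z (0, (x, 0))).2.1 := rfl

theorem blk3_mem {Z : End k (V × (V' × W))} (hZ : Z ∈ LT (r.prod (r'.prod σ))) :
    blk3 Z ∈ LT r' := blk_mem (blk2_mem hZ)

theorem lt_swap {Z : End k (V' × (V × W))} (hZ : Z ∈ LT (r'.prod (r.prod σ))) :
    ∃ Z' ∈ LT (r.prod (r'.prod σ)), blk3 Z' = blk Z := by
  let i : V × (V' × W) →ₗ[k] V' × (V × W) :=
    (LinearMap.fst k V' W ∘ₗ LinearMap.snd k V (V' × W)).prod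
      ((LinearMap.fst k V (V' × W)).prod (LinearMap.snd k V' W ∘ₗ LinearMap.snd k V (V' × W)))
  let p : V' × (V × W) →ₗ[k] V × (V' × W) :=
    (LinearMap.fst k V W ∘ₗ LinearMap.snd k V' (V × W)).prod
      ((LinearMap.fst k V' (V × W)).prod (LinearMap.snd k V W ∘ₗ LinearMap.snd k V' (V × W)))
  exact ⟨p ∘ₗ Z ∘ₗ i, lt_retract i p (fun x => rfl) (fun γ x => rfl) (fun γ x => rfl) hZ, rfl⟩

theorem blk3_mul {X Y : End k (V × (V' × W))} (hY : Y ∈ LT (r.prod (r'.prod σ))) :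
    blk3 (X * Y) = blk3 X * blk3 Y := by
  refine LinearMap.ext fun x => ?_
  rw [Module.End.mul_apply, blk3_apply, blk3_apply, blk3_apply, Module.End.mul_apply, lt_diag hY,
    map_zero]
  have h1 : blk2 Y (x, 0) = (blk (blk2 Y) x, 0) := lt_left (blk2_mem hY) x
  rw [h1]

theorem lt_diag3 {Z : End k (V × (V' × W))} (hZ : Z ∈ LT (r.prod (r'.prod σ))) (x : V) (y : V') :
    Z (x, (y, 0)) = (blk Z x, (blk3 Z y, 0)) := by
  rw [lt_diag hZ]
  have h1 : blk2 Z (y, 0) = (blk (blk2 Z) y, 0) := lt_left (blk2_mem hZ) y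
  rw [h1]
  rfl

end swap

section main

variable {K : Type} [Field K] [NumberField K] {ℓ : ℕ} [hℓ : Fact ℓ.Prime] {n n' : Type}
    [Fintype n] [DecidableEq n] [Fintype n'] [DecidableEq n'] {q : Matrix n n ℚ_[ℓ]}
    {q' : Matrix n' n' ℚ_[ℓ]} {S S' : Finset ℕ} {χ : GK K →* ℚ_[ℓ]}
    {Pol Pol' : HeightOneSpectrum (𝓞 K) → ℤ[X]} {ρ : GK K →* Matrix n n ℚ_[ℓ]}
    {ρ' : GK K →* Matrix n' n' ℚ_[ℓ]}
    {W : Type} [AddCommGroup W] [Module ℚ_[ℓ] W] [FiniteDimensional ℚ_[ℓ] W]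
    {σ : Representation ℚ_[ℓ] (GK K) W}

/-- maps which commute with the Lie algebra commute with an open subgroup -/
theorem hom_open (hρ : Continuous ρ) (hρ' : Continuous ρ') (hχ : Continuous χ)
    {L : Submodule ℚ_[ℓ] (End ℚ_[ℓ] ((n → ℚ_[ℓ]) × ((n' → ℚ_[ℓ]) × W)))}
    (hLT : ∀ X, X ∈ L ↔ X ∈ LT ((rep χ ρ).prod ((rep χ ρ').prod σ)))
    (hAd : ∀ γ, ∀ X ∈ L, AdE (((rep χ ρ).prod ((rep χ ρ').prod σ)) γ)
      (((rep χ ρ).prod ((rep χ ρ').prod σ)) γ⁻¹) X ∈ L)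
    (Y : (n → ℚ_[ℓ]) →ₗ[ℚ_[ℓ]] (n' → ℚ_[ℓ])) (hY : ∀ X ∈ L, ∀ x, Y (blk X x) = blk3 X (Y x)) :
    ∃ U : Subgroup (GK K), IsOpen (U : Set (GK K)) ∧
      ∀ g ∈ U, ∀ x, Y (rep χ ρ g x) = rep χ ρ' g (Y x) := by
  have hcomp : CompactSpace (GK K) := inferInstance
  have hc := tw_continuous hρ hχ
  have hc' := tw_continuous hρ' hχ
  set r : Representation ℚ_[ℓ] (GK K) ((n → ℚ_[ℓ]) × (n' → ℚ_[ℓ])) :=
    (rep χ ρ).prod (rep χ ρ') with hr
  have hrx : ∀ g z, r g z = (tw χ ρ g *ᵥ z.1, tw χ ρ' g *ᵥ z.2) := fun g z => rfl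
  -- the space of the maps
  let A : Submodule ℚ_[ℓ] (End ℚ_[ℓ] ((n → ℚ_[ℓ]) × (n' → ℚ_[ℓ]))) :=
    { carrier := {P | ∃ Y : (n → ℚ_[ℓ]) →ₗ[ℚ_[ℓ]] (n' → ℚ_[ℓ]), (∀ z, P z = (0, Y z.1)) ∧
        ∀ X ∈ L, ∀ x, Y (blk X x) = blk3 X (Y x)}
      zero_mem' := ⟨0, fun z => rfl, fun X hX x => by
        rw [LinearMap.zero_apply, LinearMap.zero_apply, map_zero]⟩
      add_mem' := by
        rintro P Q ⟨Y, h1, h2⟩ ⟨Z, h3, h4⟩
        refine ⟨Y + Z, fun z => ?_, fun X hX x => ?_⟩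
        · rw [LinearMap.add_apply, h1, h3, Prod.mk_add_mk, add_zero, LinearMap.add_apply]
        · rw [LinearMap.add_apply, LinearMap.add_apply, h2 X hX, h4 X hX, map_add]
      smul_mem' := by
        rintro c P ⟨Y, h1, h2⟩
        refine ⟨c • Y, fun z => ?_, fun X hX x => ?_⟩
        · rw [LinearMap.smul_apply, h1, Prod.smul_mk, smul_zero, LinearMap.smul_apply]
        · rw [LinearMap.smul_apply, LinearMap.smul_apply, h2 X hX, map_smul] }
  have hAm : ∀ P, P ∈ A ↔ ∃ Y : (n → ℚ_[ℓ]) →ₗ[ℚ_[ℓ]] (n' → ℚ_[ℓ]), (∀ z, P z = (0, Y z.1)) ∧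
        ∀ X ∈ L, ∀ x, Y (blk X x) = blk3 X (Y x) := fun P => Iff.rfl
  have hinv : ∀ (g : GK K) (x : n → ℚ_[ℓ]), rep χ ρ g (rep χ ρ g⁻¹ x) = x := by
    intro g x
    rw [← Module.End.mul_apply, ← map_mul, mul_inv_cancel, map_one, Module.End.one_apply]
  have hinv' : ∀ (g : GK K) (x : n' → ℚ_[ℓ]), rep χ ρ' g (rep χ ρ' g⁻¹ x) = x := by
    intro g x
    rw [← Module.End.mul_apply, ← map_mul, mul_inv_cancel, map_one, Module.End.one_apply]
  obtain ⟨Δ, hΔ, hΔc⟩ := Pool.Agent.Y220.RM.tfr_abs (ℓ := ℓ)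
    (V := (n → ℚ_[ℓ]) × (n' → ℚ_[ℓ])) r
    (by
      intro X x
      have h1 : Continuous fun γ : GK K => (fun z : (n → ℚ_[ℓ]) × (n' → ℚ_[ℓ]) =>
          (tw χ ρ γ *ᵥ z.1, tw χ ρ' γ *ᵥ z.2)) (X (tw χ ρ γ⁻¹ *ᵥ x.1, tw χ ρ' γ⁻¹ *ᵥ x.2)) := by
        have h2 : Continuous fun γ : GK K => X (tw χ ρ γ⁻¹ *ᵥ x.1, tw χ ρ' γ⁻¹ *ᵥ x.2) := by
          refine (LinearMap.continuous_of_finiteDimensional X).comp ?_
          exact ((hc.comp continuous_inv).matrix_mulVec continuous_const).prodMk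
            ((hc'.comp continuous_inv).matrix_mulVec continuous_const)
        exact (hc.matrix_mulVec (continuous_fst.comp h2)).prodMk
          (hc'.matrix_mulVec (continuous_snd.comp h2))
      exact h1)
    A
    (by
      rintro γ P hP
      obtain ⟨Y, h1, h2⟩ := (hAm P).1 hP
      refine (hAm _).2 ⟨rep χ ρ' γ ∘ₗ Y ∘ₗ rep χ ρ γ⁻¹, fun z => ?_, fun X hX x => ?_⟩
      · rw [AdE_apply, Module.End.mul_apply, Module.End.mul_apply, h1]
        refine Prod.ext ?_ rfl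
        exact map_zero (rep χ ρ γ)
      · have h3 := h2 _ (hAd γ⁻¹ X hX) (rep χ ρ γ⁻¹ x)
        have e1 : blk (AdE (((rep χ ρ).prod ((rep χ ρ').prod σ)) γ⁻¹)
            (((rep χ ρ).prod ((rep χ ρ').prod σ)) γ⁻¹⁻¹) X) (rep χ ρ γ⁻¹ x) =
            rep χ ρ γ⁻¹ (blk X x) := by
          rw [blk_conj, AdE_apply, inv_inv, Module.End.mul_apply, Module.End.mul_apply, hinv]
        have e2 : ∀ y, blk3 (AdE (((rep χ ρ).prod ((rep χ ρ').prod σ)) γ⁻¹)
            (((rep χ ρ).prod ((rep χ ρ').prod σ)) γ⁻¹⁻¹) X) y =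
            rep χ ρ' γ⁻¹ (blk3 X (rep χ ρ' γ y)) := by
          intro y
          rw [AdE_apply, inv_inv]
          change (rep χ ρ' γ⁻¹) ((X (rep χ ρ γ 0, (rep χ ρ' γ y, σ γ 0))).2.1) = _
          rw [map_zero, map_zero]
          rfl
        rw [e1, e2] at h3
        change rep χ ρ' γ (Y (rep χ ρ γ⁻¹ (blk X x))) = blk3 X (rep χ ρ' γ (Y (rep χ ρ γ⁻¹ x)))
        rw [h3, hinv'])
    (by
      intro γ
      obtain ⟨M, hM, h1⟩ := Pool.Agent.R913.Adj.comm_order hLT γ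
      refine ⟨M, hM, fun P hP => ?_⟩
      obtain ⟨Y, h2, h3⟩ := (hAm P).1 hP
      let P' : End ℚ_[ℓ] ((n → ℚ_[ℓ]) × ((n' → ℚ_[ℓ]) × W)) :=
        LinearMap.inr ℚ_[ℓ] _ _ ∘ₗ LinearMap.inl ℚ_[ℓ] _ _ ∘ₗ Y ∘ₗ LinearMap.fst ℚ_[ℓ] _ _
      have hP' : ∀ z, P' z = (0, (Y z.1, 0)) := fun z => rfl
      have h4 : P' ∈ Pool.Agent.R913.Adj.comm L := by
        intro X hX
        refine LinearMap.ext fun z => ?_
        rw [Module.End.mul_apply, Module.End.mul_apply, hP', hP', lt_diag3 ((hLT X).1 hX),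
          map_zero, lt_diag ((hLT X).1 hX) z, h3 X hX]
      have h5 := h1 _ h4
      have h6 : ∀ (m : ℕ) (z : (n → ℚ_[ℓ]) × ((n' → ℚ_[ℓ]) × W)),
          ((((rep χ ρ).prod ((rep χ ρ').prod σ)) γ ^ m) z).1 = (rep χ ρ γ ^ m) z.1 ∧
          ((((rep χ ρ).prod ((rep χ ρ').prod σ)) γ ^ m) z).2.1 = (rep χ ρ' γ ^ m) z.2.1 := by
        intro m
        induction m with
        | zero => intro z; exact ⟨rfl, rfl⟩
        | succ m ih =>
          intro z
          rw [pow_succ, Module.End.mul_apply, pow_succ, pow_succ, Module.End.mul_apply,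
            Module.End.mul_apply]
          exact ih _
      have h7 : ∀ (m : ℕ) (z : (n → ℚ_[ℓ]) × (n' → ℚ_[ℓ])),
          (r γ ^ m) z = ((rep χ ρ γ ^ m) z.1, (rep χ ρ' γ ^ m) z.2) := by
        intro m
        induction m with
        | zero => intro z; rfl
        | succ m ih =>
          intro z
          rw [pow_succ, Module.End.mul_apply, ih, pow_succ, pow_succ, Module.End.mul_apply,
            Module.End.mul_apply]
          rfl
      refine LinearMap.ext fun z => ?_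
      have h8 := congrArg (fun y => y.2.1) (LinearMap.congr_fun h5 (z.1, (0, 0)))
      simp only [Module.End.mul_apply, hP'] at h8
      rw [(h6 M _).2, (h6 M _).1] at h8
      rw [Module.End.mul_apply, Module.End.mul_apply, h2, h2, h7, h7, map_zero]
      refine Prod.ext rfl ?_
      exact h8)
  let U : Subgroup (GK K) :=
    { carrier := {g | ∀ x, Y (rep χ ρ g x) = rep χ ρ' g (Y x)}
      one_mem' := fun x => by
        rw [map_one, map_one, Module.End.one_apply, Module.End.one_apply]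
      mul_mem' := fun {a b} ha hb x => by
        rw [map_mul, map_mul, Module.End.mul_apply, Module.End.mul_apply, ha, hb]
      inv_mem' := fun {a} ha x => by
        have h1 := ha (rep χ ρ a⁻¹ x)
        rw [hinv] at h1
        rw [h1, ← Module.End.mul_apply (rep χ ρ' a⁻¹), ← map_mul, inv_mul_cancel, map_one,
          Module.End.one_apply] }
  have hUc : IsClosed (U : Set (GK K)) := by
    have h1 : (U : Set (GK K)) = {g | LinearMap.toMatrix' Y * tw χ ρ g =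
        tw χ ρ' g * LinearMap.toMatrix' Y} := by
      ext g
      change (∀ x, Y (rep χ ρ g x) = rep χ ρ' g (Y x)) ↔ _
      rw [Set.mem_ofPred_eq, ← (Matrix.toLin' (R := ℚ_[ℓ])).injective.eq_iff, Matrix.toLin'_mul,
        Matrix.toLin'_mul, Matrix.toLin'_toMatrix']
      constructor
      · intro h
        exact LinearMap.ext fun x => h x
      · intro h x
        exact LinearMap.congr_fun h x
    rw [h1]
    exact isClosed_eq (continuous_const.matrix_mul hc) (hc'.matrix_mul continuous_const)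
  have hle : Δ ≤ U := by
    intro g hg x
    let P : End ℚ_[ℓ] ((n → ℚ_[ℓ]) × (n' → ℚ_[ℓ])) :=
      LinearMap.inr ℚ_[ℓ] _ _ ∘ₗ Y ∘ₗ LinearMap.fst ℚ_[ℓ] _ _
    have hP : P ∈ A := (hAm P).2 ⟨Y, fun z => rfl, hY⟩
    have h1 := congrArg Prod.snd (LinearMap.congr_fun (hΔc g hg P hP) (x, 0))
    exact h1.symm
  have hUf : U.FiniteIndex := Subgroup.finiteIndex_of_le hle
  exact ⟨U, Subgroup.isOpen_of_isClosed_of_finiteIndex U hUc, fun g hg => hg⟩

end main

end Pool.Agent.H851.MK
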