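import Mathlib
import Pool.Agent.H851.MK.Foreign

/-!
# The block of the second summand over an extension field
-/

set_option autoImplicit false
set_option linter.unusedSectionVars false
set_option linter.unusedVariables false

namespace Pool.Agent.H851.MK

open Matrix Module TensorProduct Pool.Agent.Y114.RM
open Pool.Agent.H851.ZD Pool.Agent.H851.IN Pool.Agent.H851.KT Pool.Agent.H851.K3
open Pool.Agent.H851.KS

variable {k : Type} [Field k] [CharZero k] {C : Type} [Field C] [CharZero C] [IsAlgClosed C]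
  [Algebra k C] {V V' W : Type} [AddCommGroup V] [Module k V] [AddCommGroup V'] [Module k V']
  [AddCommGroup W] [Module k W] [FiniteDimensional k V] [FiniteDimensional k V']
  [FiniteDimensional k W] {L : Submodule k (End k (V × (V' × W)))}

/-- the block of the second summand -/
noncomputable def bC3 : End C (C ⊗[k] (V × (V' × W))) →ₗ[C] End C (C ⊗[k] V') := bC ∘ₗ bC2

theorem bC3_eq (z : End C (C ⊗[k] (V × (V' × W)))) : bC3 z = bC (bC2 z) := rfl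

theorem pM_bC3 (π : C →ₗ[k] k) (z : End C (C ⊗[k] (V × (V' × W)))) :
    (pM π (bC3 z) : End k V') = blk3 (pM π z) := by
  rw [bC3_eq, pM_bC, pM_bC2]
  rfl

theorem bC3_bc (X : End k (V × (V' × W))) : bC3 (X.baseChange C) = (blk3 X).baseChange C := by
  rw [bC3_eq, bC2_bc, bC_bc]
  rfl

theorem bC3_mem {z : End C (C ⊗[k] (V × (V' × W)))} (hz : z ∈ bcS C L) :
    bC3 z ∈ bcS C (L.map blk3) := by
  rw [mem_bc]
  intro π
  rw [pM_bC3]
  exact ⟨_, mem_bc.1 hz π, rfl⟩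

theorem bC3_mul (hd : ∀ X ∈ L, ∀ x, X x = (blk X x.1, blk2 X x.2))
    (hd2 : ∀ X ∈ L, ∀ x, blk2 X x = (blk (blk2 X) x.1, blk2 (blk2 X) x.2))
    {z w : End C (C ⊗[k] (V × (V' × W)))} (hw : w ∈ bcS C L) : bC3 (z * w) = bC3 z * bC3 w := by
  have hd' : ∀ X ∈ L.map (blk2 : End k (V × (V' × W)) →ₗ[k] End k (V' × W)), ∀ x,
      X x = (blk X x.1, blk2 X x.2) := by
    rintro _ ⟨X, hX, rfl⟩ x
    exact hd2 X hX x
  have h1 : bC2 w ∈ bcS C (L.map (blk2 : End k (V × (V' × W)) →ₗ[k] End k (V' × W))) :=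
    bC2_mem hw
  have h2 := bC_mul hd' (z := bC2 z) h1
  rw [bC3_eq, bC3_eq, bC3_eq, ← h2, bC2_mul hd hw]

/-- the pairs of the blocks -/
noncomputable def rel (C : Type) [Field C] [Algebra k C] (L : Submodule k (End k (V × (V' × W)))) :
    Submodule C (End C (C ⊗[k] V) × End C (C ⊗[k] V')) :=
  (bcS C L).map (bC.prod bC3)

theorem rel_mem {z : End C (C ⊗[k] (V × (V' × W)))} (hz : z ∈ bcS C L) :
    (bC z, bC3 z) ∈ rel C L := ⟨z, hz, rfl⟩

theorem rel_iff {P : End C (C ⊗[k] V) × End C (C ⊗[k] V')} (hP : P ∈ rel C L) :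
    ∃ z ∈ bcS C L, P = (bC z, bC3 z) := by
  obtain ⟨z, hz, rfl⟩ := hP
  exact ⟨z, hz, rfl⟩

theorem rel_br (hd : ∀ X ∈ L, ∀ x, X x = (blk X x.1, blk2 X x.2))
    (hd2 : ∀ X ∈ L, ∀ x, blk2 X x = (blk (blk2 X) x.1, blk2 (blk2 X) x.2))
    (hLie : ∀ X ∈ L, ∀ Y ∈ L, X * Y - Y * X ∈ L) : ∀ P ∈ rel C L, ∀ Q ∈ rel C L, ∃ W ∈ rel C L,
      P.1 * Q.1 = Q.1 * P.1 + W.1 ∧ P.2 * Q.2 = Q.2 * P.2 + W.2 := by
  intro P hP Q hQ
  obtain ⟨z, hz, rfl⟩ := rel_iff hP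
  obtain ⟨y, hy, rfl⟩ := rel_iff hQ
  obtain ⟨x, hx, h1⟩ := bcS_bracket (G := L) (H := L) hLie hz hy
  refine ⟨_, rel_mem hx, ?_, ?_⟩
  · change bC z * bC y = bC y * bC z + bC x
    rw [← bC_mul hd hy, h1, map_add, bC_mul hd hz]
  · change bC3 z * bC3 y = bC3 y * bC3 z + bC3 x
    rw [← bC3_mul hd hd2 hy, h1, map_add, bC3_mul hd hd2 hz]

theorem pM_zero {U : Type} [AddCommGroup U] [Module k U] (π : C →ₗ[k] k) :
    (pM π (0 : End C (C ⊗[k] U)) : End k U) = 0 :=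
  LinearMap.ext fun x => by rw [pM_apply, LinearMap.zero_apply, map_zero, LinearMap.zero_apply]

theorem rel_g1 (G1 : ∀ Y ∈ L, blk Y = 0 → blk3 Y = 0) : ∀ P ∈ rel C L, P.1 = 0 → P.2 = 0 := by
  intro P hP h1
  obtain ⟨z, hz, rfl⟩ := rel_iff hP
  refine eq_zero_of_pM' _ fun π => ?_
  rw [pM_bC3]
  refine G1 _ (mem_bc.1 hz π) ?_
  rw [← pM_bC]
  change bC z = 0 at h1
  rw [h1]
  exact pM_zero π

theorem rel_g2 (G2 : ∀ Y ∈ L, blk3 Y = 0 → blk Y = 0) : ∀ P ∈ rel C L, P.2 = 0 → P.1 = 0 := by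
  intro P hP h1
  obtain ⟨z, hz, rfl⟩ := rel_iff hP
  refine eq_zero_of_pM' _ fun π => ?_
  rw [pM_bC]
  refine G2 _ (mem_bc.1 hz π) ?_
  rw [← pM_bC3]
  change bC3 z = 0 at h1
  rw [h1]
  exact pM_zero π

end Pool.Agent.H851.MK
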