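import Mathlib
import Pool.Agent.H851.MK.Bc3

/-!
# Two representations of K3 type without homomorphisms
-/

set_option autoImplicit false
set_option linter.unusedSectionVars false
set_option linter.unusedVariables false

namespace Pool.Agent.H851.MK

open Matrix Module TensorProduct Pool.Agent.Y114.RM Pool.Agent.TH118.SG Polynomial Topology
open NumberField IsDedekindDomain
open Pool.Agent.H851.K3 Pool.Agent.H851.KT Pool.Agent.H851.TT Pool.Agent.H851.ZD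
open Pool.Agent.H851.IN Pool.Agent.H851.KS
open Pool.Agent.NH56.HY (GK IsFrobenius tw tw_apply R chi_ne Near NonUnip)
open Pool.Agent.H204R3.GP (FiniteIndexSemisimple)

variable {K : Type} [Field K] [NumberField K] {ℓ : ℕ} [hℓ : Fact ℓ.Prime] {n n' : Type}
    [Fintype n] [DecidableEq n] [Fintype n'] [DecidableEq n'] {q : Matrix n n ℚ_[ℓ]}
    {q' : Matrix n' n' ℚ_[ℓ]} {S S' : Finset ℕ} {χ : GK K →* ℚ_[ℓ]}
    {Pol Pol' : HeightOneSpectrum (𝓞 K) → ℤ[X]} {ρ : GK K →* Matrix n n ℚ_[ℓ]}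
    {ρ' : GK K →* Matrix n' n' ℚ_[ℓ]}
    {W : Type} [AddCommGroup W] [Module ℚ_[ℓ] W] [FiniteDimensional ℚ_[ℓ] W]
    {σ : Representation ℚ_[ℓ] (GK K) W}

/-- all homomorphisms which are equivariant for an open subgroup vanish on the transcendental part -/
def NoHom (q : Matrix n n ℚ_[ℓ]) (χ : GK K →* ℚ_[ℓ]) (ρ : GK K →* Matrix n n ℚ_[ℓ])
    (ρ' : GK K →* Matrix n' n' ℚ_[ℓ]) : Prop :=
  ∀ Y : Matrix n' n ℚ_[ℓ], (∃ U : Subgroup (GK K), IsOpen (U : Set (GK K)) ∧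
    ∀ g ∈ U, ρ' g * Y = Y * ρ g) → ∀ x ∈ orth q (tate χ ρ), Y *ᵥ x = 0

theorem tate_ne_top (h : IsK3Type q S χ Pol ρ) (hss : Semisimple ρ)
    (hd3 : 3 ≤ finrank ℚ_[ℓ] (orth q (tate χ ρ))) : tate χ ρ ≠ ⊤ := by
  intro hT
  have h3 := Submodule.finrank_add_eq_of_isCompl (tate_compl h hss)
  have h4 : finrank ℚ_[ℓ] (tate χ ρ) = finrank ℚ_[ℓ] (n → ℚ_[ℓ]) := by rw [hT, finrank_top]
  omega

/-- either the elements of the Lie algebra of `V` lift to operators which kill `V'`, or the image of the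
Lie algebra in the endomorphisms of `V` and `V'` is the graph of an isomorphism -/
theorem dicho (h : IsK3Type q S χ Pol ρ) (hss : Semisimple ρ) (hc : ScalarEnds q χ ρ)
    (hd3 : 3 ≤ finrank ℚ_[ℓ] (orth q (tate χ ρ))) (hd4 : finrank ℚ_[ℓ] (orth q (tate χ ρ)) ≠ 4)
    (h' : IsK3Type q' S' χ Pol' ρ') (hss' : Semisimple ρ') (hc' : ScalarEnds q' χ ρ')
    (hd3' : 3 ≤ finrank ℚ_[ℓ] (orth q' (tate χ ρ')))
    (hd4' : finrank ℚ_[ℓ] (orth q' (tate χ ρ')) ≠ 4) (hσ : FiniteIndexSemisimple σ)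
    {L : Submodule ℚ_[ℓ] (End ℚ_[ℓ] ((n → ℚ_[ℓ]) × ((n' → ℚ_[ℓ]) × W)))}
    (hLT : ∀ X, X ∈ L ↔ X ∈ LT ((rep χ ρ).prod ((rep χ ρ').prod σ))) (hLie : IsLie L)
    (hAd : ∀ γ, ∀ X ∈ L, AdE (((rep χ ρ).prod ((rep χ ρ').prod σ)) γ)
      (((rep χ ρ).prod ((rep χ ρ').prod σ)) γ⁻¹) X ∈ L)
    (hmap : L.map blk = lieE χ ρ) :
    (∀ X ∈ lieE χ ρ, ∃ Z ∈ LT ((rep χ ρ).prod ((rep χ ρ').prod σ)), blk Z = X ∧
      ∀ a, Z (0, (a, 0)) = 0) ∨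
    ((∀ Y ∈ L, blk Y = 0 → blk3 Y = 0) ∧ ∀ Y ∈ L, blk3 Y = 0 → blk Y = 0) := by
  obtain ⟨a, U, W', Fr⟩ := exists_frame h hss hc
  obtain ⟨a', U', W'', Fr'⟩ := exists_frame h' hss' hc'
  have hfss : FiniteIndexSemisimple ((rep χ ρ).prod ((rep χ ρ').prod σ)) :=
    prod_semisimple (finiteIndexSemisimple hss) (prod_semisimple (finiteIndexSemisimple hss') hσ)
  obtain ⟨𝔰, hcpl⟩ := exists_cpl hfss hLT hLie hAd
  have hd : ∀ X ∈ L, ∀ x, X x = (blk X x.1, blk2 X x.2) := fun Z hZ x => lt_diag ((hLT Z).1 hZ) x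
  have hmap' : L.map blk3 = lieE χ ρ' := by
    refine le_antisymm ?_ ?_
    · rintro _ ⟨Z, hZ, rfl⟩
      exact lieE_of_lt (blk3_mem ((hLT Z).1 hZ))
    · intro Y hY
      obtain ⟨Z, hZ, h1⟩ := lift_all h' hss' _ ((rep χ ρ).prod σ) Y hY
      obtain ⟨Z', hZ', h2⟩ := lt_swap hZ
      exact ⟨Z', (hLT Z').2 hZ', h2.trans h1⟩
  have hsimple : ∀ I ≤ lieE χ ρ, (∀ A ∈ lieE χ ρ, ∀ Z ∈ I, A * Z - Z * A ∈ I) →
      I = ⊥ ∨ I = lieE χ ρ := lieE_simple Fr hd4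
  have hsimple' : ∀ I ≤ lieE χ ρ', (∀ A ∈ lieE χ ρ', ∀ Z ∈ I, A * Z - Z * A ∈ I) →
      I = ⊥ ∨ I = lieE χ ρ' := lieE_simple Fr' hd4'
  have hperf' := fun I => lieE_perfect Fr' hd3' I
  have hb3 : ∀ X ∈ L, ∀ Y ∈ L, blk3 (X * Y - Y * X) = blk3 X * blk3 Y - blk3 Y * blk3 X := by
    intro X hX Y hY
    rw [map_sub, blk3_mul ((hLT Y).1 hY), blk3_mul ((hLT X).1 hX)]
  have hb1 : ∀ X ∈ L, ∀ Y ∈ L, blk (X * Y - Y * X) = blk X * blk Y - blk Y * blk X := by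
    intro X hX Y hY
    rw [map_sub, blk_mul ((hLT Y).1 hY), blk_mul ((hLT X).1 hX)]
  -- the ideal of the elements which kill `V'`
  let I : Submodule ℚ_[ℓ] (End ℚ_[ℓ] (n → ℚ_[ℓ])) :=
    { carrier := {X | ∃ Z ∈ 𝔰, blk Z = X ∧ blk3 Z = 0}
      zero_mem' := ⟨0, 𝔰.zero_mem, map_zero _, map_zero _⟩
      add_mem' := by
        rintro _ _ ⟨Z, hZ, rfl, h2⟩ ⟨Z', hZ', rfl, h3⟩
        exact ⟨Z + Z', 𝔰.add_mem hZ hZ', map_add _ _ _, by rw [map_add, h2, h3, add_zero]⟩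
      smul_mem' := by
        rintro c _ ⟨Z, hZ, rfl, h2⟩
        exact ⟨c • Z, 𝔰.smul_mem c hZ, map_smul _ _ _, by rw [map_smul, h2, smul_zero]⟩ }
  have hIm : ∀ X, X ∈ I ↔ ∃ Z ∈ 𝔰, blk Z = X ∧ blk3 Z = 0 := fun X => Iff.rfl
  have hI1 : I ≤ lieE χ ρ := by
    intro X hX
    obtain ⟨Z, hZ, rfl, -⟩ := (hIm X).1 hX
    rw [← hmap]
    exact ⟨Z, hcpl.le hZ, rfl⟩
  have hI2 : ∀ A ∈ lieE χ ρ, ∀ X ∈ I, A * X - X * A ∈ I := by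
    intro A hA X hX
    rw [← hmap] at hA
    obtain ⟨A, hA, rfl⟩ := hA
    obtain ⟨Z, hZ, rfl, h2⟩ := (hIm X).1 hX
    refine (hIm _).2 ⟨A * Z - Z * A, hcpl.ideal A hA Z hZ, hb1 A hA Z (hcpl.le hZ), ?_⟩
    rw [hb3 A hA Z (hcpl.le hZ), h2, mul_zero, zero_mul, sub_zero]
  rcases hsimple I hI1 hI2 with hI | hI
  swap
  · left
    intro X hX
    rw [← hI] at hX
    obtain ⟨Z, hZ, h1, h2⟩ := (hIm X).1 hX
    refine ⟨Z, (hLT Z).1 (hcpl.le hZ), h1, fun x => ?_⟩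
    rw [lt_diag3 ((hLT Z).1 (hcpl.le hZ)), map_zero, h2, LinearMap.zero_apply]
    rfl
  have hinj' : ∀ Z ∈ 𝔰, blk3 Z = 0 → Z = 0 := by
    intro Z hZ h1
    have h2 : blk Z ∈ I := (hIm _).2 ⟨Z, hZ, rfl, h1⟩
    rw [hI] at h2
    exact hcpl.inj Z hZ ((Submodule.mem_bot _).1 h2)
  -- the image in the Lie algebra of `V'`
  have hJ1 : 𝔰.map blk3 ≤ lieE χ ρ' := by
    rw [← hmap']
    exact Submodule.map_mono hcpl.le
  have hJ2 : ∀ A ∈ lieE χ ρ', ∀ X ∈ 𝔰.map blk3, A * X - X * A ∈ 𝔰.map blk3 := by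
    intro A hA X hX
    rw [← hmap'] at hA
    obtain ⟨A, hA, rfl⟩ := hA
    obtain ⟨Z, hZ, rfl⟩ := hX
    exact ⟨A * Z - Z * A, hcpl.ideal A hA Z hZ, hb3 A hA Z (hcpl.le hZ)⟩
  rcases hsimple' _ hJ1 hJ2 with hJ | hJ
  · left
    intro X hX
    rw [← hmap] at hX
    obtain ⟨Z, hZ, rfl⟩ := hX
    obtain ⟨Y, hY, hY0, Z', hZ', rfl⟩ := hcpl.split Z hZ
    have h1 : Z' = 0 := by
      refine hinj' Z' hZ' ?_
      have h2 : blk3 Z' ∈ 𝔰.map blk3 := ⟨Z', hZ', rfl⟩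
      rw [hJ] at h2
      exact (Submodule.mem_bot _).1 h2
    refine ⟨0, ?_, ?_, fun x => rfl⟩
    · exact (hLT 0).1 L.zero_mem
    · rw [map_zero, h1, add_zero, hY0]
  -- the graph
  have G1 : ∀ Y ∈ L, blk Y = 0 → blk3 Y = 0 := by
    intro Y hY hY0
    let J : Submodule ℚ_[ℓ] (End ℚ_[ℓ] (n' → ℚ_[ℓ])) :=
      { carrier := {X | X ∈ lieE χ ρ' ∧ ∀ A ∈ lieE χ ρ', A * X = X * A}
        zero_mem' := ⟨Submodule.zero_mem _, fun A _ => by rw [mul_zero, zero_mul]⟩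
        add_mem' := fun {a b} ha hb => ⟨Submodule.add_mem _ ha.1 hb.1, fun A hA => by
          rw [mul_add, add_mul, ha.2 A hA, hb.2 A hA]⟩
        smul_mem' := fun c a ha => ⟨Submodule.smul_mem _ c ha.1, fun A hA => by
          rw [mul_smul_comm, smul_mul_assoc, ha.2 A hA]⟩ }
    have hJm : ∀ X, X ∈ J ↔ X ∈ lieE χ ρ' ∧ ∀ A ∈ lieE χ ρ', A * X = X * A := fun X => Iff.rfl
    have h1 : blk3 Y ∈ J := by
      refine (hJm _).2 ⟨?_, fun A hA => ?_⟩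
      · rw [← hmap']
        exact ⟨Y, hY, rfl⟩
      · rw [← hJ] at hA
        obtain ⟨Z, hZ, rfl⟩ := hA
        rw [← blk3_mul ((hLT Y).1 hY), hcpl.comm Y hY hY0 Z hZ,
          blk3_mul ((hLT Z).1 (hcpl.le hZ))]
    rcases hsimple' J (fun X hX => ((hJm X).1 hX).1) (by
      intro A hA Z hZ
      rw [((hJm Z).1 hZ).2 A hA, sub_self]
      exact J.zero_mem) with h2 | h2
    · rw [h2] at h1
      exact (Submodule.mem_bot _).1 h1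
    · have h3 : lieE χ ρ' ≤ ⊥ := hperf' ⊥ fun A hA B hB => by
        rw [← h2] at hB
        rw [((hJm B).1 hB).2 A hA, sub_self]
        exact Submodule.zero_mem _
      exact (Submodule.mem_bot _).1 (h3 ((hJm _).1 h1).1)
  have G2 : ∀ Y ∈ L, blk3 Y = 0 → blk Y = 0 := by
    intro Y hY hY0
    obtain ⟨Y', hY', hY'0, Z, hZ, rfl⟩ := hcpl.split Y hY
    have h1 := G1 Y' hY' hY'0
    rw [map_add, h1, zero_add] at hY0
    rw [hinj' Z hZ hY0, add_zero, hY'0]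
  exact Or.inr ⟨G1, G2⟩

/-- the intertwining operator of the graph -/
theorem exists_psi (h : IsK3Type q S χ Pol ρ) (hss : Semisimple ρ) (hc : ScalarEnds q χ ρ)
    (hd3 : 3 ≤ finrank ℚ_[ℓ] (orth q (tate χ ρ)))
    (h' : IsK3Type q' S' χ Pol' ρ') (hss' : Semisimple ρ')
    (hd3' : 3 ≤ finrank ℚ_[ℓ] (orth q' (tate χ ρ')))
    {L : Submodule ℚ_[ℓ] (End ℚ_[ℓ] ((n → ℚ_[ℓ]) × ((n' → ℚ_[ℓ]) × W)))}
    (hLT : ∀ X, X ∈ L ↔ X ∈ LT ((rep χ ρ).prod ((rep χ ρ').prod σ))) (hLie : IsLie L)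
    (hmap : L.map blk = lieE χ ρ)
    (G1 : ∀ Y ∈ L, blk Y = 0 → blk3 Y = 0) (G2 : ∀ Y ∈ L, blk3 Y = 0 → blk Y = 0) :
    ∃ Ψ : PadicAlgCl ℓ ⊗[ℚ_[ℓ]] (n → ℚ_[ℓ]) →ₗ[PadicAlgCl ℓ] PadicAlgCl ℓ ⊗[ℚ_[ℓ]] (n' → ℚ_[ℓ]),
      (∃ v ∈ TC (PadicAlgCl ℓ) (orth q (tate χ ρ)), Ψ v ≠ 0) ∧
      ∀ X ∈ L, ∀ x, Ψ ((blk X).baseChange (PadicAlgCl ℓ) x) =
        (blk3 X).baseChange (PadicAlgCl ℓ) (Ψ x) := by
  obtain ⟨a, U, W', Fr⟩ := exists_frame h hss hc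
  have hT := tate_ne_top h hss hd3
  have hT' := tate_ne_top h' hss' hd3'
  have hd : ∀ X ∈ L, ∀ x, X x = (blk X x.1, blk2 X x.2) := fun Z hZ x => lt_diag ((hLT Z).1 hZ) x
  have hd2 : ∀ X ∈ L, ∀ x, blk2 X x = (blk (blk2 X) x.1, blk2 (blk2 X) x.2) := fun Z hZ x =>
    lt_diag (blk2_mem ((hLT Z).1 hZ)) x
  have hlin : lin (tateLie χ ρ) = L.map blk := hmap.symm
  obtain ⟨g, θ, v, v', w, w', a1, a2, a3, b1, b2, b3, hop, hop'⟩ :=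
    exists_torus2 h hss hT h' hss' hT'
  obtain ⟨N, hN⟩ := exists_op ((((rep χ ρ).prod ((rep χ ρ').prod σ)) g).baseChange (PadicAlgCl ℓ))
    (fun z => ext0 θ z)
  have hNL : N ∈ bcS (PadicAlgCl ℓ) L :=
    Pool.Agent.R913.Adj.op_mem (ρ := (rep χ ρ).prod ((rep χ ρ').prod σ)) (PadicAlgCl ℓ) hLT g θ N hN
  have hNb : bC N = wdg (bcB (PadicAlgCl ℓ) (form q)) v' v := hop _ (bC_op hN)
  have hNb' : bC3 N = wdg (bcB (PadicAlgCl ℓ) (form q')) w' w := hop' _ (bC_op (bC2_op hN))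
  have hs := bcB_symm (C := PadicAlgCl ℓ) (form_symm h.symm)
  have hs' := bcB_symm (C := PadicAlgCl ℓ) (form_symm h'.symm)
  have hNS : bC N ∈ bcS (PadicAlgCl ℓ) (lin (tateLie χ ρ)) := by
    rw [hlin]
    exact bC_mem hNL
  have hv : v ∈ TC (PadicAlgCl ℓ) (orth q (tate χ ρ)) := by
    have h1 := TC_range Fr hNS v
    rwa [hNb, wdg_apply, hs v' v, a3, a1, one_smul, zero_smul, sub_zero] at h1
  have hv' : v' ∈ TC (PadicAlgCl ℓ) (orth q (tate χ ρ)) := by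
    have h1 := TC_range Fr hNS v'
    rw [hNb, wdg_apply, a3, a2, one_smul, zero_smul, zero_sub] at h1
    have h2 := Submodule.neg_mem _ h1
    rwa [neg_neg] at h2
  obtain ⟨m, u, hm, u1, u2, u3, u4, u5, u6⟩ := exists_ortho2 hs
    (TC (PadicAlgCl ℓ) (orth q (tate χ ρ))) (TC_nondeg (form_nondeg h.symm h.nondeg) Fr) hv hv'
    a1 a2 a3
  have hfr : finrank (PadicAlgCl ℓ) (TC (PadicAlgCl ℓ) (orth q (tate χ ρ))) =
      finrank ℚ_[ℓ] (orth q (tate χ ρ)) := finrank_TC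
  have hm0 : 0 < m := by omega
  have honto : ∀ x ∈ bcS (PadicAlgCl ℓ) (lin (tateLie χ ρ)), ∃ X, (x, X) ∈ rel (PadicAlgCl ℓ) L := by
    intro x hx
    rw [hlin] at hx
    obtain ⟨z, hz, rfl⟩ := bC_onto hx
    exact ⟨bC3 z, rel_mem hz⟩
  have hskew : ∀ X ∈ L.map blk3, Skew (form q') X := by
    rintro _ ⟨X, hX, rfl⟩
    exact skew_of_tate h' (blk3_mem ((hLT X).1 hX)).2
  have hsk : ∀ P ∈ rel (PadicAlgCl ℓ) L, Skew (bcB (PadicAlgCl ℓ) (form q')) P.2 := by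
    intro P hP
    obtain ⟨z, hz, rfl⟩ := rel_iff hP
    exact bcS_skew hskew _ (bC3_mem hz)
  have hNR : (wdg (bcB (PadicAlgCl ℓ) (form q)) v' v, wdg (bcB (PadicAlgCl ℓ) (form q')) w' w) ∈
      rel (PadicAlgCl ℓ) L := by
    rw [← hNb, ← hNb']
    exact rel_mem hNL
  have hspan : ∀ P ∈ rel (PadicAlgCl ℓ) L, P.1 ∈ Submodule.span (PadicAlgCl ℓ)
      {X | ∃ x ∈ TC (PadicAlgCl ℓ) (orth q (tate χ ρ)), ∃ y ∈ TC (PadicAlgCl ℓ) (orth q (tate χ ρ)),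
        X = wdg (bcB (PadicAlgCl ℓ) (form q)) x y} := by
    intro P hP
    obtain ⟨z, hz, rfl⟩ := rel_iff hP
    refine TC_span Fr ?_
    rw [hlin]
    exact bC_mem hz
  obtain ⟨Ψ, hΨv, hΨ⟩ := inter (rel_br hd hd2 hLie) (rel_g1 G1) (rel_g2 G2) hsk hs a1 a2 a3 hm0 u
    u2 u3 u4 u5 hs' b1 b2 b3 hNR (fun i => honto _ (TC_wdg Fr hv (u1 i)))
    (fun i => honto _ (TC_wdg Fr hv' (u1 i))) u6 hspan
  refine ⟨Ψ, ⟨v, hv, hΨv⟩, fun X hX x => ?_⟩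
  have h1 := hΨ _ (rel_mem (mem_bcS hX)) x
  change Ψ (bC (X.baseChange (PadicAlgCl ℓ)) x) = bC3 (X.baseChange (PadicAlgCl ℓ)) (Ψ x) at h1
  rw [bC_bc, bC3_bc] at h1
  exact h1

/-- **Representations of K3 type without homomorphisms are apart.** -/
theorem foreign (h : IsK3Type q S χ Pol ρ) (hss : Semisimple ρ) (hc : ScalarEnds q χ ρ)
    (hd3 : 3 ≤ finrank ℚ_[ℓ] (orth q (tate χ ρ))) (hd4 : finrank ℚ_[ℓ] (orth q (tate χ ρ)) ≠ 4)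
    (h' : IsK3Type q' S' χ Pol' ρ') (hss' : Semisimple ρ') (hc' : ScalarEnds q' χ ρ')
    (hd3' : 3 ≤ finrank ℚ_[ℓ] (orth q' (tate χ ρ')))
    (hd4' : finrank ℚ_[ℓ] (orth q' (tate χ ρ')) ≠ 4)
    (hno : NoHom q χ ρ ρ') (hσ : FiniteIndexSemisimple σ) :
    ∀ X ∈ lieE χ ρ, ∃ Z ∈ LT ((rep χ ρ).prod ((rep χ ρ').prod σ)), blk Z = X ∧
      ∀ a, Z (0, (a, 0)) = 0 := by
  obtain ⟨L, hLT, hLie, hAd, -⟩ := Pool.Agent.Y41.RM.lieL' ℚ_[ℓ]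
    ((n → ℚ_[ℓ]) × ((n' → ℚ_[ℓ]) × W)) (GK K) ((rep χ ρ).prod ((rep χ ρ').prod σ))
  have hmap : L.map blk = lieE χ ρ := by
    refine le_antisymm ?_ ?_
    · rintro _ ⟨Z, hZ, rfl⟩
      exact lieE_of_lt (blk_mem ((hLT Z).1 hZ))
    · intro Y hY
      obtain ⟨Z, hZ, h1⟩ := lift_all h hss _ ((rep χ ρ').prod σ) Y hY
      exact ⟨Z, (hLT Z).2 hZ, h1⟩
  rcases dicho h hss hc hd3 hd4 h' hss' hc' hd3' hd4' hσ hLT hLie hAd hmap with hcon | ⟨G1, G2⟩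
  · exact hcon
  exfalso
  obtain ⟨Ψ, ⟨v, hv, hΨv⟩, hΨ⟩ := exists_psi h hss hc hd3 h' hss' hd3' hLT hLie hmap G1 G2
  -- descent
  have hdesc : ∀ (π : PadicAlgCl ℓ →ₗ[ℚ_[ℓ]] ℚ_[ℓ]), ∀ x ∈ orth q (tate χ ρ),
      pv π (Ψ ((1 : PadicAlgCl ℓ) ⊗ₜ[ℚ_[ℓ]] x)) = 0 := by
    intro π
    let Y : (n → ℚ_[ℓ]) →ₗ[ℚ_[ℓ]] (n' → ℚ_[ℓ]) :=
      { toFun := fun x => pv π (Ψ ((1 : PadicAlgCl ℓ) ⊗ₜ[ℚ_[ℓ]] x))
        map_add' := fun x y => by rw [TensorProduct.tmul_add, map_add, map_add]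
        map_smul' := fun c x => by
          have h1 : ((1 : PadicAlgCl ℓ) ⊗ₜ[ℚ_[ℓ]] (c • x) :
              PadicAlgCl ℓ ⊗[ℚ_[ℓ]] (n → ℚ_[ℓ])) = c • ((1 : PadicAlgCl ℓ) ⊗ₜ[ℚ_[ℓ]] x) :=
            TensorProduct.tmul_smul c (1 : PadicAlgCl ℓ) x
          rw [h1, ← algebraMap_smul (PadicAlgCl ℓ) c, map_smul, algebraMap_smul, map_smul]
          rfl }
    have hYa : ∀ x, Y x = pv π (Ψ ((1 : PadicAlgCl ℓ) ⊗ₜ[ℚ_[ℓ]] x)) := fun x => rfl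
    obtain ⟨U₀, hU₀, hU₀c⟩ := hom_open h.continuous.1 h'.continuous.1 h.continuous.2 hLT hAd Y (by
      intro X hX x
      have h1 := hΨ X hX ((1 : PadicAlgCl ℓ) ⊗ₜ[ℚ_[ℓ]] x)
      rw [LinearMap.baseChange_tmul] at h1
      rw [hYa, hYa, h1, pv_bc])
    have h2 := hno (LinearMap.toMatrix' Y) ⟨U₀, hU₀, fun g hg => by
      have h3 : tw χ ρ' g * LinearMap.toMatrix' Y = LinearMap.toMatrix' Y * tw χ ρ g := by
        refine Matrix.toLin'.injective (LinearMap.ext fun x => ?_)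
        rw [Matrix.toLin'_mul, Matrix.toLin'_mul, Matrix.toLin'_toMatrix']
        exact (hU₀c g hg x).symm
      rw [tw_apply, tw_apply, Matrix.smul_mul, Matrix.mul_smul] at h3
      have h4 := congrArg (fun M => χ g • M) h3
      simp only [smul_smul, mul_inv_cancel₀ (chi_ne χ g), one_smul] at h4
      exact h4⟩
    intro x hx
    have h5 := h2 x hx
    rw [← toLin'_apply, Matrix.toLin'_toMatrix'] at h5
    exact h5
  have hzero : ∀ x ∈ TC (PadicAlgCl ℓ) (orth q (tate χ ρ)), Ψ x = 0 := by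
    intro x hx
    refine TC_induction (P := fun x => Ψ x = 0) (map_zero Ψ) ?_ ?_ hx
    · intro c t ht
      have h1 : (c ⊗ₜ[ℚ_[ℓ]] t : PadicAlgCl ℓ ⊗[ℚ_[ℓ]] (n → ℚ_[ℓ])) =
          c • ((1 : PadicAlgCl ℓ) ⊗ₜ[ℚ_[ℓ]] t) := by
        rw [TensorProduct.smul_tmul', smul_eq_mul, mul_one]
      rw [h1, map_smul, eq_zero_of_pv _ fun π => hdesc π t ht, smul_zero]
    · intro x y hx hy
      rw [map_add, hx, hy, add_zero]
  exact hΨv (hzero v hv)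

end Pool.Agent.H851.MK
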