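import Mathlib
import Pool.Agent.H851.MK.Thm
import Pool.Agent.H851.KS.Pub

/-!
# Direct sums of representations of K3 type
-/

set_option autoImplicit false
set_option linter.unusedSectionVars false
set_option linter.unusedVariables false

namespace Pool.Agent.H851.MK

open Matrix Module TensorProduct Pool.Agent.Y114.RM Pool.Agent.TH118.SG Polynomial Topology
open NumberField IsDedekindDomain
open Pool.Agent.H851.K3 Pool.Agent.H851.KT Pool.Agent.H851.TT Pool.Agent.H851.ZD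
open Pool.Agent.H851.IN Pool.Agent.H851.KS
open Pool.Agent.NH56.HY (GK IsFrobenius tw tw_apply R chi_ne Near NonUnip)
open Pool.Agent.H204R3.GP (FiniteIndexSemisimple)

section gen

variable {k : Type} [Field k] {V A W W' : Type} [AddCommGroup V] [Module k V] [AddCommGroup A]
  [Module k A] [AddCommGroup W] [Module k W] [AddCommGroup W'] [Module k W'] {Γ : Type} [Group Γ]
  {r : Representation k Γ V} {τ : Representation k Γ A} {σ : Representation k Γ W}
  {σ' : Representation k Γ W'}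

/-- **Pieces.** -/
theorem piece_of [FiniteDimensional k W] {F : Submodule k W} {F' : Submodule k W}
    (p : F →ₗ[k] A) {Δ : Subgroup Γ} (hΔ : Δ.FiniteIndex) (hF : ∀ γ ∈ Δ, ∀ x ∈ F, σ γ x ∈ F)
    (hp : ∀ γ (hγ : γ ∈ Δ) (x : F), p ⟨σ γ x, hF γ hγ x x.2⟩ = τ γ (p x))
    (hker : ∀ x : F, p x = 0 → (x : W) ∈ F') {X : End k V}
    (hX : ∃ Z ∈ LT (r.prod (τ.prod σ)), blk Z = X ∧ ∀ a, Z (0, (a, 0)) = 0) :
    ∃ Z ∈ LT (r.prod σ), blk Z = X ∧ ∀ x ∈ F, blk2 Z x ∈ F' := by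
  obtain ⟨Z, hZ, hZX, hZA⟩ := hX
  let i : V × W →ₗ[k] V × (A × W) := LinearMap.prodMap LinearMap.id (LinearMap.inr k A W)
  let q : V × (A × W) →ₗ[k] V × W := LinearMap.prodMap LinearMap.id (LinearMap.snd k A W)
  have hi : ∀ x, i x = (x.1, (0, x.2)) := fun x => rfl
  have hq : ∀ x, q x = (x.1, x.2.2) := fun x => rfl
  refine ⟨q ∘ₗ Z ∘ₗ i, ?_, ?_, ?_⟩
  · refine lt_retract i q (fun x => rfl) (fun γ x => ?_) (fun γ x => rfl) hZ
    rw [hi, hi, prod_apply, prod_apply, prod_apply, map_zero]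
  · rw [← hZX]
    rfl
  · intro x hx
    -- the graph of `p`
    let G : Submodule k (V × (A × W)) :=
      { carrier := {z | z.1 = 0 ∧ ∃ y : F, (y : W) = z.2.2 ∧ p y = z.2.1}
        zero_mem' := ⟨rfl, 0, rfl, map_zero p⟩
        add_mem' := by
          rintro a b ⟨h1, y, h2, h3⟩ ⟨h4, y', h5, h6⟩
          exact ⟨by rw [Prod.fst_add, h1, h4, add_zero], y + y',
            by rw [Prod.snd_add, Prod.snd_add, ← h2, ← h5]; rfl,
            by rw [Prod.snd_add, Prod.fst_add, ← h3, ← h6, map_add]⟩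
        smul_mem' := by
          rintro c a ⟨h1, y, h2, h3⟩
          exact ⟨by rw [Prod.smul_fst, h1, smul_zero], c • y,
            by rw [Prod.smul_snd, Prod.smul_snd, ← h2]; rfl,
            by rw [Prod.smul_snd, Prod.smul_fst, ← h3, map_smul]⟩ }
    let H : Submodule k (V × (A × W)) :=
      { carrier := {z | z.1 = 0 ∧ z.2.1 = 0}
        zero_mem' := ⟨rfl, rfl⟩
        add_mem' := fun {a b} ha hb => ⟨by rw [Prod.fst_add, ha.1, hb.1, add_zero],
          by rw [Prod.snd_add, Prod.fst_add, ha.2, hb.2, add_zero]⟩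
        smul_mem' := fun c a ha => ⟨by rw [Prod.smul_fst, ha.1, smul_zero],
          by rw [Prod.smul_snd, Prod.smul_fst, ha.2, smul_zero]⟩ }
    have hG : Z (0, (p ⟨x, hx⟩, x)) ∈ G := by
      refine hZ.1 G ⟨Δ, hΔ, ?_⟩ _ ⟨rfl, ⟨x, hx⟩, rfl, rfl⟩
      rintro γ hγ z ⟨h1, y, h2, h3⟩
      refine ⟨?_, ⟨σ γ y, hF γ hγ y y.2⟩, ?_, ?_⟩
      · rw [prod_apply, h1, map_zero]
      · rw [prod_apply, prod_apply, ← h2]
      · rw [hp γ hγ, prod_apply, prod_apply, h3]
    have hH : Z (0, (0, x)) ∈ H := by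
      refine hZ.1 H ⟨⊤, inferInstance, ?_⟩ _ ⟨rfl, rfl⟩
      rintro γ - z ⟨h1, h2⟩
      exact ⟨by rw [prod_apply, h1, map_zero], by rw [prod_apply, prod_apply, h2, map_zero]⟩
    have h1 : Z (0, (p ⟨x, hx⟩, x)) = Z (0, (0, x)) := by
      have h2 : ((0, (p ⟨x, hx⟩, x)) : V × (A × W)) = (0, (p ⟨x, hx⟩, 0)) + (0, (0, x)) := by
        ext <;> simp
      rw [h2, map_add, hZA, zero_add]
    rw [h1] at hG
    obtain ⟨-, y, h2, h3⟩ := hG
    change (Z (0, (0, x))).2.2 ∈ F'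
    rw [← h2]
    refine hker y ?_
    rw [h3]
    exact hH.2

theorem semisimple_iso (e : W ≃ₗ[k] W') (he : ∀ g x, e (σ g x) = σ' g (e x))
    (h : FiniteIndexSemisimple σ') : FiniteIndexSemisimple σ := by
  intro Δ hΔ X hX
  obtain ⟨Y, hY, hc⟩ := h Δ hΔ (X.map (e : W →ₗ[k] W')) (by
    rintro g hg _ ⟨x, hx, rfl⟩
    exact ⟨σ g x, hX g hg x hx, he g x⟩)
  refine ⟨Y.comap (e : W →ₗ[k] W'), ?_, ?_⟩
  · intro g hg x hx
    have h1 := hY g hg _ hx
    change e (σ g x) ∈ Y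
    rw [he]
    exact h1
  · rw [isCompl_iff, Submodule.disjoint_def, Submodule.codisjoint_iff_exists_add_eq]
    constructor
    · intro x hx hx'
      have h1 : e x = 0 := (Submodule.disjoint_def.1 hc.disjoint) _ ⟨x, hx, rfl⟩ hx'
      exact (LinearEquiv.map_eq_zero_iff e).1 h1
    · intro z
      have h1 : e z ∈ X.map (e : W →ₗ[k] W') ⊔ Y := by rw [hc.sup_eq_top]; trivial
      obtain ⟨_, ⟨x, hx, rfl⟩, y, hy, h2⟩ := Submodule.mem_sup.1 h1
      refine ⟨x, e.symm y, hx, ?_, ?_⟩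
      · change e (e.symm y) ∈ Y
        rw [LinearEquiv.apply_symm_apply]
        exact hy
      · apply e.injective
        rw [map_add, LinearEquiv.apply_symm_apply]
        exact h2

end gen

section sum

variable {Γ : Type} [Group Γ] {ℓ : ℕ} [hℓ : Fact ℓ.Prime]

/-- the direct sum of the representations `ρ j`, twisted by the inverse of `χ` -/
noncomputable def sumTw {r : ℕ} {n : Fin r → Type} [∀ j, Fintype (n j)] [∀ j, DecidableEq (n j)]
    (χ : Γ →* ℚ_[ℓ]) (ρ : ∀ j, Γ →* Matrix (n j) (n j) ℚ_[ℓ]) :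
    Γ →* Matrix (Σ j, n j) (Σ j, n j) ℚ_[ℓ] where
  toFun g := Matrix.blockDiagonal' fun j => tw χ (ρ j) g
  map_one' := by
    simp only [map_one]
    exact Matrix.blockDiagonal'_one
  map_mul' g h := by
    simp only [map_mul]
    exact Matrix.blockDiagonal'_mul _ _

variable {r : ℕ} {n : Fin r → Type} [∀ j, Fintype (n j)] [∀ j, DecidableEq (n j)]
    {χ : Γ →* ℚ_[ℓ]} {ρ : ∀ j, Γ →* Matrix (n j) (n j) ℚ_[ℓ]}

theorem sumTw_apply (g : Γ) (x : (Σ j, n j) → ℚ_[ℓ]) (j : Fin r) (a : n j) :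
    (sumTw χ ρ g *ᵥ x) ⟨j, a⟩ = (tw χ (ρ j) g *ᵥ fun b => x ⟨j, b⟩) a := by
  change ∑ s : (Σ j, n j), Matrix.blockDiagonal' (fun j => tw χ (ρ j) g) ⟨j, a⟩ s * x s =
    ∑ b, tw χ (ρ j) g a b * x ⟨j, b⟩
  rw [Fintype.sum_sigma, Finset.sum_eq_single j]
  · refine Finset.sum_congr rfl fun b _ => ?_
    rw [Matrix.blockDiagonal'_apply_eq]
  · intro i _ hi
    refine Finset.sum_eq_zero fun b _ => ?_
    rw [Matrix.blockDiagonal'_apply_ne _ _ _ (Ne.symm hi), zero_mul]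
  · intro h
    exact absurd (Finset.mem_univ _) h

/-- the first summand and the others -/
noncomputable def consEquiv {r : ℕ} (n : Fin (r + 1) → Type) (ℓ : ℕ) [Fact ℓ.Prime] :
    ((Σ j, n j) → ℚ_[ℓ]) ≃ₗ[ℚ_[ℓ]] (n 0 → ℚ_[ℓ]) × ((Σ j : Fin r, n j.succ) → ℚ_[ℓ]) :=
  LinearEquiv.ofBijective
    { toFun := fun x => (fun a => x ⟨0, a⟩, fun s => x ⟨s.1.succ, s.2⟩)
      map_add' := fun _ _ => rfl
      map_smul' := fun _ _ => rfl }
    (by
      constructor
      · intro x y h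
        funext s
        obtain ⟨j, a⟩ := s
        induction j using Fin.cases with
        | zero => exact congrFun (congrArg Prod.fst h) a
        | succ j => exact congrFun (congrArg Prod.snd h) ⟨j, a⟩
      · rintro ⟨y, z⟩
        refine ⟨fun s => Fin.cases (motive := fun j => n j → ℚ_[ℓ]) y (fun j a => z ⟨j, a⟩)
          s.1 s.2, ?_⟩
        refine Prod.ext ?_ ?_
        · rfl
        · rfl)

end sum

section semi

variable {K : Type} [Field K] [NumberField K] {ℓ : ℕ} [hℓ : Fact ℓ.Prime]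

theorem sum_semisimple {χ : GK K →* ℚ_[ℓ]} : ∀ {r : ℕ} {n : Fin r → Type} [∀ j, Fintype (n j)]
    [∀ j, DecidableEq (n j)] {ρ : ∀ j, GK K →* Matrix (n j) (n j) ℚ_[ℓ]},
    (∀ j, Semisimple (ρ j)) → FiniteIndexSemisimple (matRep (sumTw χ ρ)) := by
  intro r
  induction r with
  | zero =>
    intro n _ _ ρ _ Δ hΔ X hX
    refine ⟨⊤, fun _ _ _ _ => trivial, ?_⟩
    have hsub : Subsingleton ((Σ j : Fin 0, n j) → ℚ_[ℓ]) :=
      ⟨fun x y => funext fun s => s.1.elim0⟩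
    have h1 : X = ⊥ := Subsingleton.elim _ _
    rw [h1]
    exact isCompl_bot_top
  | succ r ih =>
    intro n _ _ ρ hρ
    refine semisimple_iso (σ' := (rep χ (ρ 0)).prod (matRep (sumTw χ fun j : Fin r => ρ j.succ)))
      (consEquiv n ℓ) ?_ (prod_semisimple (finiteIndexSemisimple (hρ 0))
        (ih (ρ := fun j => ρ j.succ) fun j => hρ j.succ))
    intro g x
    refine Prod.ext ?_ ?_
    · funext a
      exact sumTw_apply g x 0 a
    · funext s
      obtain ⟨j, a⟩ := s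
      exact (sumTw_apply g x j.succ a).trans
        (sumTw_apply (ρ := fun j : Fin r => ρ j.succ) g (fun s => x ⟨s.1.succ, s.2⟩) j a).symm

end semi

section main

variable {K : Type} [Field K] [NumberField K] {ℓ : ℕ} [hℓ : Fact ℓ.Prime] {n : Type}
    [Fintype n] [DecidableEq n] {q : Matrix n n ℚ_[ℓ]} {S : Finset ℕ} {χ : GK K →* ℚ_[ℓ]}
    {Pol : HeightOneSpectrum (𝓞 K) → ℤ[X]} {ρ : GK K →* Matrix n n ℚ_[ℓ]}

/-- A representation of K3 type, semisimple, with scalar Tate endomorphisms on the transcendental part, whose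
dimension is at least three and not four -/
structure Scalar (q : Matrix n n ℚ_[ℓ]) (S : Finset ℕ) (χ : GK K →* ℚ_[ℓ])
    (Pol : HeightOneSpectrum (𝓞 K) → ℤ[X]) (ρ : GK K →* Matrix n n ℚ_[ℓ]) : Prop where
  k3 : IsK3Type q S χ Pol ρ
  semisimple : Semisimple ρ
  scalar : ScalarEnds q χ ρ
  three : 3 ≤ finrank ℚ_[ℓ] (orth q (tate χ ρ))
  four : finrank ℚ_[ℓ] (orth q (tate χ ρ)) ≠ 4

/-- **A representation of K3 type and a direct sum of others.** -/
theorem splits_sum (h : Scalar q S χ Pol ρ) {r : ℕ} {n' : Fin r → Type} [∀ j, Fintype (n' j)]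
    [∀ j, DecidableEq (n' j)] {q' : ∀ j, Matrix (n' j) (n' j) ℚ_[ℓ]} {S' : Fin r → Finset ℕ}
    {Pol' : Fin r → HeightOneSpectrum (𝓞 K) → ℤ[X]}
    {ρ' : ∀ j, GK K →* Matrix (n' j) (n' j) ℚ_[ℓ]}
    (h' : ∀ j, Scalar (q' j) (S' j) χ (Pol' j) (ρ' j)) (hno : ∀ j, NoHom q χ ρ (ρ' j)) :
    Splits χ ρ (sumTw χ ρ') := by
  intro X hX
  let F : ℕ → Submodule ℚ_[ℓ] ((Σ j, n' j) → ℚ_[ℓ]) := fun k =>
    { carrier := {x | ∀ s : Σ j, n' j, k ≤ s.1.val → x s = 0}
      zero_mem' := fun s _ => rfl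
      add_mem' := fun {x y} hx hy s hs => by
        rw [Pi.add_apply, hx s hs, hy s hs, add_zero]
      smul_mem' := fun c x hx s hs => by rw [Pi.smul_apply, hx s hs, smul_zero] }
  have hF : ∀ k x, x ∈ F k ↔ ∀ s : Σ j, n' j, k ≤ s.1.val → x s = 0 := fun k x => Iff.rfl
  have hst : ∀ i, ∀ γ ∈ (⊤ : Subgroup (GK K)), ∀ x ∈ F i, matRep (sumTw χ ρ') γ x ∈ F i := by
    intro i γ _ x hx
    rw [hF] at hx ⊢
    rintro ⟨j, a⟩ hs
    rw [matRep_apply, sumTw_apply]
    have h1 : (fun b => x ⟨j, b⟩) = 0 := funext fun b => hx ⟨j, b⟩ hs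
    rw [h1, Matrix.mulVec_zero]
    rfl
  refine split h.k3 h.semisimple h.scalar h.three h.four (matRep (sumTw χ ρ')) (Δ := ⊤)
    inferInstance r F ?_ ?_ ?_ hst (fun i hi => Or.inr (Or.inr ?_)) hX
  · rw [eq_bot_iff]
    intro x hx
    rw [Submodule.mem_bot]
    exact funext fun s => (hF 0 x).1 hx s (Nat.zero_le _)
  · rw [eq_top_iff]
    rintro x -
    refine (hF r x).2 fun s hs => ?_
    exact absurd s.1.isLt (not_lt.2 hs)
  · intro i x hx
    exact (hF _ x).2 fun s hs => (hF i x).1 hx s (by omega)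
  · intro Y hY
    let j : Fin r := ⟨i, hi⟩
    let p : F (i + 1) →ₗ[ℚ_[ℓ]] (n' j → ℚ_[ℓ]) :=
      { toFun := fun x b => x.1 ⟨j, b⟩
        map_add' := fun _ _ => rfl
        map_smul' := fun _ _ => rfl }
    refine piece_of (τ := rep χ (ρ' j)) p (Δ := ⊤) inferInstance (hst (i + 1)) ?_ ?_
      (foreign h.k3 h.semisimple h.scalar h.three h.four (h' j).k3 (h' j).semisimple
        (h' j).scalar (h' j).three (h' j).four (hno j)
        (sum_semisimple fun j => (h' j).semisimple) Y hY)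
    · intro γ _ x
      funext b
      exact sumTw_apply γ x.1 j b
    · intro x hx
      refine (hF i _).2 fun s hs => ?_
      obtain ⟨j', b⟩ := s
      by_cases h1 : j' = j
      · subst h1
        exact congrFun hx b
      · refine (hF (i + 1) _).1 x.2 ⟨j', b⟩ ?_
        have h2 : j'.val ≠ i := fun h3 => h1 (Fin.ext h3)
        change i + 1 ≤ j'.val
        change i ≤ j'.val at hs
        omega

end main

end Pool.Agent.H851.MK
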