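import Mathlib
import Pool.Agent.H851.MK.Sum

/-!
# Homomorphisms are the only obstruction
-/

set_option autoImplicit false
set_option linter.unusedSectionVars false
set_option linter.unusedVariables false

namespace Pool.Agent.H851.MK

open Matrix Module TensorProduct Pool.Agent.Y114.RM Pool.Agent.TH118.SG Polynomial Topology
open NumberField IsDedekindDomain
open Pool.Agent.H851.K3 Pool.Agent.H851.KT Pool.Agent.H851.TT Pool.Agent.H851.ZD
open Pool.Agent.H851.IN Pool.Agent.H851.KS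
open Pool.Agent.NH56.HY (GK IsFrobenius tw tw_apply R chi_ne Near NonUnip)
open Pool.Agent.H204R3.GP (FiniteIndexSemisimple)

variable {K : Type} [Field K] [NumberField K] {ℓ : ℕ} [hℓ : Fact ℓ.Prime] {n : Type}
    [Fintype n] [DecidableEq n] {q : Matrix n n ℚ_[ℓ]} {S : Finset ℕ} {χ : GK K →* ℚ_[ℓ]}
    {Pol : HeightOneSpectrum (𝓞 K) → ℤ[X]} {ρ : GK K →* Matrix n n ℚ_[ℓ]}
    {r : ℕ} {n' : Fin r → Type} [∀ j, Fintype (n' j)]
    [∀ j, DecidableEq (n' j)] {q' : ∀ j, Matrix (n' j) (n' j) ℚ_[ℓ]} {S' : Fin r → Finset ℕ}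
    {Pol' : Fin r → HeightOneSpectrum (𝓞 K) → ℤ[X]}
    {ρ' : ∀ j, GK K →* Matrix (n' j) (n' j) ℚ_[ℓ]}

/-- operators which vanish on the images of the elements of the Lie algebra vanish on `T` -/
theorem zero_on_T (h : Scalar q S χ Pol ρ) {m : Type} [Fintype m] {Y : Matrix m n ℚ_[ℓ]}
    (hY : ∀ X ∈ tateLie χ ρ, ∀ x, Y *ᵥ (X *ᵥ x) = 0) : ∀ x ∈ orth q (tate χ ρ), Y *ᵥ x = 0 := by
  obtain ⟨a, U, W, F⟩ := exists_frame h.k3 h.semisimple h.scalar
  have hd := h.three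
  have he : ∀ i, Y *ᵥ (U *ᵥ Pi.single i 1) = 0 := by
    intro i
    obtain ⟨k, hk⟩ : ∃ k : Fin (finrank ℚ_[ℓ] (orth q (tate χ ρ))), k ≠ i := by
      have : Nontrivial (Fin (finrank ℚ_[ℓ] (orth q (tate χ ρ)))) :=
        Fin.nontrivial_iff_two_le.2 (by omega)
      exact exists_ne i
    have h1 := hY _ (Frame_wdg F (F.left (Pi.single k 1)) (F.left (Pi.single i 1)))
      (U *ᵥ Pi.single k 1)
    have h2 : ∀ s t, form q (U *ᵥ Pi.single s 1) (U *ᵥ Pi.single t 1) =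
        if s = t then a s else 0 := by
      intro s t
      rw [Frame_form F, Matrix.mulVec_mulVec _ W U, F.one, Matrix.one_mulVec]
      rw [Finset.sum_eq_single s]
      · by_cases hst : s = t
        · subst hst
          simp
        · rw [if_neg hst, Pi.single_eq_of_ne hst, mul_zero, mul_zero]
      · intro b _ hb
        rw [Pi.single_eq_of_ne hb, zero_mul]
      · intro h'
        exact absurd (Finset.mem_univ _) h'
    have h3 : ∀ (f : (n → ℚ_[ℓ]) →ₗ[ℚ_[ℓ]] (n → ℚ_[ℓ])) (v : n → ℚ_[ℓ]),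
        LinearMap.toMatrix' f *ᵥ v = f v := fun f v => by
      rw [← toLin'_apply, toLin'_toMatrix']
    rw [h3, wdg_apply, h2, h2, if_pos rfl, if_neg (Ne.symm hk),
      zero_smul, sub_zero, Matrix.mulVec_smul] at h1
    exact (smul_eq_zero.1 h1).resolve_left (F.ne k)
  intro x hx
  rw [← F.right x hx, mulVec_sum_single U (W *ᵥ x), Matrix.mulVec_sum]
  refine Finset.sum_eq_zero fun i _ => ?_
  rw [Matrix.mulVec_smul, he, smul_zero]

/-- independence implies that there are no homomorphisms -/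
theorem noHom_of_splits (h : Scalar q S χ Pol ρ) (hsp : Splits χ ρ (sumTw χ ρ')) (j : Fin r) :
    NoHom q χ ρ (ρ' j) := by
  rintro Y ⟨U, hU, hUY⟩
  have hcomp : CompactSpace (GK K) := inferInstance
  have hfin : Finite (GK K ⧸ U) := Subgroup.quotient_finite_of_isOpen _ hU
  have hUf : U.FiniteIndex := Subgroup.finiteIndex_of_finite_quotient
  refine zero_on_T h fun X hX x => ?_
  have h1 := (hsp X hX).1
  -- the graph
  let G : Submodule ℚ_[ℓ] ((n → ℚ_[ℓ]) × ((Σ j, n' j) → ℚ_[ℓ])) :=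
    { carrier := {z | (∀ b, z.2 ⟨j, b⟩ = (Y *ᵥ z.1) b)}
      zero_mem' := fun b => by
        change (0 : ℚ_[ℓ]) = (Y *ᵥ 0) b
        rw [Matrix.mulVec_zero]
        rfl
      add_mem' := fun {x y} hx hy b => by
        rw [Prod.snd_add, Prod.fst_add, Pi.add_apply, hx b, hy b, Matrix.mulVec_add]
        rfl
      smul_mem' := fun c x hx b => by
        rw [Prod.smul_snd, Prod.smul_fst, Pi.smul_apply, hx b, Matrix.mulVec_smul]
        rfl }
  have hG : ∀ z, z ∈ G ↔ ∀ b, z.2 ⟨j, b⟩ = (Y *ᵥ z.1) b := fun z => Iff.rfl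
  have htw : ∀ g ∈ U, tw χ (ρ' j) g * Y = Y * tw χ ρ g := by
    intro g hg
    rw [tw_apply, tw_apply, Matrix.smul_mul, Matrix.mul_smul, hUY g hg]
  have h2 := h1 G ⟨U, hUf, fun g hg z hz => by
    rw [hG] at hz ⊢
    intro b
    rw [prod_apply]
    change (sumTw χ ρ' g *ᵥ z.2) ⟨j, b⟩ = (Y *ᵥ (tw χ ρ g *ᵥ z.1)) b
    rw [sumTw_apply, Matrix.mulVec_mulVec, ← htw g hg, ← Matrix.mulVec_mulVec]
    congr 2
    funext b
    exact hz b⟩ (x, fun s => if hs : s.1 = j then (Y *ᵥ x) (hs ▸ s.2) else 0) (by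
      rw [hG]
      intro b
      change (if hs : j = j then (Y *ᵥ x) (hs ▸ b) else 0) = _
      rw [dif_pos rfl])
  rw [hG] at h2
  funext b
  have h3 := h2 b
  rw [ext1_apply] at h3
  change (0 : ℚ_[ℓ]) = (Y *ᵥ (X *ᵥ x)) b at h3
  exact h3.symm

end Pool.Agent.H851.MK
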