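import Mathlib
import Pool.Agent.H851.MK.Conv

/-!
# Forms detect homomorphisms
-/

set_option autoImplicit false
set_option linter.unusedSectionVars false
set_option linter.unusedVariables false

namespace Pool.Agent.H851.MK

open Matrix Module TensorProduct Pool.Agent.Y114.RM Pool.Agent.TH118.SG Polynomial Topology
open NumberField IsDedekindDomain
open Pool.Agent.N429.KS (chg)
open Pool.Agent.H851.K3 Pool.Agent.H851.KT Pool.Agent.H851.TT Pool.Agent.H851.ZD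
open Pool.Agent.H851.IN Pool.Agent.H851.KS
open Pool.Agent.NH56.HY (GK IsFrobenius tw tw_apply R chi_ne Near NonUnip)
open Pool.Agent.H204R3.GP (FiniteIndexSemisimple)

variable {K : Type} [Field K] [NumberField K] {ℓ : ℕ} [hℓ : Fact ℓ.Prime] {n : Type}
    [Fintype n] [DecidableEq n] {q : Matrix n n ℚ_[ℓ]} {S : Finset ℕ} {χ : GK K →* ℚ_[ℓ]}
    {Pol : HeightOneSpectrum (𝓞 K) → ℤ[X]} {ρ : GK K →* Matrix n n ℚ_[ℓ]}

/-- invariant linear forms vanish on the transcendental part -/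
theorem unit_kill (h : IsK3Type q S χ Pol ρ) {f : (Unit → n) → ℚ_[ℓ]}
    (hf : InvForm (tw χ ρ) f) {x : n → ℚ_[ℓ]} (hx : x ∈ orth q (tate χ ρ)) :
    ∑ a, x a * f (fun _ => a) = 0 := by
  obtain ⟨U, hU, hUf⟩ := hf
  let v : n → ℚ_[ℓ] := fun a => f fun _ => a
  have hv : ∀ g ∈ U, (tw χ ρ g)ᵀ *ᵥ v = v := by
    intro g hg
    funext a
    have h1 := congrFun (hUf g hg) (fun _ => a)
    rw [chg] at h1
    have h2 : ∑ J' : Unit → n, (∏ s, tw χ ρ g (J' s) a) • f J' =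
        ∑ b, tw χ ρ g b a * v b := by
      rw [← Equiv.sum_comp (Equiv.funUnique Unit n).symm]
      refine Finset.sum_congr rfl fun b _ => ?_
      rw [Fintype.prod_unique, smul_eq_mul]
      rfl
    rw [h2] at h1
    exact h1
  have hqi := Matrix.mulVec_injective_of_isUnit
    ((Matrix.isUnit_iff_isUnit_det q).2 h.nondeg.isUnit)
  have hqu : IsUnit q.det := h.nondeg.isUnit
  have hqt : q *ᵥ (q⁻¹ *ᵥ v) = v := by
    rw [Matrix.mulVec_mulVec, Matrix.mul_nonsing_inv _ hqu, Matrix.one_mulVec]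
  have ht : q⁻¹ *ᵥ v ∈ tate χ ρ := by
    refine ⟨U, hU, fun g hg => tate_tw.2 ?_⟩
    apply hqi
    have h0 := tw_form h g
    have h1 : (tw χ ρ g)ᵀ *ᵥ (q *ᵥ (tw χ ρ g *ᵥ (q⁻¹ *ᵥ v))) = (tw χ ρ g)ᵀ *ᵥ (q *ᵥ (q⁻¹ *ᵥ v)) := by
      rw [hqt, hv g hg, Matrix.mulVec_mulVec, Matrix.mulVec_mulVec, h0, hqt]
    have h2 : IsUnit (tw χ ρ g)ᵀ := by
      rw [Matrix.isUnit_iff_isUnit_det, Matrix.det_transpose, ← Matrix.isUnit_iff_isUnit_det]
      exact (Group.isUnit g).map (tw χ ρ)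
    exact Matrix.mulVec_injective_of_isUnit h2 h1
  have h3 := hx _ ht
  rw [← form_apply, form_symm h.symm, form_apply, hqt] at h3
  exact h3

variable {r : ℕ} {n' : Fin r → Type} [∀ j, Fintype (n' j)]
    [∀ j, DecidableEq (n' j)] {q' : ∀ j, Matrix (n' j) (n' j) ℚ_[ℓ]} {S' : Fin r → Finset ℕ}
    {Pol' : Fin r → HeightOneSpectrum (𝓞 K) → ℤ[X]}
    {ρ' : ∀ j, GK K →* Matrix (n' j) (n' j) ℚ_[ℓ]}

/-- the inclusion of a summand -/
noncomputable def incl (n' : Fin r → Type) [∀ j, DecidableEq (n' j)] (ℓ : ℕ) [Fact ℓ.Prime] (j : Fin r) :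
    Matrix (Σ j, n' j) (n' j) ℚ_[ℓ] :=
  fun s b => if s = ⟨j, b⟩ then 1 else 0

theorem incl_transpose (j : Fin r) (x : (Σ j, n' j) → ℚ_[ℓ]) :
    (incl n' ℓ j)ᵀ *ᵥ x = fun b => x ⟨j, b⟩ := by
  funext b
  change ∑ s, (if s = ⟨j, b⟩ then (1 : ℚ_[ℓ]) else 0) * x s = x ⟨j, b⟩
  rw [Finset.sum_eq_single (⟨j, b⟩ : Σ j, n' j)]
  · rw [if_pos rfl, one_mul]
  · intro s _ hs
    rw [if_neg hs, zero_mul]
  · intro h'
    exact absurd (Finset.mem_univ _) h'

theorem incl_comm {χ : GK K →* ℚ_[ℓ]} (g : GK K) (j : Fin r) :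
    (incl n' ℓ j)ᵀ * sumTw χ ρ' g = tw χ (ρ' j) g * (incl n' ℓ j)ᵀ := by
  apply Matrix.toLin'.injective
  apply LinearMap.ext
  intro x
  rw [Matrix.toLin'_apply, Matrix.toLin'_apply, ← Matrix.mulVec_mulVec, ← Matrix.mulVec_mulVec,
    incl_transpose, incl_transpose]
  funext b
  exact sumTw_apply g x j b

/-- **Forms detect homomorphisms.** -/
theorem noHom_of_forms (h : IsK3Type q S χ Pol ρ)
    (h' : ∀ j, IsK3Type (q' j) (S' j) χ (Pol' j) (ρ' j))
    (hf : ∀ F : (Unit → n) → (Unit → Σ j, n' j) → ℚ_[ℓ],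
      MixInv (tw χ ρ) (sumTw χ ρ') F → F ∈ prodForms (tw χ ρ) (sumTw χ ρ') Unit Unit)
    (j : Fin r) : NoHom q χ ρ (ρ' j) := by
  rintro Y ⟨U, hU, hUY⟩ x hx
  have htw : ∀ g ∈ U, tw χ (ρ' j) g * Y = Y * tw χ ρ g := by
    intro g hg
    rw [tw_apply, tw_apply, Matrix.smul_mul, Matrix.mul_smul, hUY g hg]
  let M : Matrix n (Σ j, n' j) ℚ_[ℓ] := Yᵀ * q' j * (incl n' ℓ j)ᵀ
  have hM : ∀ g ∈ U, (tw χ ρ g)ᵀ * M * sumTw χ ρ' g = M := by
    intro g hg
    have h1 : (tw χ ρ g)ᵀ * M * sumTw χ ρ' g =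
        (Y * tw χ ρ g)ᵀ * q' j * ((incl n' ℓ j)ᵀ * sumTw χ ρ' g) := by
      rw [Matrix.transpose_mul]
      simp only [M, Matrix.mul_assoc]
    rw [h1, incl_comm, ← htw g hg, Matrix.transpose_mul]
    have h2 := tw_form (h' j) g
    calc Yᵀ * (tw χ (ρ' j) g)ᵀ * q' j * (tw χ (ρ' j) g * (incl n' ℓ j)ᵀ)
        = Yᵀ * ((tw χ (ρ' j) g)ᵀ * q' j * tw χ (ρ' j) g) * (incl n' ℓ j)ᵀ := by
          simp only [Matrix.mul_assoc]
      _ = M := by rw [h2]
  have hF : MixInv (tw χ ρ) (sumTw χ ρ') (fun (J : Unit → n) (I : Unit → Σ j, n' j) =>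
      M (J ()) (I ())) := by
    refine ⟨U, hU, fun g hg J I => ?_⟩
    have h1 : ∑ J' : Unit → n, ∑ I' : Unit → Σ j, n' j,
        ((∏ a, tw χ ρ g (J' a) (J a)) * ∏ b, sumTw χ ρ' g (I' b) (I b)) * M (J' ()) (I' ()) =
        ∑ a, ∑ s, (tw χ ρ g a (J ()) * sumTw χ ρ' g s (I ())) * M a s := by
      rw [← Equiv.sum_comp (Equiv.funUnique Unit n).symm]
      refine Finset.sum_congr rfl fun a _ => ?_
      rw [← Equiv.sum_comp (Equiv.funUnique Unit (Σ j, n' j)).symm]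
      refine Finset.sum_congr rfl fun s _ => ?_
      rw [Fintype.prod_unique, Fintype.prod_unique]
      rfl
    refine h1.trans ?_
    have h2 : ((tw χ ρ g)ᵀ * M * sumTw χ ρ' g) (J ()) (I ()) = M (J ()) (I ()) := by
      rw [hM g hg]
    refine Eq.trans ?_ h2
    rw [Matrix.mul_apply, Finset.sum_comm]
    refine Finset.sum_congr rfl fun s _ => ?_
    rw [Matrix.mul_apply, Finset.sum_mul]
    refine Finset.sum_congr rfl fun a _ => ?_
    rw [Matrix.transpose_apply]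
    ring
  have h1 := hf _ hF
  have h2 : ∀ F ∈ prodForms (tw χ ρ) (sumTw χ ρ') Unit Unit, ∀ s : Σ j, n' j,
      ∑ a, x a * F (fun _ => a) (fun _ => s) = 0 := by
    intro F hF
    induction hF using Submodule.span_induction with
    | mem F hF =>
      obtain ⟨f, g, hf, -, rfl⟩ := hF
      intro s
      have h3 : ∑ a, x a * (f (fun _ => a) * g fun _ => s) =
          (∑ a, x a * f fun _ => a) * g fun _ => s := by
        rw [Finset.sum_mul]
        exact Finset.sum_congr rfl fun a _ => by ring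
      rw [h3, unit_kill h hf hx, zero_mul]
    | zero =>
      intro s
      exact Finset.sum_eq_zero fun a _ => mul_zero _
    | add F G _ _ h3 h4 =>
      intro s
      have h5 : ∑ a, x a * (F + G) (fun _ => a) (fun _ => s) =
          ∑ a, x a * F (fun _ => a) (fun _ => s) + ∑ a, x a * G (fun _ => a) (fun _ => s) := by
        rw [← Finset.sum_add_distrib]
        exact Finset.sum_congr rfl fun a _ => mul_add _ _ _
      rw [h5, h3, h4, add_zero]
    | smul c F _ h3 =>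
      intro s
      have h5 : ∑ a, x a * (c • F) (fun _ => a) (fun _ => s) =
          c * ∑ a, x a * F (fun _ => a) (fun _ => s) := by
        rw [Finset.mul_sum]
        refine Finset.sum_congr rfl fun a _ => ?_
        change x a * (c * _) = _
        ring
      rw [h5, h3, mul_zero]
  have h3 : q' j *ᵥ (Y *ᵥ x) = 0 := by
    funext b
    have h4 := h2 _ h1 ⟨j, b⟩
    have h5 : (incl n' ℓ j *ᵥ ((q' j)ᵀ *ᵥ (Y *ᵥ x))) ⟨j, b⟩ = 0 := by
      have h6 : Mᵀ *ᵥ x = incl n' ℓ j *ᵥ ((q' j)ᵀ *ᵥ (Y *ᵥ x)) := by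
        simp only [M, Matrix.transpose_mul, Matrix.transpose_transpose, ← Matrix.mulVec_mulVec]
      rw [← h6, ← h4]
      change ∑ a, M a ⟨j, b⟩ * x a = _
      exact Finset.sum_congr rfl fun a _ => mul_comm _ _
    rw [(h' j).symm] at h5
    have h7 : ∀ y : n' j → ℚ_[ℓ], (incl n' ℓ j *ᵥ y) ⟨j, b⟩ = y b := by
      intro y
      change ∑ c, (if (⟨j, b⟩ : Σ j, n' j) = ⟨j, c⟩ then (1 : ℚ_[ℓ]) else 0) * y c = y b
      rw [Finset.sum_eq_single b]
      · rw [if_pos rfl, one_mul]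
      · intro c _ hc
        rw [if_neg, zero_mul]
        intro h8
        exact hc (eq_of_heq (Sigma.mk.inj h8).2).symm
      · intro h'
        exact absurd (Finset.mem_univ _) h'
    rw [h7] at h5
    exact h5
  exact Matrix.mulVec_injective_of_isUnit
    ((Matrix.isUnit_iff_isUnit_det (q' j)).2 (h' j).nondeg.isUnit)
    (h3.trans (Matrix.mulVec_zero _).symm)

/-- **Independence.** -/
theorem independence (h : Scalar q S χ Pol ρ)
    (h' : ∀ j, Scalar (q' j) (S' j) χ (Pol' j) (ρ' j)) :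
    List.TFAE [∀ j, NoHom q χ ρ (ρ' j), Splits χ ρ (sumTw χ ρ'),
      ∀ (A B : Type) [Fintype A] [DecidableEq A] [Fintype B] [DecidableEq B]
        (F : (A → n) → (B → Σ j, n' j) → ℚ_[ℓ]),
        MixInv (tw χ ρ) (sumTw χ ρ') F → F ∈ prodForms (tw χ ρ) (sumTw χ ρ') A B] := by
  tfae_have 1 → 2 := fun hno => splits_sum h h' hno
  tfae_have 2 → 3 := fun hsp A B _ _ _ _ F hF => mix_main h.k3 h.semisimple hsp hF
  tfae_have 3 → 1 := fun hf => noHom_of_forms h.k3 (fun j => (h' j).k3) fun F hF => hf Unit Unit F hF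
  tfae_finish

end Pool.Agent.H851.MK
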