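import Mathlib
import Pool.Agent.H851.MK.Forms

/-!
# The Lie algebra of a sum of representations of K3 type
-/

set_option autoImplicit false
set_option linter.unusedSectionVars false
set_option linter.unusedVariables false

namespace Pool.Agent.H851.MK

open Matrix Module TensorProduct Pool.Agent.Y114.RM Pool.Agent.TH118.SG Polynomial Topology
open NumberField IsDedekindDomain
open Pool.Agent.H851.K3 Pool.Agent.H851.KT Pool.Agent.H851.TT Pool.Agent.H851.ZD
open Pool.Agent.H851.IN Pool.Agent.H851.KS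
open Pool.Agent.NH56.HY (GK IsFrobenius tw tw_apply R chi_ne Near NonUnip)
open Pool.Agent.H204R3.GP (FiniteIndexSemisimple)

section gen

variable {k : Type} [Field k] {Γ : Type} [Group Γ] {A B : Type} [AddCommGroup A] [Module k A]
  [AddCommGroup B] [Module k B] {r : Representation k Γ A} {s : Representation k Γ B}

/-- the elements of the Lie algebra commute with homomorphisms -/
theorem lt_map {Δ : Subgroup Γ} (hΔ : Δ.FiniteIndex) (φ : A →ₗ[k] B)
    (hφ : ∀ γ ∈ Δ, ∀ x, φ (r γ x) = s γ (φ x)) {Z : End k (A × B)} (hZ : Z ∈ LT (r.prod s))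
    (x : A) : φ (blk Z x) = blk2 Z (φ x) := by
  let G : Submodule k (A × B) :=
    { carrier := {z | z.2 = φ z.1}
      zero_mem' := (map_zero φ).symm
      add_mem' := fun {a b} ha hb => by
        change a.2 + b.2 = φ (a.1 + b.1)
        rw [map_add, ← show a.2 = φ a.1 from ha, ← show b.2 = φ b.1 from hb]
      smul_mem' := fun c a ha => by
        change c • a.2 = φ (c • a.1)
        rw [map_smul, ← show a.2 = φ a.1 from ha] }
  have h1 : Z (x, φ x) ∈ G := by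
    refine hZ.1 G ⟨Δ, hΔ, fun γ hγ z hz => ?_⟩ _ rfl
    change s γ z.2 = φ (r γ z.1)
    rw [hφ γ hγ, ← show z.2 = φ z.1 from hz]
  rw [lt_diag hZ] at h1
  exact h1.symm

end gen

section sum

variable {ℓ : ℕ} [hℓ : Fact ℓ.Prime] {r : ℕ} {n : Fin r → Type} [∀ j, Fintype (n j)]
  [∀ j, DecidableEq (n j)]

/-- the projection to a summand -/
noncomputable def pr (j : Fin r) : ((Σ j, n j) → ℚ_[ℓ]) →ₗ[ℚ_[ℓ]] (n j → ℚ_[ℓ]) where
  toFun x b := x ⟨j, b⟩
  map_add' _ _ := rfl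
  map_smul' _ _ := rfl

/-- the inclusion of a summand -/
noncomputable def inc (j : Fin r) : (n j → ℚ_[ℓ]) →ₗ[ℚ_[ℓ]] ((Σ j, n j) → ℚ_[ℓ]) where
  toFun x s := if h : s.1 = j then x (h ▸ s.2) else 0
  map_add' x y := by
    funext s
    by_cases h : s.1 = j
    · simp only [dif_pos h, Pi.add_apply]
    · simp only [dif_neg h, Pi.add_apply, add_zero]
  map_smul' c x := by
    funext s
    by_cases h : s.1 = j
    · simp only [dif_pos h, Pi.smul_apply, RingHom.id_apply]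
    · simp only [dif_neg h, Pi.smul_apply, smul_zero]

theorem pr_apply (j : Fin r) (x : (Σ j, n j) → ℚ_[ℓ]) (b : n j) : pr j x b = x ⟨j, b⟩ := rfl

theorem pr_inc (j : Fin r) (x : n j → ℚ_[ℓ]) : pr j (inc j x) = x := by
  funext b
  change (if h : j = j then x (h ▸ b) else 0) = x b
  rw [dif_pos rfl]

theorem pr_inc_ne {i j : Fin r} (hij : i ≠ j) (x : n j → ℚ_[ℓ]) : pr i (inc j x) = 0 := by
  funext b
  change (if h : i = j then x (h ▸ b) else 0) = 0
  rw [dif_neg hij]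

theorem ext_pr {x y : (Σ j, n j) → ℚ_[ℓ]} (h : ∀ j, pr j x = pr j y) : x = y := by
  funext s
  exact congrFun (h s.1) s.2

/-- the direct sum of endomorphisms -/
noncomputable def bd (X : ∀ j, End ℚ_[ℓ] (n j → ℚ_[ℓ])) : End ℚ_[ℓ] ((Σ j, n j) → ℚ_[ℓ]) where
  toFun x s := X s.1 (pr s.1 x) s.2
  map_add' x y := by
    funext s
    simp only [map_add, Pi.add_apply]
  map_smul' c x := by
    funext s
    simp only [map_smul, Pi.smul_apply, RingHom.id_apply]

theorem pr_bd (X : ∀ j, End ℚ_[ℓ] (n j → ℚ_[ℓ])) (j : Fin r) (x : (Σ j, n j) → ℚ_[ℓ]) :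
    pr j (bd X x) = X j (pr j x) := rfl

variable {Γ : Type} [Group Γ] {χ : Γ →* ℚ_[ℓ]} {ρ : ∀ j, Γ →* Matrix (n j) (n j) ℚ_[ℓ]}

theorem pr_tw (g : Γ) (j : Fin r) (x : (Σ j, n j) → ℚ_[ℓ]) :
    pr j (matRep (sumTw χ ρ) g x) = rep χ (ρ j) g (pr j x) := by
  funext a
  exact sumTw_apply g x j a

theorem inc_tw (g : Γ) (j : Fin r) (x : n j → ℚ_[ℓ]) :
    inc j (rep χ (ρ j) g x) = matRep (sumTw χ ρ) g (inc j x) := by
  refine ext_pr fun i => ?_
  rw [pr_tw]
  by_cases h : i = j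
  · subst h
    rw [pr_inc, pr_inc]
  · rw [pr_inc_ne h, pr_inc_ne h, map_zero]

end sum

variable {K : Type} [Field K] [NumberField K] {ℓ : ℕ} [hℓ : Fact ℓ.Prime]

/-- `Y` is a homomorphism of representations of an open subgroup of the Galois group -/
def TateHom {n n' : Type} [Fintype n] [DecidableEq n] [Fintype n'] [DecidableEq n']
    (ρ : GK K →* Matrix n n ℚ_[ℓ]) (ρ' : GK K →* Matrix n' n' ℚ_[ℓ]) (Y : Matrix n' n ℚ_[ℓ]) :
    Prop :=
  ∃ U : Subgroup (GK K), IsOpen (U : Set (GK K)) ∧ ∀ g ∈ U, ρ' g * Y = Y * ρ g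

theorem TateHom.fin {n n' : Type} [Fintype n] [DecidableEq n] [Fintype n'] [DecidableEq n']
    {ρ : GK K →* Matrix n n ℚ_[ℓ]} {ρ' : GK K →* Matrix n' n' ℚ_[ℓ]} {Y : Matrix n' n ℚ_[ℓ]}
    {χ : GK K →* ℚ_[ℓ]} (hY : TateHom ρ ρ' Y) : ∃ U : Subgroup (GK K), U.FiniteIndex ∧
      ∀ g ∈ U, ∀ x, Y *ᵥ (rep χ ρ g x) = rep χ ρ' g (Y *ᵥ x) := by
  obtain ⟨U, hU, hUY⟩ := hY
  refine ⟨U, finiteIndex_of_open hU, fun g hg x => ?_⟩
  change Y *ᵥ (tw χ ρ g *ᵥ x) = tw χ ρ' g *ᵥ (Y *ᵥ x)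
  rw [Matrix.mulVec_mulVec, Matrix.mulVec_mulVec, tw_apply, tw_apply, Matrix.smul_mul,
    Matrix.mul_smul, hUY g hg]

variable {r : ℕ} {n : Fin r → Type} [∀ j, Fintype (n j)] [∀ j, DecidableEq (n j)]
    {q : ∀ j, Matrix (n j) (n j) ℚ_[ℓ]} {S : Fin r → Finset ℕ} {χ : GK K →* ℚ_[ℓ]}
    {Pol : Fin r → HeightOneSpectrum (𝓞 K) → ℤ[X]} {ρ : ∀ j, GK K →* Matrix (n j) (n j) ℚ_[ℓ]}

/-- the elements of the Lie algebra of the sum -/
theorem fam_lt {Z : End ℚ_[ℓ] ((Σ j, n j) → ℚ_[ℓ])} (hZ : Z ∈ LT (matRep (sumTw χ ρ))) :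
    ∃ X : ∀ j, End ℚ_[ℓ] (n j → ℚ_[ℓ]), Z = bd X ∧ (∀ j, X j ∈ lieE χ (ρ j)) ∧
      ∀ i j (Y : Matrix (n j) (n i) ℚ_[ℓ]), TateHom (ρ i) (ρ j) Y →
        ∀ x, Y *ᵥ (X i x) = X j (Y *ᵥ x) := by
  have hfi : (⊤ : Subgroup (GK K)).FiniteIndex := inferInstance
  refine ⟨fun j => pr j ∘ₗ Z ∘ₗ inc j, ?_, fun j => ?_, fun i j Y hY x => ?_⟩
  · refine LinearMap.ext fun x => ext_pr fun j => ?_
    rw [pr_bd]
    have h1 := tate_comm (matRep (sumTw χ ρ)) hZ.2 (P := inc j ∘ₗ pr j) hfi (fun g _ =>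
      LinearMap.ext fun x => by
        rw [Module.End.mul_apply, Module.End.mul_apply, LinearMap.comp_apply,
          LinearMap.comp_apply, pr_tw, inc_tw])
    have h2 := congrArg (pr j) (LinearMap.congr_fun h1 x)
    rw [Module.End.mul_apply, Module.End.mul_apply, LinearMap.comp_apply, LinearMap.comp_apply,
      pr_inc] at h2
    exact h2.symm
  · exact lieE_of_lt (lt_retract (inc j) (pr j) (pr_inc j) (fun g x => inc_tw g j x)
      (fun g x => pr_tw g j x) hZ)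
  · obtain ⟨U, hU, hUY⟩ := hY.fin (χ := χ)
    have h1 := tate_comm (matRep (sumTw χ ρ)) hZ.2 (P := inc j ∘ₗ Matrix.toLin' Y ∘ₗ pr i) hU
      (fun g hg => LinearMap.ext fun x => by
        rw [Module.End.mul_apply, Module.End.mul_apply, LinearMap.comp_apply,
          LinearMap.comp_apply, LinearMap.comp_apply, LinearMap.comp_apply, pr_tw,
          Matrix.toLin'_apply, Matrix.toLin'_apply, hUY g hg, inc_tw])
    have h2 := congrArg (pr j) (LinearMap.congr_fun h1 (inc i x))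
    rw [Module.End.mul_apply, Module.End.mul_apply, LinearMap.comp_apply, LinearMap.comp_apply,
      LinearMap.comp_apply, LinearMap.comp_apply, pr_inc, pr_inc, Matrix.toLin'_apply,
      Matrix.toLin'_apply] at h2
    exact h2.symm

/-- lifting from one summand -/
theorem fam_lift (h : ∀ j, Scalar (q j) (S j) χ (Pol j) (ρ j)) (i : Fin r) :
    ∀ X ∈ lieE χ (ρ i), ∃ Z ∈ LT (matRep (sumTw χ ρ)), ∀ x, Z (inc i x) = inc i (X x) := by
  intro X hX
  obtain ⟨Z, hZ, h1⟩ := lift_all (h i).k3 (h i).semisimple _ (matRep (sumTw χ ρ)) X hX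
  refine ⟨blk2 Z, blk2_mem hZ, fun x => ?_⟩
  rw [← h1]
  exact (lt_map (Δ := ⊤) inferInstance (inc i) (fun g _ x => inc_tw g i x) hZ x).symm

/-- two summands without homomorphisms -/
theorem fam_third (h : ∀ j, Scalar (q j) (S j) χ (Pol j) (ρ j)) {i j : Fin r}
    (hno : NoHom (q i) χ (ρ i) (ρ j)) :
    ∀ X ∈ lieE χ (ρ i), ∃ Z ∈ LT (matRep (sumTw χ ρ)), (∀ x, Z (inc i x) = inc i (X x)) ∧
      ∀ a, Z (inc j a) = 0 := by
  intro X hX
  obtain ⟨Z, hZ, h1, h2⟩ := foreign (h i).k3 (h i).semisimple (h i).scalar (h i).three (h i).four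
    (h j).k3 (h j).semisimple (h j).scalar (h j).three (h j).four hno
    (sum_semisimple fun j => (h j).semisimple) X hX
  have hZ2 := blk2_mem hZ
  refine ⟨blk2 (blk2 Z), blk2_mem hZ2, fun x => ?_, fun a => ?_⟩
  · have h3 := lt_map (Δ := ⊤) inferInstance (LinearMap.inr ℚ_[ℓ] (n j → ℚ_[ℓ]) _ ∘ₗ inc i)
      (fun g _ x => by
        rw [LinearMap.comp_apply, LinearMap.comp_apply, inc_tw]
        refine Prod.ext ?_ rfl
        change (0 : n j → ℚ_[ℓ]) = rep χ (ρ j) g 0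
        rw [map_zero]) hZ x
    rw [LinearMap.comp_apply, LinearMap.comp_apply, h1] at h3
    have h4 := congrArg Prod.snd h3
    change inc i (X x) = (blk2 Z (0, inc i x)).2 at h4
    rw [h4]
    rfl
  · have h3 := lt_map (Δ := ⊤) inferInstance (inc j) (fun g _ x => inc_tw g j x) hZ2 a
    rw [← h3]
    have h4 : blk (blk2 Z) a = 0 := by
      change (Z (0, (a, 0))).2.1 = 0
      rw [h2]
      rfl
    rw [h4, map_zero]

/-- lifting from one summand to an element which vanishes on other summands -/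
theorem fam_kill (h : ∀ j, Scalar (q j) (S j) χ (Pol j) (ρ j)) (i : Fin r) (J : Finset (Fin r))
    (hJ : ∀ j ∈ J, NoHom (q i) χ (ρ i) (ρ j)) :
    ∀ X ∈ lieE χ (ρ i), ∃ Z ∈ LT (matRep (sumTw χ ρ)), (∀ x, Z (inc i x) = inc i (X x)) ∧
      ∀ j ∈ J, ∀ a, Z (inc j a) = 0 := by
  obtain ⟨L, hLT, hLie, hAd, -⟩ := Pool.Agent.Y41.RM.lieL' ℚ_[ℓ] ((Σ j, n j) → ℚ_[ℓ]) (GK K)
    (matRep (sumTw χ ρ))
  obtain ⟨a, U, W, Fr⟩ := exists_frame (h i).k3 (h i).semisimple (h i).scalar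
  induction J using Finset.induction_on with
  | empty =>
    intro X hX
    obtain ⟨Z, hZ, h1⟩ := fam_lift h i X hX
    exact ⟨Z, hZ, h1, fun j hj => absurd hj (Finset.notMem_empty j)⟩
  | insert j J hj ih =>
    have ih' := ih fun j' hj' => hJ j' (Finset.mem_insert_of_mem hj')
    have hno := hJ j (Finset.mem_insert_self j J)
    let I : Submodule ℚ_[ℓ] (End ℚ_[ℓ] (n i → ℚ_[ℓ])) :=
      { carrier := {X | ∃ Z ∈ LT (matRep (sumTw χ ρ)), (∀ x, Z (inc i x) = inc i (X x)) ∧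
          ∀ j' ∈ insert j J, ∀ a, Z (inc j' a) = 0}
        zero_mem' := ⟨0, (hLT 0).1 L.zero_mem, fun x => by
          rw [LinearMap.zero_apply, LinearMap.zero_apply, map_zero], fun _ _ _ => rfl⟩
        add_mem' := by
          rintro A B ⟨Z, hZ, h1, h2⟩ ⟨Z', hZ', h1', h2'⟩
          refine ⟨Z + Z', (hLT _).1 (L.add_mem ((hLT _).2 hZ) ((hLT _).2 hZ')), fun x => ?_,
            fun j' hj' a => ?_⟩
          · rw [LinearMap.add_apply, LinearMap.add_apply, h1, h1', map_add]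
          · rw [LinearMap.add_apply, h2 j' hj', h2' j' hj', add_zero]
        smul_mem' := by
          rintro c A ⟨Z, hZ, h1, h2⟩
          refine ⟨c • Z, (hLT _).1 (L.smul_mem c ((hLT _).2 hZ)), fun x => ?_,
            fun j' hj' a => ?_⟩
          · rw [LinearMap.smul_apply, LinearMap.smul_apply, h1, map_smul]
          · rw [LinearMap.smul_apply, h2 j' hj', smul_zero] }
    have hI : lieE χ (ρ i) ≤ I := by
      refine lieE_perfect Fr (h i).three I fun A hA B hB => ?_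
      obtain ⟨Z, hZ, h1, h2⟩ := ih' A hA
      obtain ⟨Z', hZ', h1', h2'⟩ := fam_third h hno B hB
      refine ⟨Z * Z' - Z' * Z, (hLT _).1 (hLie _ ((hLT _).2 hZ) _ ((hLT _).2 hZ')), fun x => ?_,
        fun j' hj' a => ?_⟩
      · rw [LinearMap.sub_apply, Module.End.mul_apply, Module.End.mul_apply, h1', h1, h1, h1',
          LinearMap.sub_apply, Module.End.mul_apply, Module.End.mul_apply, map_sub]
      · obtain ⟨X, hX, -, -⟩ := fam_lt hZ
        obtain ⟨X', hX', -, -⟩ := fam_lt hZ'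
        have hbd : ∀ (X : ∀ j, End ℚ_[ℓ] (n j → ℚ_[ℓ])) (j : Fin r) (a : n j → ℚ_[ℓ]),
            bd X (inc j a) = inc j (X j a) := by
          intro X j a
          refine ext_pr fun i => ?_
          rw [pr_bd]
          by_cases hij : i = j
          · subst hij
            rw [pr_inc, pr_inc]
          · rw [pr_inc_ne hij, pr_inc_ne hij, map_zero]
        rw [LinearMap.sub_apply, Module.End.mul_apply, Module.End.mul_apply]
        rcases Finset.mem_insert.1 hj' with rfl | hj'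
        · rw [h2' a, map_zero, zero_sub, neg_eq_zero, hX, hbd, h2']
        · rw [h2 j' hj', map_zero, sub_zero, hX', hbd, h2 j' hj']
    exact fun X hX => hI hX

theorem bd_inc (X : ∀ j, End ℚ_[ℓ] (n j → ℚ_[ℓ])) (j : Fin r) (a : n j → ℚ_[ℓ]) :
    bd X (inc j a) = inc j (X j a) := by
  refine ext_pr fun i => ?_
  rw [pr_bd]
  by_cases hij : i = j
  · subst hij
    rw [pr_inc, pr_inc]
  · rw [pr_inc_ne hij, pr_inc_ne hij, map_zero]

end Pool.Agent.H851.MK
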