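import Mathlib
import Pool.Agent.H851.MK.Fam

/-!
# The Lie algebra of a sum of representations of K3 type
-/

set_option autoImplicit false
set_option linter.unusedSectionVars false
set_option linter.unusedVariables false

namespace Pool.Agent.H851.MK

open Matrix Module TensorProduct Pool.Agent.Y114.RM Pool.Agent.TH118.SG Polynomial Topology
open NumberField IsDedekindDomain
open Pool.Agent.H851.K3 Pool.Agent.H851.KT Pool.Agent.H851.TT Pool.Agent.H851.ZD
open Pool.Agent.H851.IN Pool.Agent.H851.KS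
open Pool.Agent.NH56.HY (GK IsFrobenius tw tw_apply R chi_ne Near NonUnip)
open Pool.Agent.H204R3.GP (FiniteIndexSemisimple)

section fr

variable {k n : Type} [Field k] [CharZero k] [Fintype n] [DecidableEq n] {q : Matrix n n k}
  {L : Submodule k (Matrix n n k)} {T : Submodule k (n → k)} {d : ℕ} {a : Fin d → k}
  {U : Matrix n (Fin d) k} {W : Matrix (Fin d) n k}

theorem Frame_ee (F : Frame q L T a U W) (s t : Fin d) :
    form q (U *ᵥ Pi.single s 1) (U *ᵥ Pi.single t 1) = if s = t then a s else 0 := by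
  rw [Frame_form F, Matrix.mulVec_mulVec _ W U, F.one, Matrix.one_mulVec]
  rw [Finset.sum_eq_single s]
  · by_cases hst : s = t
    · subst hst
      simp
    · rw [if_neg hst, Pi.single_eq_of_ne hst, mul_zero, mul_zero]
  · intro b _ hb
    rw [Pi.single_eq_of_ne hb, zero_mul]
  · intro h'
    exact absurd (Finset.mem_univ _) h'

theorem Frame_simple (F : Frame q L T a U W) (hd : 3 ≤ d) (N : Submodule k (n → k))
    (hN : ∀ A ∈ L, ∀ x ∈ N, A *ᵥ x ∈ N) {y : n → k} (hyN : y ∈ N) (hyT : y ∈ T) (hy : y ≠ 0) :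
    T ≤ N := by
  have hw : ∀ (f : (n → k) →ₗ[k] (n → k)) (v : n → k),
      LinearMap.toMatrix' f *ᵥ v = f v := fun f v => by
    rw [← toLin'_apply, toLin'_toMatrix']
  have hst : ∀ s t, ∀ x ∈ N, form q (U *ᵥ Pi.single s 1) x • (U *ᵥ Pi.single t 1) -
      form q (U *ᵥ Pi.single t 1) x • (U *ᵥ Pi.single s 1) ∈ N := by
    intro s t x hx
    have h1 := hN _ (Frame_wdg F (F.left (Pi.single s 1)) (F.left (Pi.single t 1))) x hx
    rw [hw, wdg_apply] at h1
    exact h1
  obtain ⟨i, hi⟩ : ∃ i, (W *ᵥ y) i ≠ 0 := by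
    by_contra hcon
    push Not at hcon
    apply hy
    rw [← F.right y hyT, show W *ᵥ y = 0 from funext hcon, Matrix.mulVec_zero]
  have hiy : form q (U *ᵥ Pi.single i 1) y = a i * (W *ᵥ y) i := by
    rw [Frame_form F, Finset.sum_eq_single i]
    · rw [Pi.single_eq_same, one_mul]
    · intro b _ hb
      rw [Pi.single_eq_of_ne hb, zero_mul]
    · intro h'
      exact absurd (Finset.mem_univ _) h'
  obtain ⟨l, m, hli, hmi, hml⟩ : ∃ l m : Fin d, l ≠ i ∧ m ≠ i ∧ m ≠ l := by
    have h1 : 2 < Fintype.card (Fin d) := by rw [Fintype.card_fin]; omega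
    obtain ⟨l, hl⟩ : ∃ l, l ∉ ({i} : Finset (Fin d)) := by
      by_contra hcon
      push Not at hcon
      have h2 : (Finset.univ : Finset (Fin d)).card ≤ ({i} : Finset (Fin d)).card :=
        Finset.card_le_card fun x _ => hcon x
      rw [Finset.card_univ, Finset.card_singleton] at h2
      omega
    obtain ⟨m, hm⟩ : ∃ m, m ∉ ({i, l} : Finset (Fin d)) := by
      by_contra hcon
      push Not at hcon
      have h2 : (Finset.univ : Finset (Fin d)).card ≤ ({i, l} : Finset (Fin d)).card :=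
        Finset.card_le_card fun x _ => hcon x
      have h3 := Finset.card_le_two (a := i) (b := l)
      rw [Finset.card_univ] at h2
      omega
    rw [Finset.mem_singleton] at hl
    rw [Finset.mem_insert, Finset.mem_singleton, not_or] at hm
    exact ⟨l, m, hl, hm.1, hm.2⟩
  have h1 := hst l m _ (hst i l y hyN)
  rw [map_sub, map_smul, map_smul, map_sub, map_smul, map_smul, Frame_ee F, Frame_ee F, Frame_ee F,
    Frame_ee F, if_pos rfl, if_neg hli, if_neg hml, if_neg hmi, smul_zero, sub_zero, smul_zero,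
    sub_zero, zero_smul, sub_zero] at h1
  have h2 : U *ᵥ Pi.single m 1 ∈ N := by
    have h3 : form q (U *ᵥ Pi.single i 1) y • a l ≠ 0 := by
      rw [hiy, smul_eq_mul]
      exact mul_ne_zero (mul_ne_zero (F.ne i) hi) (F.ne l)
    have h4 := N.smul_mem (form q (U *ᵥ Pi.single i 1) y • a l)⁻¹ h1
    rwa [smul_smul, inv_mul_cancel₀ h3, one_smul] at h4
  have h3 : ∀ s, U *ᵥ Pi.single s 1 ∈ N := by
    intro s
    by_cases hs : s = m
    · rw [hs]
      exact h2
    · have h4 := hst m s _ h2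
      rw [Frame_ee F, Frame_ee F, if_pos rfl, if_neg hs, zero_smul, sub_zero] at h4
      have h5 := N.smul_mem (a m)⁻¹ h4
      rwa [smul_smul, inv_mul_cancel₀ (F.ne m), one_smul] at h5
  intro x hx
  rw [← F.right x hx, mulVec_sum_single U (W *ᵥ x)]
  exact Submodule.sum_mem _ fun s _ => N.smul_mem _ (h3 s)

end fr

variable {K : Type} [Field K] [NumberField K] {ℓ : ℕ} [hℓ : Fact ℓ.Prime]

variable {r : ℕ} {n : Fin r → Type} [∀ j, Fintype (n j)] [∀ j, DecidableEq (n j)]
    {q : ∀ j, Matrix (n j) (n j) ℚ_[ℓ]} {S : Fin r → Finset ℕ} {χ : GK K →* ℚ_[ℓ]}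
    {Pol : Fin r → HeightOneSpectrum (𝓞 K) → ℤ[X]} {ρ : ∀ j, GK K →* Matrix (n j) (n j) ℚ_[ℓ]}

/-- nonzero homomorphisms are injective on the transcendental part -/
theorem fam_inj (h : ∀ j, Scalar (q j) (S j) χ (Pol j) (ρ j)) {i j : Fin r}
    (hno : ¬ NoHom (q i) χ (ρ i) (ρ j)) : ∃ Y : Matrix (n j) (n i) ℚ_[ℓ], TateHom (ρ i) (ρ j) Y ∧
      ∀ X ∈ lieE χ (ρ i), (∀ x, Y *ᵥ (X x) = 0) → X = 0 := by
  unfold NoHom at hno
  push Not at hno
  obtain ⟨Y, hY, x₀, hx₀, hYx₀⟩ := hno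
  refine ⟨Y, hY, fun X hX hYX => ?_⟩
  obtain ⟨a, U, W, Fr⟩ := exists_frame (h i).k3 (h i).semisimple (h i).scalar
  by_contra hX0
  obtain ⟨x, hx⟩ : ∃ x, X x ≠ 0 := by
    by_contra hcon
    push Not at hcon
    exact hX0 (LinearMap.ext hcon)
  let N : Submodule ℚ_[ℓ] (n i → ℚ_[ℓ]) := LinearMap.ker (Matrix.toLin' Y)
  have hN : ∀ y, y ∈ N ↔ Y *ᵥ y = 0 := fun y => by
    rw [LinearMap.mem_ker, Matrix.toLin'_apply]
  have hXT : X x ∈ orth (q i) (tate χ (ρ i)) := by
    obtain ⟨A, hA, rfl⟩ := hX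
    obtain ⟨M, hM, rfl⟩ := (Fr.mem A).1 hA
    change (U * M * W) *ᵥ x ∈ _
    rw [Matrix.mul_assoc, ← Matrix.mulVec_mulVec]
    exact Fr.left _
  have h1 := Frame_simple Fr (h i).three N (fun A hA y hy => by
    rw [hN] at hy ⊢
    obtain ⟨Z, hZ, hZA⟩ := fam_lift h i _ (lin_mem_lieE hA)
    obtain ⟨X', rfl, -, hX'⟩ := fam_lt hZ
    have h2 : X' i y = A *ᵥ y := by
      have h3 := congrArg (pr i) (hZA y)
      rw [pr_bd, pr_inc, pr_inc, Matrix.toLin'_apply] at h3
      exact h3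
    rw [← h2, hX' i j Y hY, hy, map_zero]) ((hN _).2 (hYX x)) hXT hx
  exact hYx₀ ((hN _).1 (h1 hx₀))

/-- **The Lie algebra of a sum.** -/
theorem fam_mem (h : ∀ j, Scalar (q j) (S j) χ (Pol j) (ρ j)) (J : Finset (Fin r)) :
    ∀ X : ∀ j, End ℚ_[ℓ] (n j → ℚ_[ℓ]), (∀ j, X j ∈ lieE χ (ρ j)) →
      (∀ i j (Y : Matrix (n j) (n i) ℚ_[ℓ]), TateHom (ρ i) (ρ j) Y →
        ∀ x, Y *ᵥ (X i x) = X j (Y *ᵥ x)) → (∀ j ∉ J, X j = 0) →
      bd X ∈ LT (matRep (sumTw χ ρ)) := by
  obtain ⟨L, hLT, hLie, hAd, -⟩ := Pool.Agent.Y41.RM.lieL' ℚ_[ℓ] ((Σ j, n j) → ℚ_[ℓ]) (GK K)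
    (matRep (sumTw χ ρ))
  induction J using Finset.induction_on with
  | empty =>
    intro X hX hc h0
    have h1 : bd X = 0 := LinearMap.ext fun x => ext_pr fun j => by
      rw [pr_bd, h0 j (Finset.notMem_empty j)]
      rfl
    rw [h1]
    exact (hLT 0).1 L.zero_mem
  | insert i J hi ih =>
    intro X hX hc h0
    by_cases hcase : ∃ j ∉ insert i J, ¬ NoHom (q i) χ (ρ i) (ρ j)
    · obtain ⟨j, hj, hno⟩ := hcase
      obtain ⟨Y, hY, hinj⟩ := fam_inj h hno
      have h1 : X i = 0 := hinj (X i) (hX i) fun x => by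
        rw [hc i j Y hY, h0 j hj]
        rfl
      refine ih X hX hc fun j' hj' => ?_
      by_cases hj'i : j' = i
      · rw [hj'i, h1]
      · exact h0 j' fun h2 => (Finset.mem_insert.1 h2).elim hj'i hj'
    · push Not at hcase
      obtain ⟨Z, hZ, h1, h2⟩ := fam_kill h i (insert i J)ᶜ (fun j hj => hcase j
        (Finset.mem_compl.1 hj)) (X i) (hX i)
      obtain ⟨X', rfl, hX', hc'⟩ := fam_lt hZ
      have h3 : X' i = X i := LinearMap.ext fun x => by
        have h4 := congrArg (pr i) (h1 x)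
        rw [pr_bd, pr_inc, pr_inc] at h4
        exact h4
      have h4 : ∀ j ∉ insert i J, X' j = 0 := fun j hj => LinearMap.ext fun x => by
        have h5 := congrArg (pr j) (h2 j (Finset.mem_compl.2 hj) x)
        rw [pr_bd, pr_inc, map_zero] at h5
        exact h5
      have h5 := ih (fun j => X j - X' j) (fun j => Submodule.sub_mem _ (hX j) (hX' j))
        (fun i j Y hY x => by
          rw [LinearMap.sub_apply, LinearMap.sub_apply, Matrix.mulVec_sub, hc i j Y hY,
            hc' i j Y hY])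
        (fun j hj => by
          by_cases hji : j = i
          · rw [hji, h3, sub_self]
          · have h6 : j ∉ insert i J := fun h7 => (Finset.mem_insert.1 h7).elim hji hj
            rw [h0 j h6, h4 j h6, sub_self])
      have h6 : bd X = bd (fun j => X j - X' j) + bd X' := LinearMap.ext fun x => ext_pr fun j => by
        rw [pr_bd, LinearMap.add_apply, map_add, pr_bd, pr_bd, LinearMap.sub_apply,
          sub_add_cancel]
      rw [h6]
      exact (hLT _).1 (L.add_mem ((hLT _).2 h5) ((hLT _).2 hZ))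

end Pool.Agent.H851.MK
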