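import Mathlib
import Pool.Agent.H851.MK.Fam2

/-!
# Forms on sums of representations of K3 type
-/

set_option autoImplicit false
set_option linter.unusedSectionVars false
set_option linter.unusedVariables false

namespace Pool.Agent.H851.MK

open Matrix Module TensorProduct Pool.Agent.Y114.RM Pool.Agent.TH118.SG Polynomial Topology
open NumberField IsDedekindDomain
open Pool.Agent.N429.KS (chg der)
open Pool.Agent.H851.K3 Pool.Agent.H851.KT Pool.Agent.H851.TT Pool.Agent.H851.ZD
open Pool.Agent.H851.IN Pool.Agent.H851.KS
open Pool.Agent.NH56.HY (GK IsFrobenius tw tw_apply R chi_ne Near NonUnip)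
open Pool.Agent.H204R3.GP (FiniteIndexSemisimple)

section lin

variable {k ι : Type} [Field k] [Fintype ι] [DecidableEq ι] {E : ι → Type} [∀ j, Fintype (E j)]
  [∀ j, DecidableEq (E j)]

/-- functions which are in `V i` as functions of the `i`-th variable are sums of products -/
theorem fam_span (V : ∀ j, Submodule k (E j → k)) (F : (∀ j, E j) → k)
    (hF : ∀ J i, (fun L => F (Function.update J i L)) ∈ V i) :
    F ∈ Submodule.span k {F | ∃ f : ∀ j, E j → k, (∀ j, f j ∈ V j) ∧
      F = fun J => ∏ j, f j (J j)} := by
  have hP : ∀ j, ∃ P : (E j → k) →ₗ[k] (E j → k), (∀ f, P f ∈ V j) ∧ ∀ f ∈ V j, P f = f := by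
    intro j
    obtain ⟨g, hg⟩ := (V j).subtype.exists_leftInverse_of_injective (Submodule.ker_subtype _)
    refine ⟨(V j).subtype ∘ₗ g, fun f => (g f).2, fun f hf => ?_⟩
    have h1 := LinearMap.congr_fun hg ⟨f, hf⟩
    change ((g ((V j).subtype ⟨f, hf⟩) : V j) : E j → k) = f
    rw [← LinearMap.comp_apply, h1]
    rfl
  choose P hP1 hP2 using hP
  let u : Finset ι → (∀ j, E j) → ∀ j, E j → k := fun s K j =>
    if j ∈ s then P j (Pi.single (K j) 1) else Pi.single (K j) 1
  have key : ∀ s : Finset ι, ∀ J, ∑ K, F K * ∏ j, u s K j (J j) = F J := by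
    intro s
    induction s using Finset.induction_on with
    | empty =>
      intro J
      rw [Finset.sum_eq_single J]
      · rw [Finset.prod_eq_one, mul_one]
        intro j _
        simp only [u, if_neg (Finset.notMem_empty j), Pi.single_eq_same]
      · intro K _ hK
        obtain ⟨j, hj⟩ : ∃ j, K j ≠ J j := by
          by_contra hcon
          push Not at hcon
          exact hK (funext hcon)
        rw [Finset.prod_eq_zero (Finset.mem_univ j), mul_zero]
        simp only [u, if_neg (Finset.notMem_empty j)]
        exact Pi.single_eq_of_ne (Ne.symm hj) _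
      · intro h'
        exact absurd (Finset.mem_univ _) h'
    | insert i s hi ih =>
      intro J
      let c : (∀ j, E j) → k := fun K => F K * ∏ j ∈ Finset.univ.erase i, u s K j (J j)
      have h1 : (fun L => F (Function.update J i L)) =
          ∑ K, c K • (Pi.single (K i) 1 : E i → k) := by
        funext L
        rw [← ih (Function.update J i L), Finset.sum_apply]
        refine Finset.sum_congr rfl fun K _ => ?_
        rw [Pi.smul_apply, smul_eq_mul, mul_assoc, ← Finset.prod_erase_mul _ _ (Finset.mem_univ i)]
        congr 2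
        · refine Finset.prod_congr rfl fun j hj => ?_
          rw [Function.update_of_ne (Finset.ne_of_mem_erase hj)]
        · rw [Function.update_self]
          simp only [u, if_neg hi]
      have h2 := hP2 i _ (hF J i)
      have h3 := congrFun h2 (J i)
      rw [Function.update_eq_self] at h3
      rw [← h3, h1, map_sum, Finset.sum_apply]
      refine Finset.sum_congr rfl fun K _ => ?_
      rw [map_smul, Pi.smul_apply, smul_eq_mul, mul_assoc,
        ← Finset.prod_erase_mul _ _ (Finset.mem_univ i)]
      congr 2
      · refine Finset.prod_congr rfl fun j hj => ?_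
        have hji : j ≠ i := Finset.ne_of_mem_erase hj
        simp only [u, Finset.mem_insert, hji, false_or]
      · simp only [u, if_pos (Finset.mem_insert_self i s)]
  have h1 : F = ∑ K, F K • fun J => ∏ j, P j (Pi.single (K j) 1) (J j) := by
    funext J
    rw [Finset.sum_apply, ← key Finset.univ J]
    refine Finset.sum_congr rfl fun K _ => ?_
    rw [Pi.smul_apply, smul_eq_mul]
    congr 1
    refine Finset.prod_congr rfl fun j _ => ?_
    simp only [u, if_pos (Finset.mem_univ j)]
  rw [h1]
  refine Submodule.sum_mem _ fun K _ => Submodule.smul_mem _ _ (Submodule.subset_span ?_)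
  exact ⟨fun j => P j (Pi.single (K j) 1), fun j => hP1 j _, rfl⟩

end lin

section ex

variable {k : Type} [Field k] {r : ℕ} {n : Fin r → Type} [∀ j, Fintype (n j)]
  [∀ j, DecidableEq (n j)] {A : Fin r → Type} [∀ j, Fintype (A j)] [∀ j, DecidableEq (A j)]

/-- the indices of a multilinear form, as indices of a form on the sum -/
def emb (J : ∀ j, A j → n j) : (Σ j, A j) → Σ j, n j := fun s => ⟨s.1, J s.1 s.2⟩

theorem emb_inj {J J' : ∀ j, A j → n j} (h : emb J = emb J') : J = J' := by
  funext j a
  have h1 := congrFun h ⟨j, a⟩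
  exact eq_of_heq (Sigma.mk.inj h1).2

theorem emb_of {L : (Σ j, A j) → Σ j, n j} (h : ∀ s, (L s).1 = s.1) :
    ∃ J : ∀ j, A j → n j, emb J = L := by
  refine ⟨fun j a => cast (congrArg n (h ⟨j, a⟩)) (L ⟨j, a⟩).2, ?_⟩
  funext s
  refine Sigma.ext (h s).symm ?_
  exact cast_heq _ _

/-- a multilinear form as a form on the sum -/
def ex (F : (∀ j, A j → n j) → k) : ((Σ j, A j) → Σ j, n j) → k := fun L =>
  ∑ J, if emb J = L then F J else 0

theorem ex_emb (F : (∀ j, A j → n j) → k) (J : ∀ j, A j → n j) : ex F (emb J) = F J := by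
  rw [ex, Finset.sum_eq_single J]
  · rw [if_pos rfl]
  · intro J' _ hJ'
    rw [if_neg fun h => hJ' (emb_inj h)]
  · intro h'
    exact absurd (Finset.mem_univ _) h'

theorem ex_zero (F : (∀ j, A j → n j) → k) {L : (Σ j, A j) → Σ j, n j}
    (h : ¬ ∀ s, (L s).1 = s.1) : ex F L = 0 := by
  refine Finset.sum_eq_zero fun J _ => if_neg fun h' => h fun s => ?_
  rw [← h']
  rfl

theorem chg_ex (B : ∀ j, Matrix (n j) (n j) k) (F : (∀ j, A j → n j) → k) :
    chg (Matrix.blockDiagonal' B) (ex F) =
      ex fun J => ∑ J', (∏ j, ∏ a, B j (J' j a) (J j a)) * F J' := by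
  funext L
  have h1 : chg (Matrix.blockDiagonal' B) (ex F) L =
      ∑ J, (∏ s, Matrix.blockDiagonal' B (emb J s) (L s)) * F J := by
    rw [chg]
    have h2 : ∀ L' : (Σ j, A j) → Σ j, n j,
        (∏ s, Matrix.blockDiagonal' B (L' s) (L s)) • ex F L' =
        ∑ J, if emb J = L' then (∏ s, Matrix.blockDiagonal' B (emb J s) (L s)) * F J else 0 := by
      intro L'
      rw [ex, smul_eq_mul, Finset.mul_sum]
      refine Finset.sum_congr rfl fun J _ => ?_
      by_cases h : emb J = L'
      · rw [if_pos h, if_pos h, h]
      · rw [if_neg h, if_neg h, mul_zero]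
    rw [Finset.sum_congr rfl fun L' _ => h2 L', Finset.sum_comm]
    refine Finset.sum_congr rfl fun J _ => ?_
    rw [Finset.sum_eq_single (emb J)]
    · rw [if_pos rfl]
    · intro L' _ h
      rw [if_neg (Ne.symm h)]
    · intro h'
      exact absurd (Finset.mem_univ _) h'
  rw [h1]
  by_cases h : ∀ s, (L s).1 = s.1
  · obtain ⟨J, rfl⟩ := emb_of h
    rw [ex_emb]
    refine Finset.sum_congr rfl fun J' _ => ?_
    rw [Fintype.prod_sigma]
    congr 1
    refine Finset.prod_congr rfl fun j _ => Finset.prod_congr rfl fun a _ => ?_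
    exact Matrix.blockDiagonal'_apply_eq _ _ _ _
  · rw [ex_zero _ h]
    push Not at h
    obtain ⟨s, hs⟩ := h
    refine Finset.sum_eq_zero fun J _ => ?_
    rw [Finset.prod_eq_zero (Finset.mem_univ s), zero_mul]
    exact Matrix.blockDiagonal'_apply_ne _ _ _ (Ne.symm hs)

theorem der_ex (i : Fin r) (X : Matrix (n i) (n i) k) (F : (∀ j, A j → n j) → k)
    (J : ∀ j, A j → n j) :
    der (Matrix.blockDiagonal' (Function.update (0 : ∀ j, Matrix (n j) (n j) k) i X)) (ex F)
      (emb J) = der X (fun L => F (Function.update J i L)) (J i) := by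
  rw [der, der, Fintype.sum_sigma, Finset.sum_eq_single i]
  · refine Finset.sum_congr rfl fun a _ => ?_
    rw [Fintype.sum_sigma, Finset.sum_eq_single i]
    · refine Finset.sum_congr rfl fun b _ => ?_
      have h1 : Matrix.blockDiagonal' (Function.update (0 : ∀ j, Matrix (n j) (n j) k) i X)
          ⟨i, b⟩ (emb J ⟨i, a⟩) = X b (J i a) := by
        change Matrix.blockDiagonal' _ (⟨i, b⟩ : Σ j, n j) ⟨i, J i a⟩ = _
        rw [Matrix.blockDiagonal'_apply_eq, Function.update_self]
      have h2 : Function.update (emb J) ⟨i, a⟩ ⟨i, b⟩ =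
          emb (Function.update J i (Function.update (J i) a b)) := by
        funext s
        obtain ⟨j, c⟩ := s
        by_cases hj : j = i
        · subst hj
          by_cases hc : c = a
          · subst hc
            rw [Function.update_self]
            change _ = (⟨j, Function.update J j (Function.update (J j) c b) j c⟩ : Σ j, n j)
            rw [Function.update_self, Function.update_self]
          · rw [Function.update_of_ne (fun h => hc (eq_of_heq (Sigma.mk.inj h).2))]
            change (⟨j, J j c⟩ : Σ j, n j) =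
              ⟨j, Function.update J j (Function.update (J j) a b) j c⟩
            rw [Function.update_self, Function.update_of_ne hc]
        · rw [Function.update_of_ne (fun h => hj (Sigma.mk.inj h).1)]
          change (⟨j, J j c⟩ : Σ j, n j) =
            ⟨j, Function.update J i (Function.update (J i) a b) j c⟩
          rw [Function.update_of_ne hj]
      rw [h1, h2, ex_emb]
    · intro j _ hj
      refine Finset.sum_eq_zero fun b _ => ?_
      have h1 : Matrix.blockDiagonal' (Function.update (0 : ∀ j, Matrix (n j) (n j) k) i X)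
          ⟨j, b⟩ (emb J ⟨i, a⟩) = 0 := Matrix.blockDiagonal'_apply_ne _ _ _ hj
      rw [h1, zero_mul]
    · intro h'
      exact absurd (Finset.mem_univ _) h'
  · intro j _ hj
    refine Finset.sum_eq_zero fun a _ => Finset.sum_eq_zero fun b _ => ?_
    have h1 : Matrix.blockDiagonal' (Function.update (0 : ∀ j, Matrix (n j) (n j) k) i X)
        b (emb J ⟨j, a⟩) = 0 := by
      obtain ⟨j', b⟩ := b
      by_cases hj' : j' = j
      · subst hj'
        change Matrix.blockDiagonal' _ (⟨j', b⟩ : Σ j, n j) ⟨j', J j' a⟩ = _
        rw [Matrix.blockDiagonal'_apply_eq, Function.update_of_ne hj]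
        rfl
      · exact Matrix.blockDiagonal'_apply_ne _ _ _ hj'
    rw [h1, zero_mul]
  · intro h'
    exact absurd (Finset.mem_univ _) h'

end ex

end Pool.Agent.H851.MK
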