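import Mathlib
import Pool.Agent.H851.MK.FamF

/-!
# The Lie algebra and the Tate forms of a sum of representations of K3 type
-/

set_option autoImplicit false
set_option linter.unusedSectionVars false
set_option linter.unusedVariables false

namespace Pool.Agent.H851.MK

open Matrix Module TensorProduct Pool.Agent.Y114.RM Pool.Agent.TH118.SG Polynomial Topology
open NumberField IsDedekindDomain
open Pool.Agent.N429.KS (chg der)
open Pool.Agent.H851.K3 Pool.Agent.H851.KT Pool.Agent.H851.TT Pool.Agent.H851.ZD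
open Pool.Agent.H851.IN Pool.Agent.H851.KS
open Pool.Agent.NH56.HY (GK IsFrobenius tw tw_apply R chi_ne Near NonUnip)
open Pool.Agent.H204R3.GP (FiniteIndexSemisimple)

variable {K : Type} [Field K] [NumberField K] {ℓ : ℕ} [hℓ : Fact ℓ.Prime]

section one

variable {n : Type} [Fintype n] [DecidableEq n] {q : Matrix n n ℚ_[ℓ]} {S : Finset ℕ}
    {χ : GK K →* ℚ_[ℓ]} {Pol : HeightOneSpectrum (𝓞 K) → ℤ[X]} {ρ : GK K →* Matrix n n ℚ_[ℓ]}

/-- invariant linear forms vanish on the transcendental part -/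
theorem unique_kill (h : IsK3Type q S χ Pol ρ) {A : Type} [Fintype A] [DecidableEq A] [Unique A]
    {f : (A → n) → ℚ_[ℓ]} (hf : InvForm (tw χ ρ) f) {x : n → ℚ_[ℓ]}
    (hx : x ∈ orth q (tate χ ρ)) : ∑ a, x a * f (fun _ => a) = 0 := by
  obtain ⟨U, hU, hUf⟩ := hf
  let v : n → ℚ_[ℓ] := fun a => f fun _ => a
  have hv : ∀ g ∈ U, (tw χ ρ g)ᵀ *ᵥ v = v := by
    intro g hg
    funext a
    have h1 := congrFun (hUf g hg) (fun _ => a)
    rw [chg] at h1
    have h2 : ∑ J' : A → n, (∏ s, tw χ ρ g (J' s) a) • f J' =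
        ∑ b, tw χ ρ g b a * v b := by
      rw [← Equiv.sum_comp (Equiv.funUnique A n).symm]
      refine Finset.sum_congr rfl fun b _ => ?_
      rw [Fintype.prod_unique, smul_eq_mul]
      rfl
    rw [h2] at h1
    exact h1
  have hqi := Matrix.mulVec_injective_of_isUnit
    ((Matrix.isUnit_iff_isUnit_det q).2 h.nondeg.isUnit)
  have hqu : IsUnit q.det := h.nondeg.isUnit
  have hqt : q *ᵥ (q⁻¹ *ᵥ v) = v := by
    rw [Matrix.mulVec_mulVec, Matrix.mul_nonsing_inv _ hqu, Matrix.one_mulVec]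
  have ht : q⁻¹ *ᵥ v ∈ tate χ ρ := by
    refine ⟨U, hU, fun g hg => tate_tw.2 ?_⟩
    apply hqi
    have h0 := tw_form h g
    have h1 : (tw χ ρ g)ᵀ *ᵥ (q *ᵥ (tw χ ρ g *ᵥ (q⁻¹ *ᵥ v))) = (tw χ ρ g)ᵀ *ᵥ (q *ᵥ (q⁻¹ *ᵥ v)) := by
      rw [hqt, hv g hg, Matrix.mulVec_mulVec, Matrix.mulVec_mulVec, h0, hqt]
    have h2 : IsUnit (tw χ ρ g)ᵀ := by
      rw [Matrix.isUnit_iff_isUnit_det, Matrix.det_transpose, ← Matrix.isUnit_iff_isUnit_det]
      exact (Group.isUnit g).map (tw χ ρ)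
    exact Matrix.mulVec_injective_of_isUnit h2 h1
  have h3 := hx _ ht
  rw [← form_apply, form_symm h.symm, form_apply, hqt] at h3
  exact h3

theorem hom_tate {n' : Type} [Fintype n'] [DecidableEq n'] {ρ' : GK K →* Matrix n' n' ℚ_[ℓ]}
    {Y : Matrix n' n ℚ_[ℓ]} (hY : TateHom ρ ρ' Y) {x : n → ℚ_[ℓ]} (hx : x ∈ tate χ ρ) :
    Y *ᵥ x ∈ tate χ ρ' := by
  obtain ⟨U, hU, hUY⟩ := hY
  obtain ⟨U', hU', hUx⟩ := hx
  refine ⟨U ⊓ U', hU.inter hU', fun g hg => ?_⟩
  rw [Matrix.mulVec_mulVec, hUY g hg.1, ← Matrix.mulVec_mulVec, hUx g hg.2, Matrix.mulVec_smul]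

end one

variable {r : ℕ} {n : Fin r → Type} [∀ j, Fintype (n j)] [∀ j, DecidableEq (n j)]
    {q : ∀ j, Matrix (n j) (n j) ℚ_[ℓ]} {S : Fin r → Finset ℕ} {χ : GK K →* ℚ_[ℓ]}
    {Pol : Fin r → HeightOneSpectrum (𝓞 K) → ℤ[X]} {ρ : ∀ j, GK K →* Matrix (n j) (n j) ℚ_[ℓ]}

/-- the direct sum of the representations -/
noncomputable def sumRep (ρ : ∀ j, GK K →* Matrix (n j) (n j) ℚ_[ℓ]) :
    GK K →* Matrix (Σ j, n j) (Σ j, n j) ℚ_[ℓ] where
  toFun g := Matrix.blockDiagonal' fun j => ρ j g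
  map_one' := by
    simp only [map_one]
    exact Matrix.blockDiagonal'_one
  map_mul' g h := by
    simp only [map_mul]
    exact Matrix.blockDiagonal'_mul _ _

theorem tw_sum : tw χ (sumRep ρ) = sumTw χ ρ := by
  refine MonoidHom.ext fun g => ?_
  rw [tw_apply]
  change (χ g)⁻¹ • Matrix.blockDiagonal' (fun j => ρ j g) =
    Matrix.blockDiagonal' fun j => tw χ (ρ j) g
  rw [← Matrix.blockDiagonal'_smul]
  rfl

theorem rep_sum : rep χ (sumRep ρ) = matRep (sumTw χ ρ) := by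
  rw [← tw_sum]
  rfl

theorem lin_bd (X : ∀ j, Matrix (n j) (n j) ℚ_[ℓ]) :
    Matrix.toLin' (Matrix.blockDiagonal' X) = bd fun j => Matrix.toLin' (X j) := by
  refine LinearMap.ext fun x => ?_
  funext s
  obtain ⟨j, a⟩ := s
  rw [Matrix.toLin'_apply]
  change ∑ s : (Σ j, n j), Matrix.blockDiagonal' X ⟨j, a⟩ s * x s = ∑ b, X j a b * x ⟨j, b⟩
  rw [Fintype.sum_sigma, Finset.sum_eq_single j]
  · refine Finset.sum_congr rfl fun b _ => ?_
    rw [Matrix.blockDiagonal'_apply_eq]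
  · intro i _ hi
    refine Finset.sum_eq_zero fun b _ => ?_
    rw [Matrix.blockDiagonal'_apply_ne _ _ _ (Ne.symm hi), zero_mul]
  · intro h
    exact absurd (Finset.mem_univ _) h

/-- **The Lie algebra of a sum.** -/
theorem tateLie_sum (h : ∀ j, Scalar (q j) (S j) χ (Pol j) (ρ j))
    (Z : Matrix (Σ j, n j) (Σ j, n j) ℚ_[ℓ]) : Z ∈ tateLie χ (sumRep ρ) ↔
      ∃ X : ∀ j, Matrix (n j) (n j) ℚ_[ℓ], Z = Matrix.blockDiagonal' X ∧
        (∀ j, X j ∈ tateLie χ (ρ j)) ∧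
        ∀ i j (Y : Matrix (n j) (n i) ℚ_[ℓ]), TateHom (ρ i) (ρ j) Y → Y * X i = X j * Y := by
  have hcomm : ∀ (X : ∀ j, Matrix (n j) (n j) ℚ_[ℓ]) (i j : Fin r) (Y : Matrix (n j) (n i) ℚ_[ℓ]),
      Y * X i = X j * Y ↔ ∀ x, Y *ᵥ (Matrix.toLin' (X i) x) = Matrix.toLin' (X j) (Y *ᵥ x) := by
    intro X i j Y
    rw [← (Matrix.toLin' (R := ℚ_[ℓ])).injective.eq_iff, Matrix.toLin'_mul, Matrix.toLin'_mul]
    constructor
    · intro h x
      exact LinearMap.congr_fun h x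
    · intro h
      exact LinearMap.ext h
  constructor
  · intro hZ
    have h1 : Matrix.toLin' Z ∈ LT (matRep (sumTw χ ρ)) := by
      refine mem_LT_of_semisimple _ (sum_semisimple fun j => (h j).semisimple) ?_
      rw [← rep_sum]
      exact hZ
    obtain ⟨X, hX, hX1, hX2⟩ := fam_lt h1
    refine ⟨fun j => LinearMap.toMatrix' (X j), ?_, fun j => ?_, fun i j Y hY => ?_⟩
    · apply (Matrix.toLin' (R := ℚ_[ℓ])).injective
      rw [lin_bd, hX]
      congr 1
      funext j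
      rw [Matrix.toLin'_toMatrix']
    · exact mem_lieE.1 (hX1 j)
    · rw [hcomm (fun j => LinearMap.toMatrix' (X j))]
      intro x
      rw [Matrix.toLin'_toMatrix', Matrix.toLin'_toMatrix']
      exact hX2 i j Y hY x
  · rintro ⟨X, rfl, hX1, hX2⟩
    have h1 := fam_mem h Finset.univ (fun j => Matrix.toLin' (X j)) (fun j => lin_mem_lieE (hX1 j))
      (fun i j Y hY x => (hcomm X i j Y).1 (hX2 i j Y hY) x)
      (fun j hj => absurd (Finset.mem_univ j) hj)
    rw [← lin_bd, ← rep_sum] at h1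
    exact h1.2

/-- the Lie algebra of a sum without homomorphisms -/
theorem tateLie_indep (h : ∀ j, Scalar (q j) (S j) χ (Pol j) (ρ j))
    (hno : ∀ i j, i ≠ j → NoHom (q i) χ (ρ i) (ρ j)) (X : ∀ j, Matrix (n j) (n j) ℚ_[ℓ])
    (hX : ∀ j, X j ∈ tateLie χ (ρ j)) :
    Matrix.blockDiagonal' X ∈ tateLie χ (sumRep ρ) := by
  refine (tateLie_sum h _).2 ⟨X, rfl, hX, fun i j Y hY => ?_⟩
  by_cases hij : i = j
  · subst hij
    obtain ⟨U, hU, hUY⟩ := hY.fin (χ := χ)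
    have h1 := tate_comm (rep χ (ρ i)) (hX i) (P := Matrix.toLin' Y) hU
      (fun g hg => LinearMap.ext fun x => by
        rw [Module.End.mul_apply, Module.End.mul_apply, Matrix.toLin'_apply, Matrix.toLin'_apply]
        exact hUY g hg x)
    apply (Matrix.toLin' (R := ℚ_[ℓ])).injective
    rw [Matrix.toLin'_mul, Matrix.toLin'_mul]
    exact h1.symm
  · obtain ⟨a, U, W, Fr⟩ := exists_frame (h i).k3 (h i).semisimple (h i).scalar
    have h1 : Y * X i = 0 := by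
      apply (Matrix.toLin' (R := ℚ_[ℓ])).injective
      refine LinearMap.ext fun x => ?_
      rw [Matrix.toLin'_apply, ← Matrix.mulVec_mulVec, map_zero, LinearMap.zero_apply]
      refine hno i j hij Y hY _ ?_
      obtain ⟨M, hM, h2⟩ := (Fr.mem (X i)).1 (hX i)
      rw [h2, Matrix.mul_assoc, ← Matrix.mulVec_mulVec]
      exact Fr.left _
    have h2 : X j * Y = 0 := by
      apply (Matrix.toLin' (R := ℚ_[ℓ])).injective
      refine LinearMap.ext fun x => ?_
      rw [Matrix.toLin'_apply, ← Matrix.mulVec_mulVec, map_zero, LinearMap.zero_apply]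
      have h3 : x ∈ tate χ (ρ i) ⊔ orth (q i) (tate χ (ρ i)) := by
        rw [(tate_compl (h i).k3 (h i).semisimple).sup_eq_top]
        trivial
      obtain ⟨t, ht, y, hy, rfl⟩ := Submodule.mem_sup.1 h3
      rw [Matrix.mulVec_add, hno i j hij Y hY y hy, add_zero]
      exact kill_tate (h j).k3 (hX j) (hom_tate hY ht)
    rw [h1, h2]

section forms

variable {A : Fin r → Type} [∀ j, Fintype (A j)] [∀ j, DecidableEq (A j)]

/-- The form `F`, in the variables `x_{j, a}` from `V_j(1)`, `a ∈ A_j`, is invariant under an open subgroup. -/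
def FamInv (χ : GK K →* ℚ_[ℓ]) (ρ : ∀ j, GK K →* Matrix (n j) (n j) ℚ_[ℓ])
    (F : (∀ j, A j → n j) → ℚ_[ℓ]) : Prop :=
  ∃ U : Subgroup (GK K), IsOpen (U : Set (GK K)) ∧ ∀ g ∈ U, ∀ J,
    ∑ J', (∏ j, ∏ a, tw χ (ρ j) g (J' j a) (J j a)) * F J' = F J

/-- The span of the products of invariant forms, one for each `j`, in the variables from `V_j(1)`. -/
noncomputable def famProd (χ : GK K →* ℚ_[ℓ]) (ρ : ∀ j, GK K →* Matrix (n j) (n j) ℚ_[ℓ])
    (A : Fin r → Type) [∀ j, Fintype (A j)] [∀ j, DecidableEq (A j)] :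
    Submodule ℚ_[ℓ] ((∀ j, A j → n j) → ℚ_[ℓ]) :=
  Submodule.span ℚ_[ℓ] {F | ∃ f : ∀ j, (A j → n j) → ℚ_[ℓ],
    (∀ j, InvForm (tw χ (ρ j)) (f j)) ∧ F = fun J => ∏ j, f j (J j)}

theorem ex_inv {F : (∀ j, A j → n j) → ℚ_[ℓ]} (hF : FamInv χ ρ F) :
    InvForm (tw χ (sumRep ρ)) (ex F) := by
  obtain ⟨U, hU, hUF⟩ := hF
  refine ⟨U, hU, fun g hg => ?_⟩
  rw [tw_sum]
  change chg (Matrix.blockDiagonal' fun j => tw χ (ρ j) g) (ex F) = ex F
  rw [chg_ex]
  congr 1
  funext J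
  exact hUF g hg J

theorem fam_forms (h : ∀ j, Scalar (q j) (S j) χ (Pol j) (ρ j))
    (hsp : ∀ X : ∀ j, Matrix (n j) (n j) ℚ_[ℓ], (∀ j, X j ∈ tateLie χ (ρ j)) →
      Matrix.blockDiagonal' X ∈ tateLie χ (sumRep ρ))
    {F : (∀ j, A j → n j) → ℚ_[ℓ]} (hF : FamInv χ ρ F) : F ∈ famProd χ ρ A := by
  refine fam_span (E := fun j => A j → n j) (fun j => invSub (tw χ (ρ j)) (A j)) F fun J i => ?_
  rw [mem_invSub]
  refine inv_of_der (h i).k3 (h i).semisimple _ fun X hX => ?_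
  funext L
  have h1 := hsp (Function.update 0 i X) (fun j => by
    by_cases hj : j = i
    · subst hj
      rw [Function.update_self]
      exact hX
    · rw [Function.update_of_ne hj]
      exact Submodule.zero_mem _)
  have h2 := congrFun (der_of_inv _ (ex_inv hF) h1) (emb (Function.update J i L))
  rw [der_ex, Function.update_self] at h2
  have h3 : (fun L' => F (Function.update (Function.update J i L) i L')) =
      fun L' => F (Function.update J i L') := by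
    funext L'
    rw [Function.update_idem]
  rw [h3] at h2
  exact h2

end forms

end Pool.Agent.H851.MK
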