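import Mathlib
import Pool.Agent.H851.MK.FamG

/-!
# Independence of representations of K3 type
-/

set_option autoImplicit false
set_option linter.unusedSectionVars false
set_option linter.unusedVariables false

namespace Pool.Agent.H851.MK

open Matrix Module TensorProduct Pool.Agent.Y114.RM Pool.Agent.TH118.SG Polynomial Topology
open NumberField IsDedekindDomain
open Pool.Agent.N429.KS (chg der)
open Pool.Agent.H851.K3 Pool.Agent.H851.KT Pool.Agent.H851.TT Pool.Agent.H851.ZD
open Pool.Agent.H851.IN Pool.Agent.H851.KS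
open Pool.Agent.NH56.HY (GK IsFrobenius tw tw_apply R chi_ne Near NonUnip)
open Pool.Agent.H204R3.GP (FiniteIndexSemisimple)

variable {K : Type} [Field K] [NumberField K] {ℓ : ℕ} [hℓ : Fact ℓ.Prime]

variable {r : ℕ} {n : Fin r → Type} [∀ j, Fintype (n j)] [∀ j, DecidableEq (n j)]
    {q : ∀ j, Matrix (n j) (n j) ℚ_[ℓ]} {S : Fin r → Finset ℕ} {χ : GK K →* ℚ_[ℓ]}
    {Pol : Fin r → HeightOneSpectrum (𝓞 K) → ℤ[X]} {ρ : ∀ j, GK K →* Matrix (n j) (n j) ℚ_[ℓ]}

/-- the variables of a form in one variable from each of two summands -/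
abbrev Two (i j : Fin r) (l : Fin r) : Type := {_u : Unit // l = i ∨ l = j}

theorem two_bij {i j : Fin r} (hij : i ≠ j) :
    Function.Bijective (fun J : ∀ l, Two i j l → n l =>
      (J i ⟨(), Or.inl rfl⟩, J j ⟨(), Or.inr rfl⟩)) := by
  constructor
  · intro J J' h
    funext l a
    obtain ⟨⟨⟩, hl⟩ := a
    rcases hl with rfl | rfl
    · exact congrArg Prod.fst h
    · exact congrArg Prod.snd h
  · rintro ⟨b, c⟩
    refine ⟨fun l a => if h : l = i then cast (congrArg n h.symm) b else
      cast (congrArg n (a.2.resolve_left h).symm) c, ?_⟩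
    refine Prod.ext ?_ ?_
    · change (if h : i = i then cast (congrArg n h.symm) b else _) = b
      rw [dif_pos rfl]
      rfl
    · change (if h : j = i then _ else cast _ c) = c
      rw [dif_neg (Ne.symm hij)]
      rfl

theorem two_prod {i j : Fin r} (hij : i ≠ j) (f : ∀ l, Two i j l → ℚ_[ℓ]) :
    ∏ l, ∏ a, f l a = f i ⟨(), Or.inl rfl⟩ * f j ⟨(), Or.inr rfl⟩ := by
  rw [Finset.prod_eq_mul i j hij]
  · rw [Fintype.prod_subsingleton _ (⟨(), Or.inl rfl⟩ : Two i j i),
      Fintype.prod_subsingleton _ (⟨(), Or.inr rfl⟩ : Two i j j)]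
  · rintro l - ⟨h1, h2⟩
    refine Finset.prod_eq_one fun a _ => ?_
    exact absurd a.2 (not_or.2 ⟨h1, h2⟩)
  · intro h
    exact absurd (Finset.mem_univ _) h
  · intro h
    exact absurd (Finset.mem_univ _) h

/-- **Forms detect homomorphisms.** -/
theorem fam_noHom (h : ∀ j, IsK3Type (q j) (S j) χ (Pol j) (ρ j)) {i j : Fin r} (hij : i ≠ j)
    (hf : ∀ F : (∀ l, Two i j l → n l) → ℚ_[ℓ], FamInv χ ρ F → F ∈ famProd χ ρ (Two i j)) :
    NoHom (q i) χ (ρ i) (ρ j) := by
  rintro Y ⟨U, hU, hUY⟩ x hx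
  have htw : ∀ g ∈ U, tw χ (ρ j) g * Y = Y * tw χ (ρ i) g := by
    intro g hg
    rw [tw_apply, tw_apply, Matrix.smul_mul, Matrix.mul_smul, hUY g hg]
  let ai : Two i j i := ⟨(), Or.inl rfl⟩
  let aj : Two i j j := ⟨(), Or.inr rfl⟩
  let M : Matrix (n i) (n j) ℚ_[ℓ] := Yᵀ * q j
  have hM : ∀ g ∈ U, (tw χ (ρ i) g)ᵀ * M * tw χ (ρ j) g = M := by
    intro g hg
    have h1 : (tw χ (ρ i) g)ᵀ * M * tw χ (ρ j) g = (Y * tw χ (ρ i) g)ᵀ * q j * tw χ (ρ j) g := by
      rw [Matrix.transpose_mul]
      simp only [M, Matrix.mul_assoc]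
    rw [h1, ← htw g hg, Matrix.transpose_mul]
    calc Yᵀ * (tw χ (ρ j) g)ᵀ * q j * tw χ (ρ j) g
        = Yᵀ * ((tw χ (ρ j) g)ᵀ * q j * tw χ (ρ j) g) := by simp only [Matrix.mul_assoc]
      _ = M := by rw [tw_form (h j) g]
  have hF : FamInv χ ρ (fun J : ∀ l, Two i j l → n l => M (J i ai) (J j aj)) := by
    refine ⟨U, hU, fun g hg J => ?_⟩
    have h1 : ∑ J' : ∀ l, Two i j l → n l,
        (∏ l, ∏ a, tw χ (ρ l) g (J' l a) (J l a)) * M (J' i ai) (J' j aj) =
        ∑ z : n i × n j, (tw χ (ρ i) g z.1 (J i ai) * tw χ (ρ j) g z.2 (J j aj)) * M z.1 z.2 := by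
      refine Fintype.sum_bijective _ (two_bij hij) _ _ fun J' => ?_
      rw [two_prod hij fun l a => tw χ (ρ l) g (J' l a) (J l a)]
    refine h1.trans ?_
    have h2 : ((tw χ (ρ i) g)ᵀ * M * tw χ (ρ j) g) (J i ai) (J j aj) = M (J i ai) (J j aj) := by
      rw [hM g hg]
    refine Eq.trans ?_ h2
    rw [Matrix.mul_apply, Fintype.sum_prod_type, Finset.sum_comm]
    refine Finset.sum_congr rfl fun s _ => ?_
    rw [Matrix.mul_apply, Finset.sum_mul]
    refine Finset.sum_congr rfl fun a _ => ?_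
    rw [Matrix.transpose_apply]
    ring
  have h1 := hf _ hF
  let hu : Unique (Two i j i) := ⟨⟨ai⟩, fun a => Subtype.ext rfl⟩
  have h2 : ∀ F ∈ famProd χ ρ (Two i j), ∀ L : ∀ l, Two i j l → n l,
      ∑ b, x b * F (Function.update L i fun _ => b) = 0 := by
    intro F hF
    induction hF using Submodule.span_induction with
    | mem F hF =>
      obtain ⟨f, hf, rfl⟩ := hF
      intro L
      have h3 : ∑ b, x b * (∏ l, f l ((Function.update L i fun _ => b) l)) =
          (∑ b, x b * f i fun _ => b) * ∏ l ∈ Finset.univ.erase i, f l (L l) := by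
        rw [Finset.sum_mul]
        refine Finset.sum_congr rfl fun b _ => ?_
        rw [← Finset.mul_prod_erase _ _ (Finset.mem_univ i), Function.update_self, mul_assoc]
        congr 2
        refine Finset.prod_congr rfl fun l hl => ?_
        rw [Function.update_of_ne (Finset.ne_of_mem_erase hl)]
      rw [h3, unique_kill (h i) (hf i) hx, zero_mul]
    | zero =>
      intro L
      exact Finset.sum_eq_zero fun a _ => mul_zero _
    | add F G _ _ h3 h4 =>
      intro L
      have h5 : ∑ b, x b * (F + G) (Function.update L i fun _ => b) =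
          ∑ b, x b * F (Function.update L i fun _ => b) +
            ∑ b, x b * G (Function.update L i fun _ => b) := by
        rw [← Finset.sum_add_distrib]
        exact Finset.sum_congr rfl fun a _ => mul_add _ _ _
      rw [h5, h3, h4, add_zero]
    | smul c F _ h3 =>
      intro L
      have h5 : ∑ b, x b * (c • F) (Function.update L i fun _ => b) =
          c * ∑ b, x b * F (Function.update L i fun _ => b) := by
        rw [Finset.mul_sum]
        refine Finset.sum_congr rfl fun a _ => ?_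
        change x a * (c * _) = _
        ring
      rw [h5, h3, mul_zero]
  have h3 : q j *ᵥ (Y *ᵥ x) = 0 := by
    funext c
    rcases isEmpty_or_nonempty (n i) with he | ⟨⟨b0⟩⟩
    · have h4 : Y *ᵥ x = 0 := by
        funext d
        exact Finset.sum_eq_zero fun b _ => (he.false b).elim
      rw [h4, Matrix.mulVec_zero]
    · obtain ⟨L, hL⟩ := (two_bij (n := n) hij).2 (b0, c)
      have h4 := h2 _ h1 L
      have h5 : (Mᵀ *ᵥ x) c = 0 := by
        rw [← h4]
        change ∑ b, M b c * x b = _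
        refine Finset.sum_congr rfl fun b _ => ?_
        rw [Function.update_self, Function.update_of_ne (Ne.symm hij),
          show L j aj = c from congrArg Prod.snd hL, mul_comm]
      have h6 : Mᵀ *ᵥ x = q j *ᵥ (Y *ᵥ x) := by
        simp only [M, Matrix.transpose_mul, Matrix.transpose_transpose]
        rw [(h j).symm, ← Matrix.mulVec_mulVec]
      rw [← h6]
      exact h5
  exact Matrix.mulVec_injective_of_isUnit
    ((Matrix.isUnit_iff_isUnit_det (q j)).2 (h j).nondeg.isUnit)
    (h3.trans (Matrix.mulVec_zero _).symm)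

/-- **Independence.** -/
theorem fam_indep (h : ∀ j, Scalar (q j) (S j) χ (Pol j) (ρ j)) :
    List.TFAE [∀ i j, i ≠ j → NoHom (q i) χ (ρ i) (ρ j),
      ∀ X : ∀ j, Matrix (n j) (n j) ℚ_[ℓ], (∀ j, X j ∈ tateLie χ (ρ j)) →
        Matrix.blockDiagonal' X ∈ tateLie χ (sumRep ρ),
      ∀ (A : Fin r → Type) [∀ j, Fintype (A j)] [∀ j, DecidableEq (A j)]
        (F : (∀ j, A j → n j) → ℚ_[ℓ]), FamInv χ ρ F → F ∈ famProd χ ρ A] := by
  tfae_have 1 → 2 := fun hno X hX => tateLie_indep h hno X hX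
  tfae_have 2 → 3 := fun hsp A _ _ F hF => fam_forms h hsp hF
  tfae_have 3 → 1 := fun hf i j hij => fam_noHom (fun j => (h j).k3) hij fun F hF => hf (Two i j) F hF
  tfae_finish

end Pool.Agent.H851.MK
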