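import Mathlib
import Pool.Agent.H851.MK.FamH

/-!
# The Lie algebra of a sum of representations of K3 type, explicitly
-/

set_option autoImplicit false
set_option linter.unusedSectionVars false
set_option linter.unusedVariables false

namespace Pool.Agent.H851.MK

open Matrix Module TensorProduct Pool.Agent.Y114.RM Pool.Agent.TH118.SG Polynomial Topology
open NumberField IsDedekindDomain
open Pool.Agent.H851.K3 Pool.Agent.H851.KT Pool.Agent.H851.TT Pool.Agent.H851.ZD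
open Pool.Agent.H851.IN Pool.Agent.H851.KS
open Pool.Agent.NH56.HY (GK IsFrobenius tw tw_apply R chi_ne Near NonUnip)

variable {K : Type} [Field K] [NumberField K] {ℓ : ℕ} [hℓ : Fact ℓ.Prime]

section one

variable {n : Type} [Fintype n] [DecidableEq n] {q : Matrix n n ℚ_[ℓ]} {S : Finset ℕ}
    {χ : GK K →* ℚ_[ℓ]} {Pol : HeightOneSpectrum (𝓞 K) → ℤ[X]} {ρ : GK K →* Matrix n n ℚ_[ℓ]}

/-- in the scalar case the Lie algebra is the orthogonal Lie algebra of the transcendental part -/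
theorem so_mem (h : IsK3Type q S χ Pol ρ) (hss : Semisimple ρ) (hc : ScalarEnds q χ ρ)
    (X : Matrix n n ℚ_[ℓ]) :
    X ∈ tateLie χ ρ ↔ Xᵀ * q + q * X = 0 ∧ ∀ x ∈ tate χ ρ, X *ᵥ x = 0 := by
  rw [tate_main h hss]
  constructor
  · rintro ⟨h1, h2⟩
    exact ⟨h1, fun x hx => kill_tate h ((tate_main h hss X).2 ⟨h1, h2⟩) hx⟩
  · rintro ⟨h1, h2⟩
    refine ⟨h1, fun Y hY => ?_⟩
    obtain ⟨a, ha⟩ := hc Y hY
    have hT : ∀ x, X *ᵥ x ∈ orth q (tate χ ρ) := by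
      intro x t ht
      have h3 : Skew (form q) (Matrix.toLin' X) := skew_iff.2 h1
      have h4 := h3 t x
      rw [Matrix.toLin'_apply, Matrix.toLin'_apply, h2 t ht, map_zero, LinearMap.zero_apply,
        form_apply] at h4
      exact neg_eq_zero.1 h4.symm
    apply (Matrix.toLin' (R := ℚ_[ℓ])).injective
    refine LinearMap.ext fun x => ?_
    rw [Matrix.toLin'_apply, Matrix.toLin'_apply, ← Matrix.mulVec_mulVec, ← Matrix.mulVec_mulVec,
      ha _ (hT x)]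
    have h3 : x ∈ tate χ ρ ⊔ orth q (tate χ ρ) := by
      rw [(tate_compl h hss).sup_eq_top]
      trivial
    obtain ⟨t, ht, y, hy, rfl⟩ := Submodule.mem_sup.1 h3
    rw [Matrix.mulVec_add, Matrix.mulVec_add, h2 _ (end_tate hY ht), Matrix.mulVec_add, h2 t ht,
      ha y hy, Matrix.mulVec_smul, zero_add, zero_add]

end one

variable {r : ℕ} {n : Fin r → Type} [∀ j, Fintype (n j)] [∀ j, DecidableEq (n j)]
    {q : ∀ j, Matrix (n j) (n j) ℚ_[ℓ]} {S : Fin r → Finset ℕ} {χ : GK K →* ℚ_[ℓ]}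
    {Pol : Fin r → HeightOneSpectrum (𝓞 K) → ℤ[X]} {ρ : ∀ j, GK K →* Matrix (n j) (n j) ℚ_[ℓ]}

/-- **The Lie algebra of a sum, explicitly.** -/
theorem tateLie_sum' (h : ∀ j, Scalar (q j) (S j) χ (Pol j) (ρ j))
    (Z : Matrix (Σ j, n j) (Σ j, n j) ℚ_[ℓ]) : Z ∈ tateLie χ (sumRep ρ) ↔
      ∃ X : ∀ j, Matrix (n j) (n j) ℚ_[ℓ], Z = Matrix.blockDiagonal' X ∧
        (∀ j, (X j)ᵀ * q j + q j * X j = 0 ∧ ∀ x ∈ tate χ (ρ j), X j *ᵥ x = 0) ∧
        ∀ i j (Y : Matrix (n j) (n i) ℚ_[ℓ]), TateHom (ρ i) (ρ j) Y → Y * X i = X j * Y := by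
  rw [tateLie_sum h]
  constructor
  · rintro ⟨X, h1, h2, h3⟩
    exact ⟨X, h1, fun j => (so_mem (h j).k3 (h j).semisimple (h j).scalar _).1 (h2 j), h3⟩
  · rintro ⟨X, h1, h2, h3⟩
    exact ⟨X, h1, fun j => (so_mem (h j).k3 (h j).semisimple (h j).scalar _).2 (h2 j), h3⟩

end Pool.Agent.H851.MK
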